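import Pool.Agent.War5.Stmts

/-!
# Simultaneous Waring decompositions, few forms, all degrees (MP_db021c_ag): the induction (AG)
-/

set_option autoImplicit false

open Module MvPolynomial
open Pool.Agent.War Pool.Agent.WarS

namespace Pool.Agent.War5

namespace AGaux

theorem NN_ratio' (n d : ℕ) : NN n d * (n + d + 1) = NN n (d + 1) * (d + 1) := by
  have h := Nat.choose_mul_succ_eq (n + d) n
  have h1 : n + d + 1 - n = d + 1 := by omega
  rw [h1] at h
  exact h

theorem NN_le (n d : ℕ) : NN n (d + 1) ≤ (n + 1) * NN n d := by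
  have h := NN_ratio' n d
  have h1 : NN n (d + 1) * (d + 1) ≤ (n + 1) * NN n d * (d + 1) := by
    rw [← h]
    have h2 : n + d + 1 ≤ (n + 1) * (d + 1) := by nlinarith
    calc NN n d * (n + d + 1) ≤ NN n d * ((n + 1) * (d + 1)) := Nat.mul_le_mul_left _ h2
      _ = _ := by ring
  exact Nat.le_of_mul_le_mul_right h1 (Nat.succ_pos d)

theorem sn (h3 : S_SN3) (h4 : S_SN4) (h5 : S_SN5) (h6 : S_SN6) (h7 : S_SN7) (n d : ℕ)
    (hn : 1 ≤ n) (hd : 3 ≤ d) : SN n d := by
  rcases Nat.lt_or_ge d 6 with h | h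
  · obtain rfl | rfl | rfl : d = 3 ∨ d = 4 ∨ d = 5 := by omega
    · exact h3 n hn
    · exact h4 n hn
    · exact h5 n hn
  · rcases Nat.lt_or_ge n 3 with h' | h'
    · exact h7 n d hn (by omega) h
    · exact h6 n d h' h

theorem AQU (hMO : S_MO) (hAK : S_AK) (hKAP : S_KAP) {n d : ℕ} (hn : 1 ≤ n) (hd : 3 ≤ d)
    (hs : SN n d) (hU : GG n (d + 1) (gg n (d + 1))) (hG : GG (n + 1) d (gg (n + 1) d))
    (hG' : 3 ≤ d - 1 → GG (n + 1) (d - 1) (gg (n + 1) (d - 1))) :
    SWaux.A n d (gg (n + 1) (d + 1) - gg n (d + 1)) (gg n (d + 1)) := by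
  obtain ⟨s1, s2, s3⟩ := hs
  rcases Nat.eq_zero_or_pos (gg (n + 1) (d + 1) - gg n (d + 1)) with h0 | h0
  · rw [h0]
    refine SWaux.A_zero ?_
    have h1 := hU.le
    have h2 := NN_le n d
    exact Nat.le_of_mul_le_mul_left (h1.trans h2) (Nat.succ_pos n)
  · obtain ⟨e, rfl⟩ : ∃ e, d = e + 1 := ⟨d - 1, by omega⟩
    rw [Nat.add_sub_cancel] at s3 hG'
    have h1 := hMO.1 (n + 1) (e + 1) _ (gg (n + 1) (e + 1 + 1) - gg n (e + 1 + 1)) hG (by omega)
    have h2 := hKAP (n + 1) e (gg (n + 1) (e + 1 + 1) - gg n (e + 1 + 1)) (by omega) h0 (by omega)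
      hG'
    exact hAK n e _ _ _ h1 h2 s3

theorem GG_of_A {n d p : ℕ} (h : SWaux.A n d p 0) : GG (n + 1) d p := by
  obtain ⟨w, y, h⟩ := h
  refine ⟨w, ?_⟩
  have h1 : SWaux.DS n d w y = Dbl (n + 1) d Finset.univ w := by
    unfold SWaux.DS
    rw [iInf_of_empty, inf_top_eq]
  rw [h1] at h
  exact h

theorem main (hG1 : S_G1) (hC9 : S_C9) (hMO : S_MO) (hAK : S_AK) (hKAP : S_KAP)
    (hsn : ∀ n d : ℕ, 1 ≤ n → 3 ≤ d → SN n d) (k : ℕ) :
    ∀ d : ℕ, 3 ≤ d → GG (k + 1) d (gg (k + 1) d) := by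
  induction k with
  | zero =>
    intro d hd
    refine hG1 d _ ?_
    have h : gg (0 + 1) d = (d + 1) / 2 := by
      unfold gg
      rw [if_pos rfl]
    rw [h]
    omega
  | succ k ihk =>
    intro d
    induction d using Nat.strong_induction_on with
    | _ d ih =>
      intro hd
      rcases Nat.eq_or_lt_of_le hd with h | h
      · subst h
        refine hC9 _ _ ?_
        have h : gg (k + 1 + 1) 3 = (k + 1 + 1 + 3) ^ 2 / 9 := by
          unfold gg
          rw [if_neg (by omega), if_pos rfl]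
        rw [h]
        exact Nat.mul_div_le _ _
      · obtain ⟨e, rfl⟩ : ∃ e, d = e + 1 := ⟨d - 1, by omega⟩
        have hs := hsn (k + 1) e (by omega) (by omega)
        have hU := ihk (e + 1) (by omega)
        have h1 := AQU hMO hAK hKAP (by omega) (by omega) hs hU (ih e (by omega) (by omega))
          (fun h3 => ih (e - 1) (by omega) h3)
        have h2 := SWaux.A_step (l := 0) hU h1 (by have := hU.le; omega)
        rw [Nat.add_sub_cancel' hs.1] at h2
        exact GG_of_A h2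

end AGaux

theorem x_AG (hG1 : S_G1) (hC9 : S_C9) (hMO : S_MO) (hAK : S_AK) (hKAP : S_KAP) (h3 : S_SN3)
    (h4 : S_SN4) (h5 : S_SN5) (h6 : S_SN6) (h7 : S_SN7) : S_AG := by
  have hsn := AGaux.sn h3 h4 h5 h6 h7
  have hm : ∀ n d : ℕ, 1 ≤ n → 3 ≤ d → GG n d (gg n d) := by
    intro n d hn hd
    obtain ⟨k, rfl⟩ : ∃ k, n = k + 1 := ⟨n - 1, by omega⟩
    exact AGaux.main hG1 hC9 hMO hAK hKAP hsn k d hd
  refine ⟨fun n d p hn hd hp => hMO.1 n d _ p (hm n d hn hd) hp, fun n d hn hd q l hq hl => ?_⟩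
  refine hMO.2 n d _ _ q l ?_ hq hl
  exact AGaux.AQU hMO hAK hKAP hn hd (hsn n d hn hd) (hm n (d + 1) hn (by omega))
    (hm (n + 1) d (by omega) hd) (fun h => hm (n + 1) (d - 1) (by omega) h)

end Pool.Agent.War5
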