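import Pool.Agent.War5.Stmts

/-!
# Simple points on the hyperplane added to double points (MP_db021c_ag)   (helper18)
-/

set_option autoImplicit false

open Module MvPolynomial
open Pool.Agent.War Pool.Agent.WarS

namespace Pool.Agent.War5

theorem x_AK : S_AK := by
  intro n d q l k hg hk hnum
  obtain ⟨z, hz⟩ := hk
  have g3 : Gen ℂ fun w : Fin q → Fin (n + 1) → ℂ =>
      finrank ℂ (Dbl (n + 1) d Finset.univ w) ≤ k :=
    (PK_Dbl (n + 1) d Finset.univ).gen_finrank (x₀ := z) hz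
  obtain ⟨w, ⟨hw1, hw2⟩, hw3⟩ := ((hg.gen.and g3).and gen_off).exists
  refine SWaux.add_simple w (by omega) hw1 ?_
  refine (finrank_inf_ker_le (Dbl (n + 1) (d + 1) Finset.univ w)
    (Dbl (n + 1) d Finset.univ w) fun g hg => ?_).trans (hw2.trans (by omega))
  exact ⟨fun i => (off_hyp (hw3 i) (hg.1 i) (hg.2 i (Finset.mem_univ _))).1, fun i _ k =>
    (off_hyp (hw3 i) (hg.1 i) (hg.2 i (Finset.mem_univ _))).2 k⟩

end Pool.Agent.War5
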