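import Pool.Agent.War5.Stmts

/-!
# CF: closed forms of `NN n d`, `d ≤ 6`
-/

set_option autoImplicit false

open Pool.Agent.War Pool.Agent.WarS

namespace Pool.Agent.War5

namespace CFaux

theorem ratio (n d : ℕ) : NN n d * (n + d + 1) = NN n (d + 1) * (d + 1) := by
  have h := Nat.choose_mul_succ_eq (n + d) n
  have e2 : n + d + 1 - n = d + 1 := by omega
  rw [e2] at h
  exact h

end CFaux

open CFaux in
theorem x_CF : S_CF := by
  intro n
  have r1 := ratio n 1
  have r2 := ratio n 2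
  have r3 := ratio n 3
  have r4 := ratio n 4
  have r5 := ratio n 5
  have h1 : NN n 1 = n + 1 := NN_right_one n
  rw [h1] at r1
  norm_num at r1 r2 r3 r4 r5
  have h2 : 2 * NN n 2 = (n + 1) * (n + 2) := by rw [mul_comm, ← r1]
  have h3 : 6 * NN n 3 = (n + 1) * (n + 2) * (n + 3) := by
    calc 6 * NN n 3 = 2 * (NN n 3 * 3) := by ring
      _ = 2 * (NN n 2 * (n + 2 + 1)) := by rw [r2]
      _ = (2 * NN n 2) * (n + 3) := by ring
      _ = _ := by rw [h2]
  have h4 : 24 * NN n 4 = (n + 1) * (n + 2) * (n + 3) * (n + 4) := by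
    calc 24 * NN n 4 = 6 * (NN n 4 * 4) := by ring
      _ = 6 * (NN n 3 * (n + 3 + 1)) := by rw [r3]
      _ = (6 * NN n 3) * (n + 4) := by ring
      _ = _ := by rw [h3]
  have h5 : 120 * NN n 5 = (n + 1) * (n + 2) * (n + 3) * (n + 4) * (n + 5) := by
    calc 120 * NN n 5 = 24 * (NN n 5 * 5) := by ring
      _ = 24 * (NN n 4 * (n + 4 + 1)) := by rw [r4]
      _ = (24 * NN n 4) * (n + 5) := by ring
      _ = _ := by rw [h4]
  have h6 : 720 * NN n 6 = (n + 1) * (n + 2) * (n + 3) * (n + 4) * (n + 5) * (n + 6) := by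
    calc 720 * NN n 6 = 120 * (NN n 6 * 6) := by ring
      _ = 120 * (NN n 5 * (n + 5 + 1)) := by rw [r5]
      _ = (120 * NN n 5) * (n + 6) := by ring
      _ = _ := by rw [h5]
  exact ⟨h2, h3, h4, h5, h6⟩

end Pool.Agent.War5
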