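import Pool.Agent.WarM.Dual

/-!
# Cubics: `q₂ q₃ + q₁ + q₂` independent double points, `n + 1 = q₁ + q₂ + q₃`

Coordinates `a_i` (`i < q₁`), `b_j` (`j < q₂`), `c_k` (`k < q₃`), `q₁ ≥ q₂ ≥ q₃`. Points:
`a_i + 2^k b_j + 2^(i+j) c_k`, `i = f j k = j + k mod q₁`, and the coordinate points `a_i`, `b_j`.
-/

set_option autoImplicit false

open Module Pool.Agent.War Pool.Agent.WarM

namespace Pool.Agent.War5

/-- **The walk.** -/
theorem walk {α X Y Z : Type} [Fintype α] [DecidableEq X] [DecidableEq Y] [DecidableEq Z]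
    (x : α → X) (y : α → Y) (z : α → Z) (ex ey ez w : α → ℕ) (h : X → ℕ) (L : α → X → ℂ)
    (hxy : ∀ P Q, x P = x Q → y P = y Q → P = Q) (hxz : ∀ P Q, x P = x Q → z P = z Q → P = Q)
    (rz : ∀ a a', a ≠ a' → ∀ c, ∑ P, (if x P = a' ∧ z P = c then L P a * 2 ^ ex P * 2 ^ ez P else 0) +
      ∑ P, (if x P = a ∧ z P = c then L P a' * 2 ^ ex P * 2 ^ ez P else 0) = 0)
    (ry : ∀ a a', a ≠ a' → ∀ c, ∑ P, (if x P = a' ∧ y P = c then L P a * 2 ^ ex P * 2 ^ ey P else 0) +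
      ∑ P, (if x P = a ∧ y P = c then L P a' * 2 ^ ex P * 2 ^ ey P else 0) = 0)
    (hw : ∀ P P' P₂, x P = x P₂ → z P = z P' → y P' = y P₂ →
      ey P' + ex P + ez P + w P₂ + h (x P') = h (x P) + ez P' + ex P₂ + ey P₂ + w P)
    (a a' : X) (hh : h a' < h a) :
    (∀ P, x P = a → L P a' = 0) ∧ ∀ P, x P = a' → L P a = 0 := by
  have hne : a ≠ a' := by
    rintro rfl
    exact lt_irrefl _ hh
  -- unique terms
  have uz : ∀ (P : α) (b : X), ∑ Q, (if x Q = x P ∧ z Q = z P then L Q b * 2 ^ ex Q * 2 ^ ez Q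
      else 0) = L P b * 2 ^ ex P * 2 ^ ez P := by
    intro P b
    rw [Finset.sum_eq_single P]
    · rw [if_pos ⟨rfl, rfl⟩]
    · intro Q _ hQ
      rw [if_neg fun h' => hQ (hxz Q P h'.1 h'.2)]
    · intro h'
      exact absurd (Finset.mem_univ P) h'
  have uy : ∀ (P : α) (b : X), ∑ Q, (if x Q = x P ∧ y Q = y P then L Q b * 2 ^ ex Q * 2 ^ ey Q
      else 0) = L P b * 2 ^ ex P * 2 ^ ey P := by
    intro P b
    rw [Finset.sum_eq_single P]
    · rw [if_pos ⟨rfl, rfl⟩]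
    · intro Q _ hQ
      rw [if_neg fun h' => hQ (hxy Q P h'.1 h'.2)]
    · intro h'
      exact absurd (Finset.mem_univ P) h'
  have two_ne : ∀ m : ℕ, (2 : ℂ) ^ m ≠ 0 := fun m => pow_ne_zero _ two_ne_zero
  -- the step
  have step : ∀ P, x P = a → L P a' ≠ 0 → ∃ P₂, x P₂ = a ∧
      (2 : ℝ) ^ h a' * (2 ^ w P₂ * ‖L P₂ a'‖) = 2 ^ h a * (2 ^ w P * ‖L P a'‖) := by
    intro P hP hL
    have h1 := rz a a' hne (z P)
    rw [← hP, uz P a'] at h1
    by_cases hP' : ∃ P', x P' = a' ∧ z P' = z P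
    swap
    · exfalso
      rw [Finset.sum_eq_zero, zero_add] at h1
      · rcases mul_eq_zero.1 h1 with h2 | h2
        · rcases mul_eq_zero.1 h2 with h3 | h3
          · exact hL h3
          · exact two_ne _ h3
        · exact two_ne _ h2
      · intro Q _
        rw [if_neg fun h' => hP' ⟨Q, h'⟩]
    obtain ⟨P', hx', hz'⟩ := hP'
    rw [← hx', ← hz', uz P' (x P), hP, hx'] at h1
    have h2 := ry a a' hne (y P')
    rw [← hx', uy P' a, hx'] at h2
    have hL' : L P' a ≠ 0 := by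
      intro h0
      rw [h0, zero_mul, zero_mul, zero_add] at h1
      rcases mul_eq_zero.1 h1 with h2 | h2
      · rcases mul_eq_zero.1 h2 with h3 | h3
        · exact hL h3
        · exact two_ne _ h3
      · exact two_ne _ h2
    by_cases hP₂ : ∃ P₂, x P₂ = a ∧ y P₂ = y P'
    swap
    · exfalso
      have h3 : ∑ Q, (if x Q = a ∧ y Q = y P' then L Q a' * 2 ^ ex Q * 2 ^ ey Q else 0) = 0 :=
        Finset.sum_eq_zero fun Q _ => by rw [if_neg fun h' => hP₂ ⟨Q, h'⟩]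
      rw [h3, add_zero] at h2
      rcases mul_eq_zero.1 h2 with h2 | h2
      · rcases mul_eq_zero.1 h2 with h3 | h3
        · exact hL' h3
        · exact two_ne _ h3
      · exact two_ne _ h2
    obtain ⟨P₂, hx₂, hy₂⟩ := hP₂
    rw [← hx₂, ← hy₂, uy P₂ a', hx₂] at h2
    refine ⟨P₂, hx₂, ?_⟩
    have n1 : ‖L P' a‖ * 2 ^ ex P' * 2 ^ ez P' = ‖L P a'‖ * 2 ^ ex P * 2 ^ ez P := by
      have := congrArg norm (eq_neg_of_add_eq_zero_left h1)
      rw [norm_neg] at this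
      simpa using this
    have n2 : ‖L P' a‖ * 2 ^ ex P' * 2 ^ ey P' = ‖L P₂ a'‖ * 2 ^ ex P₂ * 2 ^ ey P₂ := by
      have := congrArg norm (eq_neg_of_add_eq_zero_left h2)
      rw [norm_neg] at this
      simpa using this
    have n3 := hw P P' P₂ (by rw [hP, hx₂]) hz'.symm hy₂.symm
    rw [hx', hP] at n3
    have n4 : (2 : ℝ) ^ (h a' + w P₂) * ‖L P₂ a'‖ * 2 ^ (ez P' + ex P₂ + ey P₂) =
        2 ^ (h a + w P) * ‖L P a'‖ * 2 ^ (ez P' + ex P₂ + ey P₂) := by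
      calc (2 : ℝ) ^ (h a' + w P₂) * ‖L P₂ a'‖ * 2 ^ (ez P' + ex P₂ + ey P₂)
          = 2 ^ (h a' + w P₂) * 2 ^ ez P' * (‖L P₂ a'‖ * 2 ^ ex P₂ * 2 ^ ey P₂) := by
            rw [pow_add, pow_add]; ring
        _ = 2 ^ (h a' + w P₂) * 2 ^ ey P' * (‖L P' a‖ * 2 ^ ex P' * 2 ^ ez P') := by
            rw [← n2]; ring
        _ = 2 ^ (ey P' + ex P + ez P + w P₂ + h a') * ‖L P a'‖ := by
            rw [n1, pow_add, pow_add, pow_add, pow_add, pow_add]; ring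
        _ = 2 ^ (h a + ez P' + ex P₂ + ey P₂ + w P) * ‖L P a'‖ := by rw [n3]
        _ = _ := by
            rw [pow_add, pow_add, pow_add, pow_add, pow_add, pow_add, pow_add]; ring
    have n5 := mul_right_cancel₀ (pow_ne_zero _ two_ne_zero) n4
    rw [pow_add, pow_add, mul_assoc, mul_assoc] at n5
    exact n5
  have first : ∀ P, x P = a → L P a' = 0 := by
    by_contra hcon
    push Not at hcon
    obtain ⟨P₀, hP₀, hL₀⟩ := hcon
    obtain ⟨P, hPm, hPmax⟩ := Finset.exists_max_image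
      ((Finset.univ : Finset α).filter fun P => x P = a) (fun P => (2 : ℝ) ^ w P * ‖L P a'‖)
      ⟨P₀, by rw [Finset.mem_filter]; exact ⟨Finset.mem_univ _, hP₀⟩⟩
    rw [Finset.mem_filter] at hPm
    have hpos : 0 < (2 : ℝ) ^ w P * ‖L P a'‖ := by
      refine lt_of_lt_of_le ?_ (hPmax P₀ (by rw [Finset.mem_filter]; exact ⟨Finset.mem_univ _, hP₀⟩))
      have := norm_pos_iff.2 hL₀
      positivity
    have hL : L P a' ≠ 0 := by
      intro h0
      rw [h0, norm_zero, mul_zero] at hpos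
      exact lt_irrefl _ hpos
    obtain ⟨P₂, hx₂, he⟩ := step P hPm.2 hL
    have h3 := hPmax P₂ (by rw [Finset.mem_filter]; exact ⟨Finset.mem_univ _, hx₂⟩)
    have h4 : (2 : ℝ) ^ h a' < 2 ^ h a := pow_lt_pow_right₀ one_lt_two hh
    have h5 : (0 : ℝ) < 2 ^ h a' := by positivity
    nlinarith
  refine ⟨first, fun P' hP' => ?_⟩
  have h1 := rz a a' hne (z P')
  rw [← hP', uz P' a] at h1
  have h3 : ∑ Q, (if x Q = a ∧ z Q = z P' then L Q (x P') * 2 ^ ex Q * 2 ^ ez Q else 0) = 0 := by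
    refine Finset.sum_eq_zero fun Q _ => ?_
    split_ifs with h4
    · rw [hP', first Q h4.1, zero_mul, zero_mul]
    · rfl
  rw [h3, add_zero] at h1
  rcases mul_eq_zero.1 h1 with h2 | h2
  · rcases mul_eq_zero.1 h2 with h3 | h3
    · exact h3
    · exact absurd h3 (two_ne _)
  · exact absurd h2 (two_ne _)

/-- coordinates -/
abbrev T5 (q₁ q₂ q₃ : ℕ) := Fin q₁ ⊕ Fin q₂ ⊕ Fin q₃

/-- points -/
abbrev I5 (q₁ q₂ q₃ : ℕ) := (Fin q₂ × Fin q₃) ⊕ Fin q₁ ⊕ Fin q₂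

section
variable {q₁ q₂ q₃ : ℕ}

/-- the coordinate `a_i` -/
abbrev ca (i : Fin q₁) : T5 q₁ q₂ q₃ := Sum.inl i
/-- the coordinate `b_j` -/
abbrev cb (j : Fin q₂) : T5 q₁ q₂ q₃ := Sum.inr (Sum.inl j)
/-- the coordinate `c_k` -/
abbrev cd (k : Fin q₃) : T5 q₁ q₂ q₃ := Sum.inr (Sum.inr k)

/-- the points -/
def P5 (f : Fin q₂ × Fin q₃ → Fin q₁) : I5 q₁ q₂ q₃ → T5 q₁ q₂ q₃ → ℂ
  | Sum.inl P, Sum.inl i' => if f P = i' then 1 else 0
  | Sum.inl P, Sum.inr (Sum.inl j') => if P.1 = j' then 2 ^ (P.2 : ℕ) else 0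
  | Sum.inl P, Sum.inr (Sum.inr k') => if P.2 = k' then 2 ^ ((f P : ℕ) + (P.1 : ℕ)) else 0
  | Sum.inr (Sum.inl i), Sum.inl i' => if i = i' then 1 else 0
  | Sum.inr (Sum.inr j), Sum.inr (Sum.inl j') => if j = j' then 1 else 0
  | _, _ => 0

variable (f : Fin q₂ × Fin q₃ → Fin q₁) (Λ : I5 q₁ q₂ q₃ → T5 q₁ q₂ q₃ → ℂ)

/-- the term of a block -/
def bt (u v w : T5 q₁ q₂ q₃) (P : Fin q₂ × Fin q₃) : ℂ :=
  Λ (Sum.inl P) u * P5 f (Sum.inl P) v * P5 f (Sum.inl P) w +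
    Λ (Sum.inl P) v * P5 f (Sum.inl P) u * P5 f (Sum.inl P) w +
    Λ (Sum.inl P) w * P5 f (Sum.inl P) u * P5 f (Sum.inl P) v

theorem rel5 (h : Rel (P5 f) Λ) (u v w : T5 q₁ q₂ q₃) :
    ∑ P, bt f Λ u v w P +
    ((∑ i : Fin q₁, (Λ (Sum.inr (Sum.inl i)) u * P5 f (Sum.inr (Sum.inl i)) v *
      P5 f (Sum.inr (Sum.inl i)) w + Λ (Sum.inr (Sum.inl i)) v * P5 f (Sum.inr (Sum.inl i)) u *
      P5 f (Sum.inr (Sum.inl i)) w + Λ (Sum.inr (Sum.inl i)) w * P5 f (Sum.inr (Sum.inl i)) u *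
      P5 f (Sum.inr (Sum.inl i)) v)) +
    ∑ j : Fin q₂, (Λ (Sum.inr (Sum.inr j)) u * P5 f (Sum.inr (Sum.inr j)) v *
      P5 f (Sum.inr (Sum.inr j)) w + Λ (Sum.inr (Sum.inr j)) v * P5 f (Sum.inr (Sum.inr j)) u *
      P5 f (Sum.inr (Sum.inr j)) w + Λ (Sum.inr (Sum.inr j)) w * P5 f (Sum.inr (Sum.inr j)) u *
      P5 f (Sum.inr (Sum.inr j)) v)) = 0 := by
  have h1 := h u v w
  rw [Fintype.sum_sum_type, Fintype.sum_sum_type] at h1
  exact h1

/-- `a a' b` -/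
theorem R_aab (h : Rel (P5 f) Λ) (a a' : Fin q₁) (hne : a ≠ a') (c : Fin q₂) :
    ∑ P, bt f Λ (ca a) (ca a') (cb c) P = 0 := by
  have h1 := rel5 f Λ h (ca a) (ca a') (cb c)
  simpa [P5, Finset.sum_add_distrib, hne, Ne.symm hne] using h1

/-- `a a' c` -/
theorem R_aac (h : Rel (P5 f) Λ) (a a' : Fin q₁) (hne : a ≠ a') (c : Fin q₃) :
    ∑ P, bt f Λ (ca a) (ca a') (cd c) P = 0 := by
  have h1 := rel5 f Λ h (ca a) (ca a') (cd c)
  simpa [P5, Finset.sum_add_distrib, hne, Ne.symm hne] using h1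

/-- `b b' a` -/
theorem R_bba (h : Rel (P5 f) Λ) (a a' : Fin q₂) (hne : a ≠ a') (c : Fin q₁) :
    ∑ P, bt f Λ (cb a) (cb a') (ca c) P = 0 := by
  have h1 := rel5 f Λ h (cb a) (cb a') (ca c)
  simpa [P5, Finset.sum_add_distrib, hne, Ne.symm hne] using h1

/-- `b b' c` -/
theorem R_bbc (h : Rel (P5 f) Λ) (a a' : Fin q₂) (hne : a ≠ a') (c : Fin q₃) :
    ∑ P, bt f Λ (cb a) (cb a') (cd c) P = 0 := by
  have h1 := rel5 f Λ h (cb a) (cb a') (cd c)
  simpa [P5, Finset.sum_add_distrib, hne, Ne.symm hne] using h1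

/-- `c c' v` -/
theorem R_cc (h : Rel (P5 f) Λ) (a a' : Fin q₃) (v : T5 q₁ q₂ q₃) :
    ∑ P, bt f Λ (cd a) (cd a') v P = 0 := by
  have h1 := rel5 f Λ h (cd a) (cd a') v
  simpa [P5] using h1

/-- `a b c` -/
theorem R_abc (h : Rel (P5 f) Λ) (a : Fin q₁) (b : Fin q₂) (c : Fin q₃) :
    ∑ P, bt f Λ (ca a) (cb b) (cd c) P = 0 := by
  have h1 := rel5 f Λ h (ca a) (cb b) (cd c)
  simpa [P5] using h1

/-- rewriting a sum of block terms as two sums -/
theorem two_sums (u v w : T5 q₁ q₂ q₃) (p p' : Fin q₂ × Fin q₃ → Prop) [DecidablePred p]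
    [DecidablePred p'] (A A' : Fin q₂ × Fin q₃ → ℂ)
    (h : ∑ P, bt f Λ u v w P = 0)
    (he : ∀ P, bt f Λ u v w P = (if p P then A P else 0) + (if p' P then A' P else 0)) :
    ∑ P, (if p P then A P else 0) + ∑ P, (if p' P then A' P else 0) = 0 := by
  rw [← Finset.sum_add_distrib]
  refine Eq.trans (Finset.sum_congr rfl fun P _ => (he P).symm) h

variable (hf1 : ∀ P Q : Fin q₂ × Fin q₃, f P = f Q → P.1 = Q.1 → P = Q)
  (hf2 : ∀ P Q : Fin q₂ × Fin q₃, f P = f Q → P.2 = Q.2 → P = Q)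

include hf1 hf2

/-- pairs `a a'` -/
theorem A_off (h : Rel (P5 f) Λ) (a : Fin q₁) (P : Fin q₂ × Fin q₃) (hne : a ≠ f P) :
    Λ (Sum.inl P) (ca a) = 0 := by
  have key := fun (a a' : Fin q₁) (hh : (a' : ℕ) < a) => walk f Prod.fst Prod.snd (fun _ => 0)
    (fun P => (P.2 : ℕ)) (fun P => (f P : ℕ) + (P.1 : ℕ)) (fun P => (P.1 : ℕ) + (P.2 : ℕ))
    (fun i : Fin q₁ => (i : ℕ)) (fun P a => Λ (Sum.inl P) (ca a)) hf1 hf2 (fun a a' hne c => ?_)
    (fun a a' hne c => ?_) (fun P P' P₂ h1 h2 h3 => ?_) a a' hh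
  · rcases lt_or_gt_of_ne (fun h' => hne (Fin.ext h') : (a : ℕ) ≠ (f P : ℕ)) with h1 | h1
    · exact (key (f P) a h1).1 P rfl
    · exact (key a (f P) h1).2 P rfl
  · refine two_sums f Λ (ca a) (ca a') (cd c) _ _ _ _ (R_aac f Λ h a a' hne c) fun P => ?_
    simp only [bt, P5]
    have e4 : ¬ (f P = a ∧ f P = a') := fun h' => hne (h'.1.symm.trans h'.2)
    by_cases e1 : P.2 = c <;> by_cases e2 : f P = a <;> by_cases e3 : f P = a' <;>
      simp only [e1, e2, e3, hne, Ne.symm hne, if_true, if_false, mul_zero, mul_one, zero_mul,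
        add_zero, zero_add, and_true, and_false, pow_zero, and_self] at e4 ⊢
  · refine two_sums f Λ (ca a) (ca a') (cb c) _ _ _ _ (R_aab f Λ h a a' hne c) fun P => ?_
    simp only [bt, P5]
    have e4 : ¬ (f P = a ∧ f P = a') := fun h' => hne (h'.1.symm.trans h'.2)
    by_cases e1 : P.1 = c <;> by_cases e2 : f P = a <;> by_cases e3 : f P = a' <;>
      simp only [e1, e2, e3, hne, Ne.symm hne, if_true, if_false, mul_zero, mul_one, zero_mul,
        add_zero, zero_add, and_true, and_false, pow_zero, and_self] at e4 ⊢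
  · rw [h1, h2, h3]
    omega

/-- pairs `b b'` -/
theorem B_off (h : Rel (P5 f) Λ) (a : Fin q₂) (P : Fin q₂ × Fin q₃) (hne : a ≠ P.1) :
    Λ (Sum.inl P) (cb a) = 0 := by
  have key := fun (a a' : Fin q₂) (hh : (a' : ℕ) < a) => walk Prod.fst f Prod.snd
    (fun P => (P.2 : ℕ)) (fun _ => 0) (fun P => (f P : ℕ) + (P.1 : ℕ))
    (fun P => (P.2 : ℕ) + (f P : ℕ)) (fun i : Fin q₂ => (i : ℕ))
    (fun P a => Λ (Sum.inl P) (cb a)) (fun P Q h1 h2 => hf1 P Q h2 h1)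
    (fun P Q h1 h2 => Prod.ext h1 h2) (fun a a' hne c => ?_)
    (fun a a' hne c => ?_) (fun P P' P₂ h1 h2 h3 => ?_) a a' hh
  · rcases lt_or_gt_of_ne (fun h' => hne (Fin.ext h') : (a : ℕ) ≠ (P.1 : ℕ)) with h1 | h1
    · exact (key P.1 a h1).1 P rfl
    · exact (key a P.1 h1).2 P rfl
  · refine two_sums f Λ (cb a) (cb a') (cd c) _ _ _ _ (R_bbc f Λ h a a' hne c) fun P => ?_
    simp only [bt, P5]
    have e4 : ¬ (P.1 = a ∧ P.1 = a') := fun h' => hne (h'.1.symm.trans h'.2)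
    by_cases e1 : P.2 = c <;> by_cases e2 : P.1 = a <;> by_cases e3 : P.1 = a' <;>
      simp only [e1, e2, e3, hne, Ne.symm hne, if_true, if_false, mul_zero, mul_one, zero_mul,
        add_zero, zero_add, and_true, and_false, pow_zero, and_self] at e4 ⊢
  · refine two_sums f Λ (cb a) (cb a') (ca c) _ _ _ _ (R_bba f Λ h a a' hne c) fun P => ?_
    simp only [bt, P5]
    have e4 : ¬ (P.1 = a ∧ P.1 = a') := fun h' => hne (h'.1.symm.trans h'.2)
    by_cases e1 : f P = c <;> by_cases e2 : P.1 = a <;> by_cases e3 : P.1 = a' <;>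
      simp only [e1, e2, e3, hne, Ne.symm hne, if_true, if_false, mul_zero, mul_one, zero_mul,
        add_zero, zero_add, and_true, and_false, pow_zero, and_self] at e4 ⊢
  · rw [h1, h2, h3]
    omega

/-- pairs `c c'` -/
theorem C_off (h : Rel (P5 f) Λ) (a : Fin q₃) (P : Fin q₂ × Fin q₃) (hne : a ≠ P.2) :
    Λ (Sum.inl P) (cd a) = 0 := by
  have key := fun (a a' : Fin q₃) (hh : (a' : ℕ) < a) => walk Prod.snd f Prod.fst
    (fun P => (f P : ℕ) + (P.1 : ℕ)) (fun _ => 0) (fun P => (P.2 : ℕ))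
    (fun P => (f P : ℕ) + (P.1 : ℕ)) (fun i : Fin q₃ => (i : ℕ))
    (fun P a => Λ (Sum.inl P) (cd a)) (fun P Q h1 h2 => hf2 P Q h2 h1)
    (fun P Q h1 h2 => Prod.ext h2 h1) (fun a a' hne c => ?_)
    (fun a a' hne c => ?_) (fun P P' P₂ h1 h2 h3 => ?_) a a' hh
  · rcases lt_or_gt_of_ne (fun h' => hne (Fin.ext h') : (a : ℕ) ≠ (P.2 : ℕ)) with h1 | h1
    · exact (key P.2 a h1).1 P rfl
    · exact (key a P.2 h1).2 P rfl
  · refine two_sums f Λ (cd a) (cd a') (cb c) _ _ _ _ (R_cc f Λ h a a' (cb c)) fun P => ?_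
    simp only [bt, P5]
    have e4 : ¬ (P.2 = a ∧ P.2 = a') := fun h' => hne (h'.1.symm.trans h'.2)
    by_cases e1 : P.1 = c <;> by_cases e2 : P.2 = a <;> by_cases e3 : P.2 = a' <;>
      simp only [e1, e2, e3, hne, Ne.symm hne, if_true, if_false, mul_zero, mul_one, zero_mul,
        add_zero, zero_add, and_true, and_false, pow_zero, and_self] at e4 ⊢
  · refine two_sums f Λ (cd a) (cd a') (ca c) _ _ _ _ (R_cc f Λ h a a' (ca c)) fun P => ?_
    simp only [bt, P5]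
    have e4 : ¬ (P.2 = a ∧ P.2 = a') := fun h' => hne (h'.1.symm.trans h'.2)
    by_cases e1 : f P = c <;> by_cases e2 : P.2 = a <;> by_cases e3 : P.2 = a' <;>
      simp only [e1, e2, e3, hne, Ne.symm hne, if_true, if_false, mul_zero, mul_one, zero_mul,
        add_zero, zero_add, and_true, and_false, pow_zero, and_self] at e4 ⊢
  · rw [h1, h2]
    omega

/-- the block monomials -/
theorem block (h : Rel (P5 f) Λ) (P : Fin q₂ × Fin q₃) :
    Λ (Sum.inl P) (ca (f P)) = 0 ∧ Λ (Sum.inl P) (cb P.1) = 0 ∧ Λ (Sum.inl P) (cd P.2) = 0 := by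
  have hβ : (2 : ℂ) ^ (P.2 : ℕ) ≠ 0 := pow_ne_zero _ two_ne_zero
  have hγ : (2 : ℂ) ^ ((f P : ℕ) + (P.1 : ℕ)) ≠ 0 := pow_ne_zero _ two_ne_zero
  have e1 := R_abc f Λ h (f P) P.1 P.2
  have e2 := R_cc f Λ h P.2 P.2 (ca (f P))
  have e3 := R_cc f Λ h P.2 P.2 (cb P.1)
  rw [Finset.sum_eq_single P] at e1 e2 e3
  rotate_left
  · intro Q _ hQ
    simp only [bt, P5]
    by_cases a2 : Q.2 = P.2
    · by_cases a1 : Q.1 = P.1
      · exact absurd (Prod.ext a1 a2) hQ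
      · have h0 := B_off f Λ hf1 hf2 h P.1 Q (Ne.symm a1)
        have h1 : Λ (Sum.inl Q) (Sum.inr (Sum.inl P.1)) = 0 := h0
        rw [if_neg a1, h1]
        ring
    · rw [if_neg a2]
      ring
  · intro h'
    exact absurd (Finset.mem_univ P) h'
  · intro Q _ hQ
    simp only [bt, P5]
    by_cases a2 : Q.2 = P.2
    · by_cases a1 : f Q = f P
      · exact absurd (hf2 Q P a1 a2) hQ
      · have h0 := A_off f Λ hf1 hf2 h (f P) Q (Ne.symm a1)
        have h1 : Λ (Sum.inl Q) (Sum.inl (f P)) = 0 := h0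
        rw [if_neg a1, h1]
        ring
    · rw [if_neg a2]
      ring
  · intro h'
    exact absurd (Finset.mem_univ P) h'
  · intro Q _ hQ
    simp only [bt, P5]
    by_cases a2 : Q.2 = P.2
    · by_cases a1 : Q.1 = P.1
      · exact absurd (Prod.ext a1 a2) hQ
      · by_cases a3 : f Q = f P
        · exact absurd (hf2 Q P a3 a2) hQ
        · rw [if_neg a1, if_neg a3]
          ring
    · by_cases a1 : Q.1 = P.1
      · by_cases a3 : f Q = f P
        · exact absurd (hf1 Q P a3 a1) hQ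
        · rw [if_neg a2, if_neg a3]
          ring
      · rw [if_neg a1, if_neg a2]
        ring
  · intro h'
    exact absurd (Finset.mem_univ P) h'
  simp only [bt, P5, if_true] at e1 e2 e3
  generalize (2 : ℂ) ^ (P.2 : ℕ) = β at *
  generalize (2 : ℂ) ^ ((f P : ℕ) + (P.1 : ℕ)) = γ at *
  have hc : Λ (Sum.inl P) (cd P.2) = 0 := by
    have e4 : γ * β * (-3 * Λ (Sum.inl P) (cd P.2)) = 0 := by
      linear_combination γ * e1 - β * e2 - e3
    rcases mul_eq_zero.1 e4 with h1 | h1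
    · rcases mul_eq_zero.1 h1 with h2 | h2
      · exact absurd h2 hγ
      · exact absurd h2 hβ
    · rcases mul_eq_zero.1 h1 with h2 | h2
      · norm_num at h2
      · exact h2
  have hc' : Λ (Sum.inl P) (Sum.inr (Sum.inr P.2)) = 0 := hc
  refine ⟨?_, ?_, hc⟩
  · rw [hc'] at e2
    have e4 : γ * γ * Λ (Sum.inl P) (ca (f P)) = 0 := by linear_combination e2
    rcases mul_eq_zero.1 e4 with h1 | h1
    · exact absurd (mul_self_eq_zero.1 h1) hγ
    · exact h1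
  · rw [hc'] at e3
    have e4 : γ * γ * Λ (Sum.inl P) (cb P.1) = 0 := by linear_combination e3
    rcases mul_eq_zero.1 e4 with h1 | h1
    · exact absurd (mul_self_eq_zero.1 h1) hγ
    · exact h1

theorem blocks_zero (h : Rel (P5 f) Λ) (P : Fin q₂ × Fin q₃) (v : T5 q₁ q₂ q₃) :
    Λ (Sum.inl P) v = 0 := by
  obtain ⟨ha, hb, hc⟩ := block f Λ hf1 hf2 h P
  rcases v with a | b | c
  · by_cases e : a = f P
    · rw [e]; exact ha
    · exact A_off f Λ hf1 hf2 h a P e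
  · by_cases e : b = P.1
    · rw [e]; exact hb
    · exact B_off f Λ hf1 hf2 h b P e
  · by_cases e : c = P.2
    · rw [e]; exact hc
    · exact C_off f Λ hf1 hf2 h c P e

theorem all_zero (h : Rel (P5 f) Λ) (i : I5 q₁ q₂ q₃) (v : T5 q₁ q₂ q₃) : Λ i v = 0 := by
  rcases i with P | i | j
  · exact blocks_zero f Λ hf1 hf2 h P v
  · have h1 := rel5 f Λ h (ca i) (ca i) v
    simp only [bt, blocks_zero f Λ hf1 hf2 h, zero_mul, add_zero, Finset.sum_const_zero,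
      zero_add] at h1
    rcases v with a | b | c
    · by_cases hb : i = a
      · rw [← hb] at h1 ⊢
        simp [P5, Finset.sum_add_distrib] at h1
        have h2 : (3 : ℂ) * Λ (Sum.inr (Sum.inl i)) (Sum.inl i) = 0 := by
          linear_combination h1
        rcases mul_eq_zero.1 h2 with h3 | h3
        · norm_num at h3
        · exact h3
      · simpa [P5, Finset.sum_add_distrib, hb, Ne.symm hb] using h1
    · simpa [P5] using h1
    · simpa [P5] using h1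
  · have h1 := rel5 f Λ h (cb j) (cb j) v
    simp only [bt, blocks_zero f Λ hf1 hf2 h, zero_mul, add_zero, Finset.sum_const_zero,
      zero_add] at h1
    rcases v with a | b | c
    · simpa [P5] using h1
    · by_cases hb : j = b
      · rw [← hb] at h1 ⊢
        simp [P5, Finset.sum_add_distrib] at h1
        have h2 : (3 : ℂ) * Λ (Sum.inr (Sum.inr j)) (Sum.inr (Sum.inl j)) = 0 := by
          linear_combination h1
        rcases mul_eq_zero.1 h2 with h3 | h3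
        · norm_num at h3
        · exact h3
      · simpa [P5, Finset.sum_add_distrib, hb, Ne.symm hb] using h1
    · simpa [P5] using h1

omit hf1 hf2 in
theorem sum_P5 (i : I5 q₁ q₂ q₃) : ∑ v, P5 f i v ≠ 0 := by
  rcases i with P | i | j
  · simp only [Fintype.sum_sum_type, P5, Finset.sum_ite_eq, Finset.mem_univ, if_true]
    have h1 : (1 : ℂ) + (2 ^ (P.2 : ℕ) + 2 ^ ((f P : ℕ) + (P.1 : ℕ))) =
        ((1 + (2 ^ (P.2 : ℕ) + 2 ^ ((f P : ℕ) + (P.1 : ℕ))) : ℕ) : ℂ) := by push_cast; rfl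
    rw [h1]
    exact Nat.cast_ne_zero.2 (by positivity)
  · simp [Fintype.sum_sum_type, P5]
  · simp [Fintype.sum_sum_type, P5]

end

/-- the general form -/
theorem cubic5 (q₁ q₂ q₃ n p : ℕ) (h12 : q₂ ≤ q₁) (h23 : q₃ ≤ q₂) (hn : n + 1 = q₁ + q₂ + q₃)
    (hp : p ≤ q₂ * q₃ + q₁ + q₂) : GG n 3 p := by
  let f : Fin q₂ × Fin q₃ → Fin q₁ := fun P => ⟨((P.1 : ℕ) + (P.2 : ℕ)) % q₁,
    Nat.mod_lt _ (lt_of_lt_of_le P.1.pos h12)⟩
  have hf1 : ∀ P Q : Fin q₂ × Fin q₃, f P = f Q → P.1 = Q.1 → P = Q := by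
    intro P Q h1 h2
    refine Prod.ext h2 ?_
    have h3 : ((P.1 : ℕ) + (P.2 : ℕ)) % q₁ = ((Q.1 : ℕ) + (Q.2 : ℕ)) % q₁ :=
      congrArg Fin.val h1
    rw [h2] at h3
    have h4 : (P.2 : ℕ) ≡ (Q.2 : ℕ) [MOD q₁] := Nat.ModEq.add_left_cancel' _ h3
    exact Fin.ext (Nat.ModEq.eq_of_lt_of_lt h4
      (lt_of_lt_of_le P.2.2 (h23.trans h12)) (lt_of_lt_of_le Q.2.2 (h23.trans h12)))
  have hf2 : ∀ P Q : Fin q₂ × Fin q₃, f P = f Q → P.2 = Q.2 → P = Q := by
    intro P Q h1 h2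
    refine Prod.ext ?_ h2
    have h3 : ((P.1 : ℕ) + (P.2 : ℕ)) % q₁ = ((Q.1 : ℕ) + (Q.2 : ℕ)) % q₁ :=
      congrArg Fin.val h1
    rw [h2] at h3
    have h4 : (P.1 : ℕ) ≡ (Q.1 : ℕ) [MOD q₁] := Nat.ModEq.add_right_cancel' _ h3
    exact Fin.ext (Nat.ModEq.eq_of_lt_of_lt h4
      (lt_of_lt_of_le P.1.2 h12) (lt_of_lt_of_le Q.1.2 h12))
  refine gg_of_dual (T5 q₁ q₂ q₃) (I5 q₁ q₂ q₃) ?_ (P5 f) (sum_P5 f) (fun Λ h i v => ?_) ?_
  · simp only [Fintype.card_sum, Fintype.card_fin]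
    omega
  · exact all_zero f Λ hf1 hf2 h i v
  · simp only [Fintype.card_sum, Fintype.card_prod, Fintype.card_fin]
    omega

/-- **Cubics**, density `2/3`. -/
theorem CUB (n p : ℕ) (hp : 9 * p ≤ (n + 3) ^ 2) : GG n 3 p := by
  obtain ⟨k, r, hk, hr⟩ : ∃ k r, n = 3 * k + r ∧ r ≤ 2 := ⟨n / 3, n % 3, by omega, by omega⟩
  subst hk
  interval_cases r
  · refine cubic5 (k + 1) k k _ p (by omega) le_rfl (by ring) ?_
    have h1 : 9 * p ≤ 9 * ((k + 1) * (k + 1)) := by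
      refine hp.trans (le_of_eq ?_)
      ring
    have h2 := Nat.le_of_mul_le_mul_left h1 (by norm_num)
    refine h2.trans (le_of_eq ?_)
    ring
  · refine cubic5 (k + 1) (k + 1) k _ p le_rfl (by omega) (by ring) ?_
    have h1 : 9 * p ≤ 9 * ((k + 1) * k + (k + 1) + (k + 1)) := by
      refine hp.trans ?_
      nlinarith
    exact Nat.le_of_mul_le_mul_left h1 (by norm_num)
  · refine cubic5 (k + 1) (k + 1) (k + 1) _ p le_rfl le_rfl (by ring) ?_
    have h1 : 9 * p ≤ 9 * ((k + 1) * (k + 1) + (k + 1) + (k + 1)) := by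
      refine hp.trans ?_
      nlinarith
    exact Nat.le_of_mul_le_mul_left h1 (by norm_num)

end Pool.Agent.War5
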