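import Pool.Agent.War5.Stmts

/-!
# Simultaneous Waring decompositions: one more double point   (helper82)
-/

set_option autoImplicit false

open Module MvPolynomial
open Pool.Agent.War Pool.Agent.WarS

namespace Pool.Agent.War5

namespace DRaux

/-- restriction to the line `x + t v` -/
noncomputable def ln {n : ℕ} (x v : Fin n → ℂ) : MvPolynomial (Fin n) ℂ →ₐ[ℂ] Polynomial ℂ :=
  aeval fun i => Polynomial.C (x i) + Polynomial.C (v i) * Polynomial.X

theorem ln_X {n : ℕ} (x v : Fin n → ℂ) (j : Fin n) :
    ln x v (X j) = Polynomial.C (x j) + Polynomial.C (v j) * Polynomial.X := by simp [ln]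

theorem ln_C {n : ℕ} (x v : Fin n → ℂ) (a : ℂ) : ln x v (C a) = Polynomial.C a := by
  simp [ln]

theorem ln_eval {n : ℕ} (x v : Fin n → ℂ) (f : MvPolynomial (Fin n) ℂ) (t : ℂ) :
    (ln x v f).eval t = eval (fun i => x i + v i * t) f := by
  induction f using MvPolynomial.induction_on with
  | C a => rw [ln_C]; simp
  | add p q hp hq => simp [hp, hq]
  | mul_X p j hp =>
    rw [map_mul, Polynomial.eval_mul, hp, ln_X, map_mul]
    simp

theorem ln_deriv {n : ℕ} (x v : Fin n → ℂ) (f : MvPolynomial (Fin n) ℂ) :
    Polynomial.derivative (ln x v f) = ∑ k, Polynomial.C (v k) * ln x v (pderiv k f) := by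
  induction f using MvPolynomial.induction_on with
  | C a => rw [ln_C]; simp
  | add p q hp hq => simp only [map_add, hp, hq, mul_add, Finset.sum_add_distrib]
  | mul_X p j hp =>
    have h1 : Polynomial.derivative (ln x v (X j)) = Polynomial.C (v j) := by
      rw [ln_X]; simp
    have h2 : ∀ k, Polynomial.C (v k) * ln x v (pderiv k (p * X j)) =
        Polynomial.C (v k) * ln x v (pderiv k p) * ln x v (X j) +
          (if k = j then Polynomial.C (v j) * ln x v p else 0) := by
      intro k
      rw [pderiv_mul, map_add, map_mul, map_mul]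
      by_cases hkj : k = j
      · subst hkj
        rw [pderiv_X_self, map_one, if_pos rfl]
        ring
      · rw [pderiv_X_of_ne (Ne.symm hkj), map_zero, if_neg hkj]
        ring
    rw [map_mul, Polynomial.derivative_mul, hp, h1, Finset.sum_congr rfl fun k _ => h2 k,
      Finset.sum_add_distrib, ← Finset.sum_mul, Finset.sum_ite_eq' Finset.univ j,
      if_pos (Finset.mem_univ j)]
    ring

/-- one variable -/
theorem poly_zero (H G : Polynomial ℂ) (h0 : H.eval 0 = 0) (g0 : G.eval 0 ≠ 0)
    (e : G * Polynomial.derivative H = H * Polynomial.derivative G) : H = 0 := by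
  by_contra hne
  obtain ⟨q, hq1, hq2⟩ := Polynomial.exists_eq_pow_rootMultiplicity_mul_and_not_dvd H hne 0
  have hm : 0 < H.rootMultiplicity 0 := (Polynomial.rootMultiplicity_pos hne).2 h0
  obtain ⟨m, hm'⟩ : ∃ m, H.rootMultiplicity 0 = m + 1 := ⟨H.rootMultiplicity 0 - 1, by omega⟩
  rw [hm'] at hq1
  rw [Polynomial.C_0, sub_zero] at hq1 hq2
  have q0 : q.eval 0 ≠ 0 := by
    intro h
    apply hq2
    rw [Polynomial.X_dvd_iff, Polynomial.coeff_zero_eq_eval_zero]
    exact h
  have hd : Polynomial.derivative H = Polynomial.X ^ m *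
      (((m : Polynomial ℂ) + 1) * q + Polynomial.X * Polynomial.derivative q) := by
    rw [hq1, Polynomial.derivative_mul, Polynomial.derivative_X_pow]
    simp only [Nat.add_sub_cancel, map_natCast]
    push_cast
    ring
  have e2 : Polynomial.X ^ m * (G * (((m : Polynomial ℂ) + 1) * q +
      Polynomial.X * Polynomial.derivative q)) =
      Polynomial.X ^ m * (Polynomial.X * q * Polynomial.derivative G) := by
    calc Polynomial.X ^ m * (G * (((m : Polynomial ℂ) + 1) * q +
        Polynomial.X * Polynomial.derivative q)) = G * Polynomial.derivative H := by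
          rw [hd]; ring
      _ = H * Polynomial.derivative G := e
      _ = _ := by rw [hq1]; ring
  have e3 := mul_left_cancel₀ (pow_ne_zero m Polynomial.X_ne_zero) e2
  have e4 := congrArg (Polynomial.eval 0) e3
  simp only [Polynomial.eval_mul, Polynomial.eval_add, Polynomial.eval_X, zero_mul, add_zero,
    Polynomial.eval_natCast, Polynomial.eval_one] at e4
  have hm1 : (m : ℂ) + 1 ≠ 0 := Nat.cast_add_one_ne_zero m
  exact mul_ne_zero g0 (mul_ne_zero hm1 q0) e4

theorem prop_zero {n : ℕ} (h g : MvPolynomial (Fin n) ℂ) (x : Fin n → ℂ) (hx : eval x h = 0)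
    (gx : eval x g ≠ 0) (H : ∀ k, g * pderiv k h = h * pderiv k g) : h = 0 := by
  refine MvPolynomial.funext fun y => ?_
  have e1 : ln x (fun i => y i - x i) g * Polynomial.derivative (ln x (fun i => y i - x i) h) =
      ln x (fun i => y i - x i) h * Polynomial.derivative (ln x (fun i => y i - x i) g) := by
    rw [ln_deriv, ln_deriv, Finset.mul_sum, Finset.mul_sum]
    apply Finset.sum_congr rfl
    intro k _
    have h1 := congrArg (ln x fun i => y i - x i) (H k)
    rw [map_mul, map_mul] at h1
    linear_combination Polynomial.C (y k - x k) * h1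
  have h2 := poly_zero _ _ (by rw [ln_eval]; simpa using hx) (by rw [ln_eval]; simpa using gx) e1
  have h3 := congrArg (Polynomial.eval 1) h2
  rw [ln_eval] at h3
  simpa using h3

/-- the conditions at one point -/
def one (n d : ℕ) (x : Fin n → ℂ) : Submodule ℂ (Pol n d) :=
  Dbl n d Finset.univ (fun _ : Unit => x)

theorem dbl_snoc {n d p : ℕ} (z : Fin p → Fin n → ℂ) (x : Fin n → ℂ) :
    Dbl n d Finset.univ (Fin.snoc z x : Fin (p + 1) → Fin n → ℂ) ≤
      Dbl n d Finset.univ z ⊓ one n d x := by
  rintro f ⟨h1, h2⟩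
  refine ⟨⟨fun i => ?_, fun i _ k => ?_⟩, ⟨fun _ => ?_, fun _ _ k => ?_⟩⟩
  · have := h1 i.castSucc
    rwa [Fin.snoc_castSucc] at this
  · have := h2 i.castSucc (Finset.mem_univ _) k
    rwa [Fin.snoc_castSucc] at this
  · have := h1 (Fin.last p)
    rwa [Fin.snoc_last] at this
  · have := h2 (Fin.last p) (Finset.mem_univ _) k
    rwa [Fin.snoc_last] at this

theorem key {n d : ℕ} (W : Submodule ℂ (Pol n d)) :
    ∃ x : Fin n → ℂ, finrank ℂ ↥(W ⊓ one n d x) ≤ finrank ℂ W - 2 := by
  by_cases hW : W = ⊥
  · subst hW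
    exact ⟨0, by simp⟩
  obtain ⟨g, hgW, hg0⟩ := (Submodule.ne_bot_iff W).1 hW
  have hg0' : (g : MvPolynomial (Fin n) ℂ) ≠ 0 := fun h => hg0 (Subtype.ext h)
  obtain ⟨x₀, hx₀⟩ : ∃ x, eval x (g : MvPolynomial (Fin n) ℂ) ≠ 0 := by
    by_contra hc
    push Not at hc
    exact hg0' (MvPolynomial.funext fun x => by rw [hc x, map_zero])
  by_cases h2 : ∃ f ∈ W, f ∉ Submodule.span ℂ {g}
  · obtain ⟨f, hfW, hf⟩ := h2
    obtain ⟨x, k, hxk⟩ : ∃ x k, eval x (g : MvPolynomial (Fin n) ℂ) *
        eval x (pderiv k (f : MvPolynomial (Fin n) ℂ)) -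
        eval x (f : MvPolynomial (Fin n) ℂ) * eval x (pderiv k (g : MvPolynomial (Fin n) ℂ)) ≠ 0 := by
      by_contra hc
      push Not at hc
      apply hf
      set c : ℂ := eval x₀ (f : MvPolynomial (Fin n) ℂ) / eval x₀ (g : MvPolynomial (Fin n) ℂ)
        with hcdef
      have h3 : (f : MvPolynomial (Fin n) ℂ) - C c * (g : MvPolynomial (Fin n) ℂ) = 0 := by
        refine prop_zero _ (g : MvPolynomial (Fin n) ℂ) x₀ ?_ hx₀ fun k => ?_
        · rw [map_sub, map_mul, eval_C, hcdef, div_mul_cancel₀ _ hx₀, sub_self]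
        · refine MvPolynomial.funext fun y => ?_
          have h4 := hc y k
          rw [map_sub, pderiv_C_mul]
          simp only [map_mul, map_sub, eval_C]
          linear_combination h4
      rw [Submodule.mem_span_singleton]
      refine ⟨c, Subtype.ext ?_⟩
      rw [Submodule.coe_smul, MvPolynomial.smul_eq_C_mul]
      exact (sub_eq_zero.1 h3).symm
    refine ⟨x, ?_⟩
    have hdis : Disjoint (W ⊓ one n d x) (Submodule.span ℂ (Set.range ![f, g])) := by
      rw [Submodule.disjoint_def]
      intro u hu1 hu2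
      rw [Matrix.range_cons, Matrix.range_cons, Matrix.range_empty, Set.union_empty,
        Set.singleton_union, Submodule.mem_span_pair] at hu2
      obtain ⟨a, b, hab⟩ := hu2
      have h5 := hu1.2.1 ()
      have h6 := hu1.2.2 () (Finset.mem_univ _) k
      rw [← hab] at h5 h6
      simp only [Submodule.coe_add, Submodule.coe_smul, map_add, Derivation.map_smul,
        smul_eval] at h5 h6
      have ha : a = 0 := by
        have : a * (eval x (g : MvPolynomial (Fin n) ℂ) *
          eval x (pderiv k (f : MvPolynomial (Fin n) ℂ)) -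
          eval x (f : MvPolynomial (Fin n) ℂ) *
          eval x (pderiv k (g : MvPolynomial (Fin n) ℂ))) = 0 := by
          linear_combination eval x (g : MvPolynomial (Fin n) ℂ) * h6 -
            eval x (pderiv k (g : MvPolynomial (Fin n) ℂ)) * h5
        exact (mul_eq_zero.1 this).resolve_right hxk
      have hb : b = 0 := by
        have : b * (eval x (g : MvPolynomial (Fin n) ℂ) *
          eval x (pderiv k (f : MvPolynomial (Fin n) ℂ)) -
          eval x (f : MvPolynomial (Fin n) ℂ) *
          eval x (pderiv k (g : MvPolynomial (Fin n) ℂ))) = 0 := by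
          linear_combination eval x (pderiv k (f : MvPolynomial (Fin n) ℂ)) * h5 -
            eval x (f : MvPolynomial (Fin n) ℂ) * h6
        exact (mul_eq_zero.1 this).resolve_right hxk
      rw [← hab, ha, hb, zero_smul, zero_smul, add_zero]
    have hli : LinearIndependent ℂ ![f, g] := by
      rw [LinearIndependent.pair_iff]
      intro a b hab
      have h5 : eval x ((a • f + b • g : Pol n d) : MvPolynomial (Fin n) ℂ) = 0 := by
        rw [hab]; simp
      have h6 : eval x (pderiv k ((a • f + b • g : Pol n d) : MvPolynomial (Fin n) ℂ)) = 0 := by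
        rw [hab]; simp
      simp only [Submodule.coe_add, Submodule.coe_smul, map_add, Derivation.map_smul,
        smul_eval] at h5 h6
      constructor
      · have : a * (eval x (g : MvPolynomial (Fin n) ℂ) *
          eval x (pderiv k (f : MvPolynomial (Fin n) ℂ)) -
          eval x (f : MvPolynomial (Fin n) ℂ) *
          eval x (pderiv k (g : MvPolynomial (Fin n) ℂ))) = 0 := by
          linear_combination eval x (g : MvPolynomial (Fin n) ℂ) * h6 -
            eval x (pderiv k (g : MvPolynomial (Fin n) ℂ)) * h5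
        exact (mul_eq_zero.1 this).resolve_right hxk
      · have : b * (eval x (g : MvPolynomial (Fin n) ℂ) *
          eval x (pderiv k (f : MvPolynomial (Fin n) ℂ)) -
          eval x (f : MvPolynomial (Fin n) ℂ) *
          eval x (pderiv k (g : MvPolynomial (Fin n) ℂ))) = 0 := by
          linear_combination eval x (pderiv k (f : MvPolynomial (Fin n) ℂ)) * h5 -
            eval x (f : MvPolynomial (Fin n) ℂ) * h6
        exact (mul_eq_zero.1 this).resolve_right hxk
    have h7 : finrank ℂ (Submodule.span ℂ (Set.range ![f, g])) = 2 := by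
      rw [finrank_span_eq_card hli]; simp
    have h8 := Submodule.finrank_sup_add_finrank_inf_eq (W ⊓ one n d x)
      (Submodule.span ℂ (Set.range ![f, g]))
    rw [disjoint_iff.1 hdis, finrank_bot, add_zero, h7] at h8
    have h9 : W ⊓ one n d x ⊔ Submodule.span ℂ (Set.range ![f, g]) ≤ W := by
      refine sup_le inf_le_left ?_
      rw [Submodule.span_le]
      rintro _ ⟨i, rfl⟩
      fin_cases i
      · exact hfW
      · exact hgW
    have h10 := Submodule.finrank_mono h9
    omega
  · push Not at h2
    refine ⟨x₀, ?_⟩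
    have h3 : W ⊓ one n d x₀ = ⊥ := by
      rw [Submodule.eq_bot_iff]
      rintro u ⟨hu1, hu2⟩
      obtain ⟨a, ha⟩ := Submodule.mem_span_singleton.1 (h2 u hu1)
      have h5 := hu2.1 ()
      rw [← ha] at h5
      simp only [Submodule.coe_smul, smul_eval] at h5
      have ha0 : a = 0 := (mul_eq_zero.1 h5).resolve_right hx₀
      rw [← ha, ha0, zero_smul]
    rw [h3, finrank_bot]
    exact Nat.zero_le _

end DRaux

theorem x_DR : S_DR := by
  intro n d p k _ hk
  obtain ⟨z, hz⟩ := hk
  obtain ⟨x, hx⟩ := DRaux.key (Dbl n d Finset.univ z)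
  refine ⟨Fin.snoc z x, ?_⟩
  have h1 := Submodule.finrank_mono (DRaux.dbl_snoc (d := d) z x)
  omega

end Pool.Agent.War5
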