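import Pool.Agent.War5.Stmts

/-!
# Simultaneous Waring decompositions (MP_db021c_ag), few forms, all degrees: assembly   (helper61)

Adapted from WarS/FEW.lean (helper88).
-/

set_option autoImplicit false

open Module MvPolynomial
open Pool.Agent.War Pool.Agent.WarS

namespace Pool.Agent.War5

namespace FEW5aux

theorem fib_sigma {s : ℕ} (p : Fin s → ℕ) (j : Fin s) :
    fib (fun i : (j : Fin s) × Fin (p j) => i.1) j = p j := by
  unfold fib
  have h : (Finset.univ.filter fun i : (j : Fin s) × Fin (p j) => i.1 = j) =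
      Finset.univ.image fun k : Fin (p j) => (⟨j, k⟩ : (j : Fin s) × Fin (p j)) := by
    ext ⟨i, k⟩
    simp only [Finset.mem_filter, Finset.mem_univ, true_and, Finset.mem_image]
    constructor
    · rintro rfl
      exact ⟨k, rfl⟩
    · rintro ⟨k', hk⟩
      have := congrArg Sigma.fst hk
      exact this.symm
  rw [h, Finset.card_image_of_injective]
  · simp
  · intro k k' hk
    simpa using hk

/-- the critical case, as a statement on the sum type of all points -/
theorem crit (hAG : S_AG) (hRES5 : S_RES5) (hTRA : S_TRA) (hDH : S_DH)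
    {n d r : ℕ} (hn : 1 ≤ n) (hd : 3 ≤ d) {h : ℕ} (hNum : Numb n d r h)
    (h1 : (r + 1) * NN (n + 1) (d + 2) ≤ (n + r + 2) * h) :
    ∃ (z : Fin h → Fin (n + 1) → ℂ) (a : Fin h → Fin (r + 1) → ℂ),
      ∀ f : Fin (r + 1) → MvPolynomial (Fin (n + 1)) ℂ, (∀ j, (f j).totalDegree ≤ d + 2) →
        (∀ i j, eval (z i) (f j) = 0) →
        (∀ i k, ∑ j, a i j * eval (z i) (pderiv k (f j)) = 0) → ∀ j, f j = 0 := by
  obtain ⟨u, y, p, e1, hu, hy, e2, c0, c00, c1, c2, c3⟩ := hNum
  let I := (j : Fin (r + 1)) × Fin (p j)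
  let π : I → Fin (r + 1) := fun i => i.1
  have hfib : ∀ j, fib π j = p j := fib_sigma p
  have hcard : Fintype.card I = ∑ j, p j := by
    rw [Fintype.card_sigma]
    simp
  set m := ∑ j, p j with hm
  -- double points
  have g2 : ∀ j, GG (n + 1) (d + 1) (fib π j) := fun j => by
    rw [hfib]
    exact hAG.1 (n + 1) (d + 1) (p j) (by omega) (by omega) (c0 j)
  have g4 : GG n (d + 2) u := hAG.1 n (d + 2) u hn (by omega) hu
  have q1 : ∃ u' ≤ fib π 0, GG n (d + 1) (u' + y) ∧ SWaux.A n d (fib π 0 - u') u' := by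
    rw [hfib]
    refine ⟨min (p 0) (gg n (d + 1) - y), min_le_left _ _, ?_, ?_⟩
    · refine hAG.1 n (d + 1) _ hn (by omega) ?_
      have := min_le_right (p 0) (gg n (d + 1) - y)
      omega
    · refine hAG.2 n d hn hd _ _ ?_ ?_
      · rcases le_total (p 0) (gg n (d + 1) - y) with hc | hc
        · rw [min_eq_left hc]
          omega
        · rw [min_eq_right hc]
          omega
      · exact (min_le_right _ _).trans (Nat.sub_le _ _)
  have q2 : ∀ j, ∃ q ≤ fib π j, GG (n + 1) d q ∧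
      NN (n + 1) d ≤ (n + 1) * q + Fintype.card I := by
    intro j
    obtain ⟨q, a1, a2, a3⟩ := c1 j
    rw [hfib, hcard]
    exact ⟨q, a1, hAG.1 (n + 1) d q (by omega) hd a2, a3⟩
  have hN := NN_succ n (d + 1)
  have key : (r + 1) * NN (n + 1) (d + 1) ≤
      (n + r + 2) * Fintype.card I + (n + 1) * y + u + r * u := by
    rw [hcard]
    rw [← e2, hN, e1] at h1
    nlinarith
  have R := hRES5 n d r u (r * u) y I π hn q1 q2 g2
    (by rw [hfib, hcard]; exact c2) (fun j => by rw [hfib, hcard]; exact c3 j) key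
  have T := hTRA n d r u y hn g4 (le_of_eq e1)
  have O : Gen ℂ fun z : I → Fin (n + 1) → ℂ => ∀ i, z i 0 ≠ 0 := gen_off
  have T' := T.comp (LinearMap.snd ℂ (I → Fin (n + 1) → ℂ) ((Fin u → Fin n → ℂ) ×
    (Fin (r * u) → Fin n → ℂ) × (Fin (r * u) → Fin (r + 1) → ℂ) × (Fin y → Fin n → ℂ)))
    Prod.snd_surjective
  have O' := O.comp (LinearMap.fst ℂ (I → Fin (n + 1) → ℂ) ((Fin u → Fin n → ℂ) ×
    (Fin (r * u) → Fin n → ℂ) × (Fin (r * u) → Fin (r + 1) → ℂ) × (Fin y → Fin n → ℂ)))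
    Prod.fst_surjective
  obtain ⟨⟨w, z1, z2, a, z0⟩, ⟨hR, hT⟩, hO⟩ := ((R.and T').and O').exists
  obtain ⟨t, ht⟩ := hDH n d r u (r * u) y I π w z1 z2 a z0 hO hT.1 hT.2 hR
  -- all points
  let α := I ⊕ (Fin u ⊕ (Fin (r * u) ⊕ Fin y))
  have hα : Fintype.card α = h := by
    simp only [α, Fintype.card_sum, Fintype.card_fin]
    rw [hcard, ← e2]
    ring
  let e : α ≃ Fin h := Fintype.equivFinOfCardEq hα
  let Z : α → Fin (n + 1) → ℂ := Sum.elim w (Sum.elim (fun i => hp (z1 i))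
    (Sum.elim (fun i => hp (z2 i)) (fun i => Fin.cons t (z0 i))))
  let A : α → Fin (r + 1) → ℂ := Sum.elim (fun i => Pi.single (π i) 1)
    (Sum.elim (fun _ => Pi.single 0 1) (Sum.elim a (fun _ => Pi.single 0 1)))
  have hs : ∀ (k : Fin (r + 1)) (g : Fin (r + 1) → ℂ),
      ∑ j, (Pi.single k 1 : Fin (r + 1) → ℂ) j * g j = g k := by
    intro k g
    rw [Finset.sum_eq_single k]
    · rw [Pi.single_eq_same, one_mul]
    · intro j _ hj
      rw [Pi.single_eq_of_ne hj, zero_mul]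
    · intro hk
      exact absurd (Finset.mem_univ k) hk
  refine ⟨fun i => Z (e.symm i), fun i => A (e.symm i), fun f hf hf0 hf1 => ?_⟩
  have k0 : ∀ x : α, ∀ j, eval (Z x) (f j) = 0 := fun x j => by
    have := hf0 (e x) j
    simpa only [Equiv.symm_apply_apply] using this
  have k1 : ∀ x : α, ∀ k, ∑ j, A x j * eval (Z x) (pderiv k (f j)) = 0 := fun x k => by
    have := hf1 (e x) k
    simpa only [Equiv.symm_apply_apply] using this
  refine ht f hf (fun i j => k0 (Sum.inl i) j) (fun i k => ?_)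
    (fun i j => k0 (Sum.inr (Sum.inl i)) j) (fun i k => ?_)
    (fun i j => k0 (Sum.inr (Sum.inr (Sum.inl i))) j)
    (fun i k => k1 (Sum.inr (Sum.inr (Sum.inl i))) k)
    (fun i j => k0 (Sum.inr (Sum.inr (Sum.inr i))) j) (fun i k => ?_)
  · have := k1 (Sum.inl i) k
    rw [← hs (π i) (fun j => eval (w i) (pderiv k (f j)))]
    exact this
  · have := k1 (Sum.inr (Sum.inl i)) k
    rw [← hs 0 (fun j => eval (hp (z1 i)) (pderiv k (f j)))]
    exact this
  · have := k1 (Sum.inr (Sum.inr (Sum.inr i))) k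
    rw [← hs 0 (fun j => eval (Fin.cons t (z0 i) : Fin (n + 1) → ℂ) (pderiv k (f j)))]
    exact this

/-- the numbers exist -/
theorem numb (hNC : S_NC) (hNS : S_NS) (h3 : S_NG3) (h4 : S_NG4) (h5 : S_NG5) (h6 : S_NG6)
    {n d r h : ℕ} (hn : 1 ≤ n) (hr : 1 ≤ r) (hrn : r ≤ n) (hd : 3 ≤ d) (hC : Crit n d r h) :
    Numb n d r h := by
  by_cases hS : Small n d r
  · exact hNS n d r h hn hr hrn hd hS hC
  · have e1 : NN n (d + 2) = (n + r + 1) * (NN n (d + 2) / (n + r + 1)) +
        NN n (d + 2) % (n + r + 1) := (Nat.div_add_mod _ _).symm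
    have e2 : NN n (d + 2) % (n + r + 1) ≤ n + r :=
      Nat.le_of_lt_succ (Nat.mod_lt _ (by omega))
    refine hNC n d r h _ _ hn hr hrn hd hC e1 e2 ?_
    rcases Nat.lt_or_ge d 5 with hd5 | hd5
    · rcases Nat.lt_or_ge d 4 with hd4 | hd4
      · obtain rfl : d = 3 := by omega
        exact h3 n r _ _ hr hrn hS e1 e2
      · obtain rfl : d = 4 := by omega
        exact h4 n r _ _ hr hrn hS e1 e2
    · rcases Nat.lt_or_ge n 3 with hn3 | hn3
      · exact h6 n d r _ _ hn (by omega) hd5 hr hrn hS e1 e2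
      · exact h5 n d r _ _ hn3 hd5 hr hrn e1 e2

end FEW5aux

open FEW5aux in
/-- few forms, all degrees at least five -/
theorem x_FEW5 (hAG : S_AG) (hRES5 : S_RES5) (hTRA : S_TRA) (hDH : S_DH) (hNC : S_NC)
    (hNS : S_NS) (h3 : S_NG3) (h4 : S_NG4) (h5 : S_NG5) (h6 : S_NG6) : S_FEW5 := by
  intro n d r h hn hr hrn hd hh
  -- the critical value
  set D := n + r + 2 with hD
  have hDp : 0 < D := by omega
  set B := (r + 1) * NN (n + 1) (d + 2) with hB
  set h0 := (B + (D - 1)) / D with hh0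
  have a1 : B ≤ D * h0 := by
    have := Nat.lt_mul_div_succ (B + (D - 1)) hDp
    rw [← hh0, Nat.mul_add, mul_one] at this
    omega
  have a2 : D * h0 < B + D := by
    have : D * h0 ≤ B + (D - 1) := by rw [hh0]; exact Nat.mul_div_le _ _
    omega
  have a3 : h0 ≤ h := by
    by_contra hc
    push Not at hc
    have : D * (h + 1) ≤ D * h0 := Nat.mul_le_mul_left _ hc
    rw [Nat.mul_add, mul_one] at this
    omega
  obtain ⟨z, a, hz⟩ := crit hAG hRES5 hTRA hDH hn hd
    (numb hNC hNS h3 h4 h5 h6 hn hr hrn hd ⟨a1, a2⟩) a1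
  refine ⟨fun i => if hi : i.val < h0 then z ⟨i.val, hi⟩ else 0,
    fun i => if hi : i.val < h0 then a ⟨i.val, hi⟩ else 0, fun i => i.elim0, ?_⟩
  intro f hf hf0 hf1 _
  refine hz f hf (fun i j => ?_) (fun i k => ?_)
  · have := hf0 (Fin.castLE a3 i) j
    simpa using this
  · have := hf1 (Fin.castLE a3 i) k
    simpa using this

end Pool.Agent.War5
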