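import Pool.Agent.War5.Stmts
import Pool.Agent.War.WAH

/-!
# Module G1: one variable
-/

set_option autoImplicit false

open Module MvPolynomial
open Pool.Agent.War Pool.Agent.WarS

namespace Pool.Agent.War5

namespace G1aux

/-- one double point on the line, degree one -/
theorem GG_one_one : GG 1 1 1 := by
  refine ⟨fun _ => 0, ?_⟩
  have h : Dbl 1 1 (Finset.univ : Finset (Fin 1)) (fun _ => (0 : Fin 1 → ℂ)) = ⊥ := by
    rw [Submodule.eq_bot_iff]
    intro f hf
    have h0 := hf.1 0
    have h1 := hf.2 0 (Finset.mem_univ _) 0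
    -- the restriction to `x₀ = 0` vanishes
    have h2 : res 0 (f : MvPolynomial (Fin 1) ℂ) = 0 := by
      obtain ⟨c, hc⟩ := C_surjective (R := ℂ) (Fin 0) (res 0 (f : MvPolynomial (Fin 1) ℂ))
      have h3 := eval_hp (n := 0) (fun i => i.elim0) (f : MvPolynomial (Fin 1) ℂ)
      have h4 : (hp (fun i : Fin 0 => (i.elim0 : ℂ))) = (0 : Fin 1 → ℂ) := by
        ext i
        refine Fin.cases rfl (fun j => j.elim0) i
      rw [h4, h0, ← hc, eval_C] at h3
      rw [← hc, ← h3, C_0]
    obtain ⟨g, hg, hfg⟩ := exists_of_res (mem_Pol.1 f.2) h2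
    have hg0 : g.totalDegree = 0 := by omega
    rw [totalDegree_eq_zero_iff_eq_C] at hg0
    rw [hfg, hg0, Derivation.leibniz] at h1
    have h5 : coeff 0 g = 0 := by
      have h6 : eval (0 : Fin 1 → ℂ) (X 0 * 0 + C (coeff 0 g)) = 0 := by
        simpa [pderiv_X_self] using h1
      simpa using h6
    apply Subtype.ext
    rw [hfg, hg0, h5, C_0, mul_zero]
    rfl
  rw [h, finrank_bot, NN_one]

end G1aux

theorem x_G1 : S_G1 := by
  intro d
  induction d using Nat.strong_induction_on with
  | _ d ih =>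
    intro p hp
    rcases Nat.eq_zero_or_pos p with rfl | hp0
    · exact GG.zero _ _
    · rcases Nat.lt_or_ge d 2 with hd | hd
      · obtain rfl : d = 1 := by omega
        obtain rfl : p = 1 := by omega
        exact G1aux.GG_one_one
      · obtain ⟨e, rfl⟩ : ∃ e, d = e + 2 := ⟨d - 2, by omega⟩
        obtain ⟨q, rfl⟩ : ∃ q, p = 1 + q := ⟨p - 1, by omega⟩
        exact horace (n := 0) (d := e) (u := 1) (q := q) (p₂ := q) (GG_zero_one _)
          (ih (e + 1) (by omega) q (by omega)) (ih e (by omega) q (by omega)) le_rfl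
          (by rw [NN_one, NN_one])

end Pool.Agent.War5
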