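import Pool.Agent.War5.Stmts
import Pool.Agent.WarS.HD

/-!
# Simultaneous Waring decompositions (MP_db021c_ag), few forms: the module HD5   (helper58)

General double points, general simple points and points which are double along the hyperplane;
`u` of the double points are specialised to the hyperplane.
-/

set_option autoImplicit false

open Module MvPolynomial
open Pool.Agent.War Pool.Agent.WarS

namespace Pool.Agent.War5

namespace HD5aux

/-- the bound for the double points -/
theorem step {n d u y q : ℕ} (w : Fin q → Fin (n + 1) → ℂ)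
    (z : Fin (u + y) → Fin n → ℂ) (hw : ∀ i, w i 0 ≠ 0) :
    finrank ℂ (DblH n (d + 1) (Finset.univ : Finset (Fin u ⊕ Fin q))
      (Sum.elim (fun i => hp (z (Fin.castAdd y i))) w) fun i => z (Fin.natAdd u i)) ≤
      finrank ℂ (Dbl n (d + 1) Finset.univ z) +
        finrank ℂ (SWaux.DS n d w fun i => z (Fin.castAdd y i)) := by
  set P' : Finset (Fin u ⊕ Fin q) := Finset.univ with hP'
  have hmem : ∀ i, i ∈ P' := fun i => Finset.mem_univ i
  set x : Fin u ⊕ Fin q → Fin (n + 1) → ℂ :=
    Sum.elim (fun i => hp (z (Fin.castAdd y i))) w with hx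
  have h1 := finrank_le_map_add_ker (resL n (d + 1))
    (DblH n (d + 1) P' x fun i => z (Fin.natAdd u i))
  have h2 : finrank ℂ ((DblH n (d + 1) P' x fun i => z (Fin.natAdd u i)).map
      (resL n (d + 1))) ≤ finrank ℂ (Dbl n (d + 1) Finset.univ z) := by
    refine Submodule.finrank_mono ?_
    rintro _ ⟨f, ⟨⟨hf1, hf2⟩, hf3⟩, rfl⟩
    refine ⟨fun i => ?_, fun i _ k => ?_⟩
    · refine Fin.addCases (fun i => ?_) (fun i => ?_) i
      · have := hf1 (Sum.inl i)
        rw [hx, Sum.elim_inl, eval_hp] at this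
        exact this
      · exact hf3.1 i
    · refine Fin.addCases (fun i => ?_) (fun i => ?_) i
      · have := hf2 (Sum.inl i) (hmem _) k.succ
        rw [hx, Sum.elim_inl, eval_hp_pderiv] at this
        exact this
      · exact hf3.2 i (Finset.mem_univ _) k
  have h3 : finrank ℂ ↥((DblH n (d + 1) P' x fun i => z (Fin.natAdd u i)) ⊓
      LinearMap.ker (resL n (d + 1))) ≤
      finrank ℂ (SWaux.DS n d w fun i => z (Fin.castAdd y i)) := by
    refine finrank_inf_ker_le _ _ fun g hg => ?_
    obtain ⟨⟨g1, g2⟩, -⟩ := hg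
    refine ⟨⟨fun i => ?_, fun i _ k => ?_⟩, ?_⟩
    · have h4 := g1 (Sum.inr i)
      have h5 := g2 (Sum.inr i) (hmem _)
      rw [hx] at h4 h5
      exact (off_hyp (hw i) h4 h5).1
    · have h4 := g1 (Sum.inr i)
      have h5 := g2 (Sum.inr i) (hmem _)
      rw [hx] at h4 h5
      exact (off_hyp (hw i) h4 h5).2 k
    · rw [SetLike.mem_coe, Submodule.mem_iInf]
      intro i
      have h5 := g2 (Sum.inl i) (hmem _) 0
      rw [hx, Sum.elim_inl, eval_pderiv_mulX_zero, hp_zero, zero_mul, zero_add] at h5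
      rw [LinearMap.mem_ker, ev_apply]
      exact h5
  omega

end HD5aux

theorem x_HD5 : S_HD5 := by
  classical
  intro n d u y I _ P hn hu hG hA
  obtain ⟨q, hq⟩ : ∃ q, q = P.card - u := ⟨_, rfl⟩
  rw [← hq] at hA
  have hPq : P.card = u + q := by omega
  have hAle := hA.le
  have hGle := hG.le
  have hPI : P.card ≤ Fintype.card I := Finset.card_le_univ P
  -- the choice of the points
  have g1 := hA.gen.comp (LinearMap.prodMap (LinearMap.id (R := ℂ) (M := Fin q → Fin (n + 1) → ℂ))
    (restr (n := n) (Fin.castAdd y (n := u))))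
    (Function.Surjective.prodMap Function.surjective_id
      (restr_surjective (Fin.castAdd_injective u y)))
  have g2 := hG.gen.comp (LinearMap.snd ℂ (Fin q → Fin (n + 1) → ℂ) (Fin (u + y) → Fin n → ℂ))
    LinearMap.snd_surjective
  have g3 := (gen_off (n := n) (I := Fin q)).comp
    (LinearMap.fst ℂ (Fin q → Fin (n + 1) → ℂ) (Fin (u + y) → Fin n → ℂ))
    LinearMap.fst_surjective
  obtain ⟨⟨w, z⟩, ⟨hwz, hz⟩, hw⟩ := ((g1.and g2).and g3).exists
  have hwz' : finrank ℂ (SWaux.DS n d w fun i => z (Fin.castAdd y i)) ≤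
      NN (n + 1) d - ((n + 2) * q + u) := hwz
  have hz' : finrank ℂ (Dbl n (d + 1) Finset.univ z) ≤ NN n (d + 1) - (n + 1) * (u + y) := hz
  have hw' : ∀ i, w i 0 ≠ 0 := hw
  have hE := HD5aux.step (d := d) (y := y) w z hw'
  set P' : Finset (Fin u ⊕ Fin q) := Finset.univ with hP'
  set x : Fin u ⊕ Fin q → Fin (n + 1) → ℂ :=
    Sum.elim (fun i => hp (z (Fin.castAdd y i))) w with hx
  set z' : Fin y → Fin n → ℂ := fun i => z (Fin.natAdd u i) with hz'def
  -- the other simple points
  obtain ⟨v, hv⟩ := red (Y := Fin (n + 1) → ℂ) (fun v => ev (n + 1) (d + 1) v)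
    (DblH n (d + 1) P' x z') ⊥ (by
      intro f _ hf
      by_contra hc
      push Not at hc
      apply hf
      rw [Submodule.mem_bot]
      apply Subtype.ext
      apply MvPolynomial.funext
      intro x
      have := hc x
      rw [ev_apply] at this
      rw [this]
      simp) (Fintype.card I - P.card)
  rw [finrank_bot, Nat.max_zero] at hv
  have e1 : Fintype.card {i // i ∈ P} = Fintype.card (Fin u ⊕ Fin q) := by
    rw [Fintype.card_coe, Fintype.card_sum, Fintype.card_fin, Fintype.card_fin, hPq]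
  let e : {i // i ∈ P} ≃ Fin u ⊕ Fin q := Fintype.equivOfCardEq e1
  have e2 : Fintype.card {i // ¬ i ∈ P} = Fintype.card I - P.card := by
    rw [Fintype.card_subtype_compl, Fintype.card_coe]
  let b : {i // ¬ i ∈ P} ≃ Fin (Fintype.card I - P.card) := Fintype.equivFinOfCardEq e2
  let x₀ : I → Fin (n + 1) → ℂ := fun i => if hi : i ∈ P then x (e ⟨i, hi⟩) else v (b ⟨i, hi⟩)
  have key : ∀ j : Fin u ⊕ Fin q, x₀ (e.symm j).1 = x j := by
    intro j
    simp only [x₀]
    rw [dif_pos (e.symm j).2]
    simp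
  have hle : DblH n (d + 1) P x₀ z' ≤
      DblH n (d + 1) P' x z' ⊓ ⨅ i, LinearMap.ker (ev (n + 1) (d + 1) (v i)) := by
    rintro f ⟨⟨f1, f2⟩, f3⟩
    refine ⟨⟨⟨fun j => ?_, fun j _ k => ?_⟩, f3⟩, ?_⟩
    · have := f1 (e.symm j).1
      rwa [key] at this
    · have := f2 (e.symm j).1 (e.symm j).2 k
      rwa [key] at this
    · rw [SetLike.mem_coe, Submodule.mem_iInf]
      intro i
      rw [LinearMap.mem_ker, ev_apply]
      have := f1 (b.symm i).1
      simp only [x₀] at this
      rw [dif_neg (b.symm i).2] at this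
      simpa using this
  refine (HDaux.PK_DblH n (d + 1) y P).gen_finrank (x₀ := (x₀, z'))
    ((Submodule.finrank_mono hle).trans (hv.trans ?_))
  have hs := NN_succ n d
  have h1 : (n + 1) * (u + y) = (n + 1) * u + (n + 1) * y := by ring
  have h2 : (n + 2) * q = (n + 1) * q + q := by ring
  have h3 : (n + 1) * P.card = (n + 1) * u + (n + 1) * q := by rw [hPq]; ring
  omega

end Pool.Agent.War5
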