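import Pool.Agent.War5.Stmts

/-!
# Simultaneous Waring decompositions (MP_db021c_ag), few forms: KAP   (helper54)
-/

set_option autoImplicit false

open Module MvPolynomial
open Pool.Agent.War Pool.Agent.WarS

namespace Pool.Agent.War5

namespace KAPaux

theorem mono_pts {n d p p' k : ℕ} (h : KD n d p k) (hp : p ≤ p') : KD n d p' k := by
  obtain ⟨z, hz⟩ := h
  refine ⟨fun i => if hi : i.val < p then z ⟨i.val, hi⟩ else 0, ?_⟩
  refine (Submodule.finrank_mono (Dbl_le_comp (Fin.castLE hp) _)).trans ?_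
  have h1 : (fun j : Fin p => (fun i : Fin p' =>
      if hi : i.val < p then z ⟨i.val, hi⟩ else 0) (Fin.castLE hp j)) = z := by
    funext j
    simp
  rw [h1]
  exact hz

theorem drop (hDR : S_DR) {n d p k : ℕ} (hn : 1 ≤ n) (h : KD n d p k) :
    ∀ j : ℕ, KD n d (p + j) (k - 2 * j) := by
  intro j
  induction j with
  | zero => simpa using h
  | succ j ih =>
    have h1 := hDR n d (p + j) _ hn ih
    have e : k - 2 * j - 2 = k - 2 * (j + 1) := by omega
    rw [e] at h1
    exact h1

end KAPaux

open KAPaux in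
theorem x_KAP (hMO : S_MO) (hQD : S_QD) (hDR : S_DR) : S_KAP := by
  intro m d q hm hq hd hG
  unfold kap
  by_cases h2 : d = 2
  · subst h2
    rw [if_pos rfl]
    exact hQD m q hq
  rw [if_neg h2]
  have h3 : 3 ≤ d := by omega
  have hg : GG m d (min q (gg m d)) := hMO.1 m d (gg m d) _ (hG h3) (min_le_right _ _)
  have hgq : min q (gg m d) ≤ q := min_le_left _ _
  generalize min q (gg m d) = g at hg hgq ⊢
  have hk : KD m d g (NN m d - (m + 1) * g) := by
    obtain ⟨z, hz⟩ := hg
    exact ⟨z, by omega⟩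
  by_cases h4 : d = 3
  · rw [if_pos h4]
    have h5 := drop hDR (by omega) hk (q - g)
    rwa [Nat.add_sub_cancel' hgq] at h5
  · rw [if_neg h4, Nat.sub_zero]
    exact mono_pts hk hgq

end Pool.Agent.War5
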