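import Pool.Agent.War5.Stmts

/-!
# MO: monotonicity (MP_db021c_ag)
-/

set_option autoImplicit false

open Module MvPolynomial
open Pool.Agent.War Pool.Agent.WarS

namespace Pool.Agent.War5

namespace MOaux

/-- value and derivatives at finitely many points -/
noncomputable def rho (n d : ℕ) {e : ℕ} (z : Fin e → Fin n → ℂ) :
    Pol n d →ₗ[ℂ] (Fin e × Option (Fin n) → ℂ) :=
  LinearMap.pi fun q => q.2.elim (ev n d (z q.1)) fun k => dv n d k (z q.1)

theorem mem_ker_rho {n d e : ℕ} {z : Fin e → Fin n → ℂ} {f : Pol n d}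
    (h : f ∈ LinearMap.ker (rho n d z)) (i : Fin e) :
    eval (z i) (f : MvPolynomial (Fin n) ℂ) = 0 ∧
      ∀ k, eval (z i) (pderiv k (f : MvPolynomial (Fin n) ℂ)) = 0 := by
  rw [LinearMap.mem_ker] at h
  refine ⟨?_, fun k => ?_⟩
  · have h1 := congrFun h (i, none)
    change ev n d (z i) f = 0 at h1
    rwa [ev_apply] at h1
  · have h1 := congrFun h (i, some k)
    change dv n d k (z i) f = 0 at h1
    rwa [dv_apply] at h1

theorem finrank_map_rho {n d e : ℕ} (z : Fin e → Fin n → ℂ) (Z : Submodule ℂ (Pol n d)) :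
    finrank ℂ (Z.map (rho n d z)) ≤ (n + 1) * e := by
  refine (Submodule.finrank_le _).trans (le_of_eq ?_)
  rw [Module.finrank_fintype_fun_eq_card]
  simp [mul_comm]

/-- leaving out double points -/
theorem dbl {n d p e : ℕ} (z : Fin (p + e) → Fin n → ℂ) :
    finrank ℂ (Dbl n d Finset.univ fun i : Fin p => z (Fin.castAdd e i)) ≤
      finrank ℂ (Dbl n d Finset.univ z) + (n + 1) * e := by
  have h1 := finrank_le_map_add_ker (rho n d fun i : Fin e => z (Fin.natAdd p i))
    (Dbl n d Finset.univ fun i : Fin p => z (Fin.castAdd e i))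
  have h2 := finrank_map_rho (fun i : Fin e => z (Fin.natAdd p i))
    (Dbl n d Finset.univ fun i : Fin p => z (Fin.castAdd e i))
  have h3 : (Dbl n d Finset.univ fun i : Fin p => z (Fin.castAdd e i)) ⊓
      LinearMap.ker (rho n d fun i : Fin e => z (Fin.natAdd p i)) ≤ Dbl n d Finset.univ z := by
    rintro f ⟨hf1, hf2⟩
    refine ⟨fun i => ?_, fun i _ k => ?_⟩
    · refine Fin.addCases (fun j => ?_) (fun j => ?_) i
      · exact hf1.1 j
      · exact (mem_ker_rho hf2 j).1
    · revert k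
      refine Fin.addCases (fun j => ?_) (fun j => ?_) i
      · exact hf1.2 j (Finset.mem_univ _)
      · exact (mem_ker_rho hf2 j).2
  have h4 := Submodule.finrank_mono h3
  omega

/-- leaving out simple points of the hyperplane -/
theorem simple {n d l e : ℕ} (Z : Submodule ℂ (Pol (n + 1) d)) (y : Fin (l + e) → Fin n → ℂ) :
    finrank ℂ ↥(Z ⊓ ⨅ i : Fin l, LinearMap.ker (ev (n + 1) d (hp (y (Fin.castAdd e i))))) ≤
      finrank ℂ ↥(Z ⊓ ⨅ i, LinearMap.ker (ev (n + 1) d (hp (y i)))) + e := by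
  obtain ⟨ρ, hρ⟩ : ∃ ρ : Pol (n + 1) d →ₗ[ℂ] (Fin e → ℂ),
      ρ = LinearMap.pi fun i => ev (n + 1) d (hp (y (Fin.natAdd l i))) := ⟨_, rfl⟩
  have h1 := finrank_le_map_add_ker ρ
    (Z ⊓ ⨅ i : Fin l, LinearMap.ker (ev (n + 1) d (hp (y (Fin.castAdd e i)))))
  have h2 : finrank ℂ ((Z ⊓ ⨅ i : Fin l,
      LinearMap.ker (ev (n + 1) d (hp (y (Fin.castAdd e i))))).map ρ) ≤ e := by
    refine (Submodule.finrank_le _).trans (le_of_eq ?_)
    rw [Module.finrank_fintype_fun_eq_card, Fintype.card_fin]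
  have h3 : (Z ⊓ ⨅ i : Fin l, LinearMap.ker (ev (n + 1) d (hp (y (Fin.castAdd e i))))) ⊓
      LinearMap.ker ρ ≤ Z ⊓ ⨅ i, LinearMap.ker (ev (n + 1) d (hp (y i))) := by
    rintro f ⟨⟨hf1, hf2⟩, hf3⟩
    refine ⟨hf1, ?_⟩
    rw [SetLike.mem_coe, Submodule.mem_iInf] at hf2 ⊢
    intro i
    refine Fin.addCases (fun j => hf2 j) (fun j => ?_) i
    rw [SetLike.mem_coe, LinearMap.mem_ker, hρ] at hf3
    exact congrFun hf3 j
  have h4 := Submodule.finrank_mono h3
  omega

end MOaux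

open MOaux in
theorem x_MO : S_MO := by
  constructor
  · rintro n d p p' ⟨z, hz⟩ hp
    obtain ⟨e, rfl⟩ : ∃ e, p = p' + e := ⟨p - p', by omega⟩
    refine ⟨fun i => z (Fin.castAdd e i), ?_⟩
    have h1 := dbl (d := d) z
    have h2 : (n + 1) * (p' + e) = (n + 1) * p' + (n + 1) * e := by ring
    omega
  · rintro n d p l p' l' ⟨w, y, hw⟩ hpp hll
    obtain ⟨e, rfl⟩ : ∃ e, p = p' + e := ⟨p - p', by omega⟩
    obtain ⟨f, rfl⟩ : ∃ f, l = l' + f := ⟨l - l', by omega⟩
    refine ⟨fun i => w (Fin.castAdd e i), fun i => y (Fin.castAdd f i), ?_⟩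
    have h1 : finrank ℂ (SWaux.DS n d (fun i : Fin p' => w (Fin.castAdd e i))
        fun i : Fin l' => y (Fin.castAdd f i)) ≤
        finrank ℂ ↥((Dbl (n + 1) d Finset.univ fun i : Fin p' => w (Fin.castAdd e i)) ⊓
          ⨅ i, LinearMap.ker (ev (n + 1) d (hp (y i)))) + f :=
      simple (e := f) (Dbl (n + 1) d Finset.univ fun i : Fin p' => w (Fin.castAdd e i)) y
    have h2 : finrank ℂ ↥((Dbl (n + 1) d Finset.univ fun i : Fin p' => w (Fin.castAdd e i)) ⊓
        ⨅ i, LinearMap.ker (ev (n + 1) d (hp (y i)))) ≤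
        finrank ℂ (SWaux.DS n d w y) + (n + 2) * e := by
      have k1 := finrank_le_map_add_ker (rho (n + 1) d fun i : Fin e => w (Fin.natAdd p' i))
        ((Dbl (n + 1) d Finset.univ fun i : Fin p' => w (Fin.castAdd e i)) ⊓
        ⨅ i, LinearMap.ker (ev (n + 1) d (hp (y i))))
      have k2 := finrank_map_rho (fun i : Fin e => w (Fin.natAdd p' i))
        ((Dbl (n + 1) d Finset.univ fun i : Fin p' => w (Fin.castAdd e i)) ⊓
        ⨅ i, LinearMap.ker (ev (n + 1) d (hp (y i))))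
      have k3 : ((Dbl (n + 1) d Finset.univ fun i : Fin p' => w (Fin.castAdd e i)) ⊓
          ⨅ i, LinearMap.ker (ev (n + 1) d (hp (y i)))) ⊓
          LinearMap.ker (rho (n + 1) d fun i : Fin e => w (Fin.natAdd p' i)) ≤
          SWaux.DS n d w y := by
        rintro f ⟨⟨hf1, hf2⟩, hf3⟩
        refine ⟨⟨fun i => ?_, fun i _ k => ?_⟩, hf2⟩
        · refine Fin.addCases (fun j => ?_) (fun j => ?_) i
          · exact hf1.1 j
          · exact (mem_ker_rho hf3 j).1
        · revert k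
          refine Fin.addCases (fun j => ?_) (fun j => ?_) i
          · exact hf1.2 j (Finset.mem_univ _)
          · exact (mem_ker_rho hf3 j).2
      have k4 := Submodule.finrank_mono k3
      have k5 : (n + 1 + 1) * e = (n + 2) * e := rfl
      omega
    have h3 : (n + 2) * (p' + e) = (n + 2) * p' + (n + 2) * e := by ring
    omega

end Pool.Agent.War5
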