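import Pool.Agent.War5.Stmts
import Pool.Agent.WarS.NUM

/-!
# Simultaneous Waring decompositions (MP_db021c_ag), few forms, degrees at least 5: module NC

The general conditions `GC` give the numbers `Numb`. Template: `WarS/NUM.lean`.
-/

set_option autoImplicit false

open Pool.Agent.War

namespace Pool.Agent.War5

namespace NCaux

open Pool.Agent.WarS.NumAux

theorem NN_three (n : ℕ) : 6 * NN n 3 = (n + 1) * (n + 2) * (n + 3) := by
  have h0 : NN n 0 = 1 := by
    unfold NN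
    simp
  have h1 := NN_ratio n 0
  have h2 := NN_ratio n 1
  have h3 := NN_ratio n 2
  rw [h0] at h1
  have e1 : NN n 1 = n + 1 := by
    linarith
  rw [e1] at h2
  nlinarith

/-- a lower bound -/
theorem A0_ge (n d : ℕ) (hd : 3 ≤ d) : 2 * n ^ 2 ≤ NN (n + 1) d := by
  have h1 := NN_three (n + 1)
  have h2 : NN (n + 1) 3 ≤ NN (n + 1) d := NN_mono_right hd
  have h3 : 6 * (2 * n ^ 2) ≤ (n + 1 + 1) * (n + 1 + 2) * (n + 1 + 3) := by
    zify
    nlinarith [mul_nonneg (Int.natCast_nonneg n) (sq_nonneg ((n : ℤ) - 2))]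
  omega

/-- the arithmetic for the bounds from above -/
theorem core2 (n r u y m μ p0 e0 q rem σ A1 : ℕ) (hr : 1 ≤ r)
    (e4 : (n + r + 2) * μ + σ = (n + 1) * A1 + (r + 1) * u + (n + 1) * y)
    (e3 : (n + r + 2) * m + (r + 1) * u + (n + 1) * y = (r + 1) * A1 + σ)
    (hσ : σ < n + r + 2)
    (hp0 : μ = (n + 1) * y + u + (n + 1) * p0 + e0) (he0 : e0 ≤ n)
    (hK : m = p0 + (r * q + rem)) :
    (n + r + 2) * (p0 + y) + u ≤ A1 + y ∧
    (n + r + 2) * q + u ≤ A1 + y + 2 * (n + r + 2) ∧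
    (1 ≤ rem → (n + r + 2) * (q + 1) + u ≤ A1 + y + 2 * (n + r + 2)) := by
  have i2 : (n + 1) * ((n + r + 2) * p0 + u + (n + r + 1) * y) + σ + (n + r + 2) * e0 =
      (n + 1) * A1 := by
    rw [hp0] at e4
    zify at e4 ⊢
    linear_combination e4
  have i3 : (n + 1) * ((n + r + 2) * (r * q + rem) + r * u) =
      (n + 1) * (r * A1 + r * y) + (n + 2) * σ + (n + r + 2) * e0 := by
    rw [hK] at e3
    zify at e3 i2 ⊢
    linear_combination (n + 1 : ℤ) * e3 - i2
  have i4 : (n + r + 2) * (r * q + rem) + r * u ≤ r * A1 + r * y + 2 * (n + r + 2) := by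
    have h1 : (n + 1) * ((n + r + 2) * (r * q + rem) + r * u) ≤
        (n + 1) * (r * A1 + r * y + 2 * (n + r + 2)) := by
      rw [i3]
      have h2 : (n + 2) * σ ≤ (n + 2) * (n + r + 2) := Nat.mul_le_mul_left _ hσ.le
      have h3 : (n + r + 2) * e0 ≤ (n + r + 2) * n := Nat.mul_le_mul_left _ he0
      linarith
    exact Nat.le_of_mul_le_mul_left h1 (by omega)
  refine ⟨?_, ?_, ?_⟩
  · have h1 : (n + 1) * ((n + r + 2) * p0 + u + (n + r + 1) * y) ≤ (n + 1) * A1 := by
      rw [← i2]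
      omega
    have h2 := Nat.le_of_mul_le_mul_left h1 (by omega)
    linarith
  · have h1 : r * ((n + r + 2) * q + u) ≤ r * (A1 + y + 2 * (n + r + 2)) := by
      have h2 : 1 * (2 * (n + r + 2)) ≤ r * (2 * (n + r + 2)) := Nat.mul_le_mul_right _ hr
      linarith [Nat.zero_le ((n + r + 2) * rem)]
    exact Nat.le_of_mul_le_mul_left h1 (by omega)
  · intro hrem
    have h1 : r * ((n + r + 2) * (q + 1) + u) ≤ r * (A1 + y + 2 * (n + r + 2)) := by
      have h2 : 1 * (n + r + 2) ≤ r * (n + r + 2) := Nat.mul_le_mul_right _ hr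
      have h3 : (n + r + 2) * 1 ≤ (n + r + 2) * rem := Nat.mul_le_mul_left _ hrem
      linarith
    exact Nat.le_of_mul_le_mul_left h1 (by omega)

end NCaux

open NCaux Pool.Agent.WarS.NumAux in
theorem x_NC : S_NC := by
  intro n d r h u y hn hr hrn hd hcrit hBuy hyle hGC
  obtain ⟨hh1, hh2⟩ := hcrit
  obtain ⟨hu3, hB1', g3, g4, g5, g6⟩ := hGC
  have hA0n := A0_ge n d hd
  have r2 : NN (n + 1) (d + 2) = NN n (d + 2) + NN (n + 1) (d + 1) := NN_succ n (d + 1)
  have r1 : NN (n + 1) (d + 1) = NN n (d + 1) + NN (n + 1) d := NN_succ n d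
  unfold Numb
  generalize NN n (d + 2) = B at *
  generalize NN n (d + 1) = B1 at *
  generalize NN (n + 1) (d + 2) = A2 at *
  generalize NN (n + 1) (d + 1) = A1 at *
  generalize NN (n + 1) d = A0 at *
  generalize gg n (d + 2) = G2 at *
  generalize gg n (d + 1) = G1 at *
  generalize gg (n + 1) (d + 1) = G11 at *
  generalize gg (n + 1) d = G10 at *
  have hyn : y ≤ 2 * n := by omega
  -- σ
  obtain ⟨σ, hσ⟩ := Nat.exists_eq_add_of_le hh1
  have hσ2 : σ < n + r + 2 := by omega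
  -- m
  have hm0 : (r + 1) * u + y ≤ h := by
    have h1 : (n + r + 2) * ((r + 1) * u + y) ≤ (n + r + 2) * h := by
      rw [hσ, r2, hBuy]
      have h2 : (r + 1) * (u + (n + 1) * y) ≤ (r + 1) * A1 :=
        Nat.mul_le_mul_left _ (by omega)
      have h3 : 0 ≤ r * ((n + 1) * y) := Nat.zero_le _
      linarith
    exact Nat.le_of_mul_le_mul_left h1 (by omega)
  obtain ⟨m, hm⟩ := Nat.exists_eq_add_of_le hm0
  have e3 : (n + r + 2) * m + (r + 1) * u + (n + 1) * y = (r + 1) * A1 + σ := by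
    have h1 : (n + r + 2) * ((r + 1) * u + y + m) = (r + 1) * (B + A1) + σ := by
      rw [← hm, ← r2, hσ]
    rw [hBuy] at h1
    zify at h1 ⊢
    linear_combination h1
  -- μ
  have hμ0 : m ≤ A1 := by
    have h1 : (n + r + 2) * m ≤ (n + r + 2) * A1 := by
      have h2 : σ ≤ (n + 1) * A1 := by
        have h3 : (n + 1) * 2 ≤ (n + 1) * A1 := Nat.mul_le_mul_left _ (by omega)
        omega
      linarith [Nat.zero_le ((r + 1) * u), Nat.zero_le ((n + 1) * y)]
    exact Nat.le_of_mul_le_mul_left h1 (by omega)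
  obtain ⟨μ, hμ⟩ := Nat.exists_eq_add_of_le hμ0
  have e4 : (n + r + 2) * μ + σ = (n + 1) * A1 + (r + 1) * u + (n + 1) * y := by
    zify at e3 hμ ⊢
    linear_combination (-1 : ℤ) * e3 - (n + r + 2 : ℤ) * hμ
  -- p0
  have hp0 : (n + 1) * y + u ≤ μ := by
    have h1 : (n + r + 2) * ((n + 1) * y + u) ≤ (n + r + 2) * μ := by
      have h2 : (n + 1) * ((n + r + 1) * y + u + 2) ≤ (n + 1) * A1 := by
        refine Nat.mul_le_mul_left _ ?_
        have h3 : r * y ≤ n * (2 * n) := Nat.mul_le_mul hrn hyn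
        linarith
      linarith
    exact Nat.le_of_mul_le_mul_left h1 (by omega)
  obtain ⟨w, hw⟩ := Nat.exists_eq_add_of_le hp0
  set p0 := w / (n + 1) with hp0d
  set e0 := w % (n + 1) with he0d
  have hw2 : w = (n + 1) * p0 + e0 := (Nat.div_add_mod w (n + 1)).symm
  have he0 : e0 ≤ n := Nat.lt_succ_iff.1 (Nat.mod_lt w (by omega))
  have hμ2 : μ = (n + 1) * y + u + (n + 1) * p0 + e0 := by omega
  -- K
  have hK0 : p0 ≤ m := by
    have h1 : (n + 1) * p0 ≤ (n + 1) * m := by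
      have h2 : (n + 1) * m + (r + 1) * u + (n + 1) * y = (r + 1) * μ + σ := by
        zify at e3 hμ ⊢
        linear_combination e3 + (r + 1 : ℤ) * hμ
      have h3 : r * u ≤ r * μ := Nat.mul_le_mul_left _ (by
        have := Nat.zero_le ((n + 1) * y)
        omega)
      linarith
    exact Nat.le_of_mul_le_mul_left h1 (by omega)
  obtain ⟨K, hK⟩ := Nat.exists_eq_add_of_le hK0
  set q := K / r with hq
  set rem := K % r with hrem
  have hK2 : K = r * q + rem := (Nat.div_add_mod K r).symm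
  have hremlt : rem < r := Nat.mod_lt K (by omega)
  have hK3 : m = p0 + (r * q + rem) := by rw [hK, hK2]
  obtain ⟨c1, c2, c3, -⟩ := core n r u y m μ p0 e0 q rem σ A2 A1 A0 B B1 h (by omega) hr hrn
    hBuy r2 r1 hσ hσ2 hm hμ hμ2 he0 hK3 hremlt (by omega) (by omega)
  obtain ⟨k1, k2, k3⟩ := core2 n r u y m μ p0 e0 q rem σ A1 hr e4 e3 hσ2 hμ2 he0 hK3
  have f0 : p0 + y ≤ G11 := g3 _ (by omega)
  have f1 : q ≤ G11 := g3 _ k2
  have f2 : 1 ≤ rem → q + 1 ≤ G11 := fun hrem1 => g3 _ (k3 hrem1)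
  have f4 : A0 ≤ (n + 1) * G10 + m := g4 _ (by omega)
  -- the numbers
  have hsum : ∑ j, (Fin.cons p0 (fun i : Fin r => q + if i.val < rem then 1 else 0) :
      Fin (r + 1) → ℕ) j = m := by
    rw [Fin.sum_univ_succ]
    simp only [Fin.cons_zero, Fin.cons_succ]
    rw [sum_bal r q rem hremlt.le, hK, hK2]
  have hval : ∀ j, (Fin.cons p0 (fun i : Fin r => q + if i.val < rem then 1 else 0) :
      Fin (r + 1) → ℕ) j = p0 ∨ (Fin.cons p0 (fun i : Fin r => q + if i.val < rem then 1 else 0) :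
      Fin (r + 1) → ℕ) j = q ∨ ((Fin.cons p0 (fun i : Fin r => q + if i.val < rem then 1 else 0) :
      Fin (r + 1) → ℕ) j = q + 1 ∧ 1 ≤ rem) := by
    intro j
    refine Fin.cases ?_ (fun i => ?_) j
    · left
      rfl
    · right
      simp only [Fin.cons_succ]
      split_ifs with hi
      · right
        exact ⟨rfl, by omega⟩
      · left
        rfl
  have hval' : ∀ j, (Fin.cons p0 (fun i : Fin r => q + if i.val < rem then 1 else 0) :
      Fin (r + 1) → ℕ) j = p0 ∨ (Fin.cons p0 (fun i : Fin r => q + if i.val < rem then 1 else 0) :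
      Fin (r + 1) → ℕ) j = q ∨ (Fin.cons p0 (fun i : Fin r => q + if i.val < rem then 1 else 0) :
      Fin (r + 1) → ℕ) j = q + 1 := fun j => (hval j).imp_right (Or.imp_right And.left)
  refine ⟨u, y, Fin.cons p0 (fun i : Fin r => q + if i.val < rem then 1 else 0), hBuy, g5, g6,
    ?_, ?_, ?_, ?_, ?_, ?_⟩
  · rw [hsum]
    exact hm.symm
  · intro j
    rcases hval j with hj | hj | ⟨hj, hj1⟩
    · rw [hj]
      omega
    · rw [hj]
      exact f1
    · rw [hj]
      exact f2 hj1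
  · rw [Fin.cons_zero]
    exact f0
  · intro j
    rw [hsum]
    rcases le_total ((Fin.cons p0 (fun i : Fin r => q + if i.val < rem then 1 else 0) :
      Fin (r + 1) → ℕ) j) G10 with hj | hj
    · exact ⟨_, le_rfl, hj, c1 _ (hval' j)⟩
    · exact ⟨G10, hj, le_rfl, f4⟩
  · rw [hsum]
    exact c2
  · intro j
    rw [hsum]
    have := c3 _ (hval' j)
    omega

end Pool.Agent.War5
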