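import Pool.Agent.War5.Stmts

/-!
# Simultaneous Waring decompositions, module NG3: the general conditions in degree 5
-/

set_option autoImplicit false

open Pool.Agent.War Pool.Agent.WarS

namespace Pool.Agent.War5

namespace NG3aux

theorem gg4 (n : ℕ) (hn : 2 ≤ n) : gg n 4 = P4 n := by
  unfold gg
  rw [if_neg (by omega), if_neg (by omega), if_pos rfl]

theorem gg3 (n : ℕ) (hn : 2 ≤ n) : gg n 3 = (n + 3) ^ 2 / 9 := by
  unfold gg
  rw [if_neg (by omega), if_pos rfl]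

theorem gg5 (n : ℕ) (hn : 3 ≤ n) : gg n 5 = NN n 5 / (n + 2) := by
  unfold gg
  rw [if_neg (by omega), if_neg (by omega), if_neg (by omega), if_neg (by omega)]

theorem P45 : P4 5 = 20 := by
  simp [P4, Finset.sum_range_succ]

theorem P44 : P4 4 = 13 := by
  simp [P4, Finset.sum_range_succ]

/-- The arithmetic of `g3`: the comparison for `c = c₀ + j`. -/
theorem g3arith (n c M N5 P : ℤ) (hn : 5 ≤ n) (hc : n + 2 ≤ c)
    (hM : 24 * M = (n + 2) * (n + 3) * (n + 4) * (n + 5))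
    (hN : 120 * N5 = (n + 1) * (n + 2) * (n + 3) * (n + 4) * (n + 5))
    (hP : (n + 4) * (n + 5) * (2 * n + 9) ≤ 54 * P + 30 + 48 * (n + 2)) :
    c * M < c * (c + 1) * (P - 2) + c + 1 + N5 := by
  obtain ⟨k, hk, rfl⟩ : ∃ k : ℤ, 0 ≤ k ∧ n = k + 5 := ⟨n - 5, by linarith, by ring⟩
  obtain ⟨j, hj, rfl⟩ : ∃ j : ℤ, 0 ≤ j ∧ c = k + 5 + 2 + j := ⟨c - (k + 5 + 2), by linarith, by ring⟩
  have hP2 : (k + 9) * (k + 10) * (2 * k + 19) - 48 * k - 474 ≤ 54 * (P - 2) := by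
    nlinarith [hP]
  have hPpos : 0 ≤ P - 2 := by nlinarith [mul_nonneg hk hk, mul_nonneg (mul_nonneg hk hk) hk]
  have hA : M ≤ (2 * k + 15) * (P - 2) := by
    have h1 : 54 * ((k + 7) * (k + 8) * (k + 9) * (k + 10)) ≤
        24 * (2 * k + 15) * ((k + 9) * (k + 10) * (2 * k + 19) - 48 * k - 474) := by
      have h2 : 24 * (2 * k + 15) * ((k + 9) * (k + 10) * (2 * k + 19) - 48 * k - 474) -
          54 * ((k + 7) * (k + 8) * (k + 9) * (k + 10)) =
          42 * k ^ 4 + 1620 * k ^ 3 + 20910 * k ^ 2 + 106452 * k + 172800 := by ring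
      have h3 : (0 : ℤ) ≤ 42 * k ^ 4 + 1620 * k ^ 3 + 20910 * k ^ 2 + 106452 * k + 172800 := by positivity
      linarith
    have h4 : 24 * (2 * k + 15) * ((k + 9) * (k + 10) * (2 * k + 19) - 48 * k - 474) ≤
        24 * (2 * k + 15) * (54 * (P - 2)) := mul_le_mul_of_nonneg_left hP2 (by positivity)
    nlinarith [hM]
  have hB : (k + 7) * M < (k + 7) * (k + 8) * (P - 2) + (k + 7) + 1 + N5 := by
    have h5 : 54 * ((k + 9) * (k + 10) * (4 * k + 29)) ≤
        120 * ((k + 9) * (k + 10) * (2 * k + 19) - 48 * k - 474) := by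
      have h6 : 120 * ((k + 9) * (k + 10) * (2 * k + 19) - 48 * k - 474) -
          54 * ((k + 9) * (k + 10) * (4 * k + 29)) =
          24 * k ^ 3 + 1170 * k ^ 2 + 9966 * k + 7380 := by ring
      have h7 : (0 : ℤ) ≤ 24 * k ^ 3 + 1170 * k ^ 2 + 9966 * k + 7380 := by positivity
      linarith
    have h8 : 54 * ((k + 9) * (k + 10) * (4 * k + 29)) ≤ 120 * (54 * (P - 2)) :=
      h5.trans (mul_le_mul_of_nonneg_left hP2 (by norm_num))
    have h9 := mul_le_mul_of_nonneg_left h8 (show (0 : ℤ) ≤ (k + 7) * (k + 8) by positivity)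
    nlinarith [hM, hN]
  have h10 : 0 ≤ j * ((2 * k + 15) * (P - 2) - M) := mul_nonneg hj (by linarith)
  have h11 : 0 ≤ j * j * (P - 2) := by positivity
  nlinarith [hB, h10, h11]

theorem g1arith (n c u y N5 : ℤ) (hn : 5 ≤ n) (hc0 : 0 ≤ c) (hc : c ≤ 2 * n + 1) (hu : 0 ≤ u)
    (hy : y ≤ c - 1) (h : N5 = c * u + y)
    (hN : 120 * N5 = (n + 1) * (n + 2) * (n + 3) * (n + 4) * (n + 5)) : 3 * (n + 1) ≤ u := by
  by_contra hcon
  have hu2 : u ≤ 3 * n + 2 := by linarith [Int.not_le.1 hcon]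
  have h1 : c * u ≤ (2 * n + 1) * (3 * n + 2) := mul_le_mul hc hu2 hu (by linarith)
  obtain ⟨k, hk, rfl⟩ : ∃ k : ℤ, 0 ≤ k ∧ n = k + 5 := ⟨n - 5, by linarith, by ring⟩
  have h2 : (k + 5 + 1) * (k + 5 + 2) * (k + 5 + 3) * (k + 5 + 4) * (k + 5 + 5) -
      120 * ((2 * (k + 5) + 1) * (3 * (k + 5) + 2) + 2 * (k + 5)) =
      k ^ 5 + 40 * k ^ 4 + 635 * k ^ 3 + 4280 * k ^ 2 + 11244 * k + 6600 := by ring
  have h3 : (0 : ℤ) < k ^ 5 + 40 * k ^ 4 + 635 * k ^ 3 + 4280 * k ^ 2 + 11244 * k + 6600 := by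
    positivity
  linarith

theorem g2arith (n u y N4 N5 : ℤ) (hn : 5 ≤ n) (hu : (n + 2) * u ≤ N5) (hy : y ≤ 2 * n)
    (h4 : 24 * N4 = (n + 1) * (n + 2) * (n + 3) * (n + 4))
    (h5 : 120 * N5 = (n + 1) * (n + 2) * (n + 3) * (n + 4) * (n + 5)) :
    u + (n + 1) * y + (n + 1) ≤ N4 := by
  obtain ⟨k, hk, rfl⟩ : ∃ k : ℤ, 0 ≤ k ∧ n = k + 5 := ⟨n - 5, by linarith, by ring⟩
  have h1 : (k + 5 + 3) * (k + 5 + 4) * (4 * (k + 5) + 5) - 120 * (2 * (k + 5) + 1) =
      4 * k ^ 3 + 93 * k ^ 2 + 473 * k + 480 := by ring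
  have h2 : (0 : ℤ) ≤ 4 * k ^ 3 + 93 * k ^ 2 + 473 * k + 480 := by positivity
  have h3 : (k + 5 + 1) * y ≤ (k + 5 + 1) * (2 * (k + 5)) :=
    mul_le_mul_of_nonneg_left hy (by linarith)
  have h6 : 0 ≤ (k + 5 + 1) * (k + 5 + 2) *
      ((k + 5 + 3) * (k + 5 + 4) * (4 * (k + 5) + 5) - 120 * (2 * (k + 5) + 1)) := by
    rw [h1]
    positivity
  have h7 : 120 * ((k + 5 + 2) * (u + (k + 5 + 1) * y + (k + 5 + 1))) ≤ 120 * ((k + 5 + 2) * N4) := by
    have h8 : (k + 5 + 2) * ((k + 5 + 1) * y) ≤ (k + 5 + 2) * ((k + 5 + 1) * (2 * (k + 5))) :=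
      mul_le_mul_of_nonneg_left h3 (by linarith)
    have h9 : 120 * ((k + 5 + 2) * N4) = 5 * (k + 5 + 2) * (24 * N4) := by ring
    rw [h9, h4]
    nlinarith [h5, h6, h8, hu]
  have h10 : (k + 5 + 2) * (u + (k + 5 + 1) * y + (k + 5 + 1)) ≤ (k + 5 + 2) * N4 := by linarith
  exact le_of_mul_le_mul_left h10 (by linarith)

theorem g6arith (n y P : ℤ) (hn : 5 ≤ n) (hy : y ≤ 2 * n)
    (hP : (n + 3) * (n + 4) * (2 * n + 7) ≤ 54 * P + 30 + 48 * (n + 1)) : y ≤ P := by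
  obtain ⟨k, hk, rfl⟩ : ∃ k : ℤ, 0 ≤ k ∧ n = k + 5 := ⟨n - 5, by linarith, by ring⟩
  have h1 : (k + 5 + 3) * (k + 5 + 4) * (2 * (k + 5) + 7) - 30 - 48 * (k + 5 + 1) - 108 * (k + 5) =
      2 * k ^ 3 + 51 * k ^ 2 + 277 * k + 366 := by ring
  have h2 : (0 : ℤ) ≤ 2 * k ^ 3 + 51 * k ^ 2 + 277 * k + 366 := by positivity
  linarith

theorem g4arith (n r t u y M N5 N3 q : ℤ) (hn : 5 ≤ n) (hr : 1 ≤ r)
    (hu : (n + 2) * u ≤ N5) (hy : y ≤ n + r)
    (hM : 24 * M = (n + 2) * (n + 3) * (n + 4) * (n + 5))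
    (h5 : 120 * N5 = (n + 1) * (n + 2) * (n + 3) * (n + 4) * (n + 5))
    (h3 : 6 * N3 = (n + 2) * (n + 3) * (n + 4)) (hq : (n + 4) ^ 2 ≤ 9 * q + 8)
    (ht : (r + 1) * M ≤ (n + r + 2) * t + (r + 1) * u + (n + 1) * y) :
    N3 ≤ (n + 1) * q + t := by
  have s0 : 5 * N5 = (n + 1) * M := by
    have e : 24 * (5 * N5) = 24 * ((n + 1) * M) := by
      calc 24 * (5 * N5) = 120 * N5 := by ring
        _ = (n + 1) * (24 * M) := by rw [h5, hM]; ring
        _ = 24 * ((n + 1) * M) := by ring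
    linarith
  have hMpos : 0 < M := by
    have : 0 < 24 * M := by rw [hM]; positivity
    linarith
  have s1 : 0 ≤ M - u := by
    have e : 0 ≤ (n + 2) * (M - u) := by nlinarith
    exact nonneg_of_mul_nonneg_right e (by linarith)
  have s2 : 0 ≤ (n + r + 2) * ((n + 3) * t - 2 * (M - u) + (n + 3) * (n + 1)) := by
    have e1 : 0 ≤ (n + 1) * (r - 1) * (M - u) :=
      mul_nonneg (mul_nonneg (by linarith) (by linarith)) s1
    have e2 : (n + 3) * ((n + 1) * y) ≤ (n + 3) * ((n + 1) * (n + r + 2)) :=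
      mul_le_mul_of_nonneg_left (mul_le_mul_of_nonneg_left (by linarith) (by linarith)) (by linarith)
    have e3 : (n + 3) * ((r + 1) * M) ≤ (n + 3) * ((n + r + 2) * t + (r + 1) * u + (n + 1) * y) :=
      mul_le_mul_of_nonneg_left ht (by linarith)
    nlinarith [e1, e2, e3]
  have s3 : 0 ≤ (n + 3) * t - 2 * (M - u) + (n + 3) * (n + 1) :=
    nonneg_of_mul_nonneg_right s2 (by linarith)
  have s4 : 0 ≤ (n + 2) * (n + 3) * (120 * t - ((n + 4) * (n + 5) * (8 * n + 18) - 120 * (n + 1))) := by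
    have e1 : 0 ≤ (n + 2) * ((n + 3) * t - 2 * (M - u) + (n + 3) * (n + 1)) :=
      mul_nonneg (by linarith) s3
    nlinarith [e1, hM, h5, hu]
  have s5 : 0 ≤ 120 * t - ((n + 4) * (n + 5) * (8 * n + 18) - 120 * (n + 1)) :=
    nonneg_of_mul_nonneg_right s4 (by positivity)
  have s6 : (n + 1) * (n + 4) ^ 2 ≤ (n + 1) * (9 * q + 8) := mul_le_mul_of_nonneg_left hq (by linarith)
  have s7 : 0 ≤ 3 * ((n + 4) * (n + 5) * (8 * n + 18) - 120 * (n + 1)) +
      40 * (n + 1) * ((n + 4) ^ 2 - 8) - 60 * (n + 2) * (n + 3) * (n + 4) := by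
    obtain ⟨k, hk, rfl⟩ : ∃ k : ℤ, 0 ≤ k ∧ n = k + 5 := ⟨n - 5, by linarith, by ring⟩
    have e : 3 * ((k + 5 + 4) * (k + 5 + 5) * (8 * (k + 5) + 18) - 120 * (k + 5 + 1)) +
      40 * (k + 5 + 1) * ((k + 5 + 4) ^ 2 - 8) - 60 * (k + 5 + 2) * (k + 5 + 3) * (k + 5 + 4) =
      4 * k ^ 3 + 150 * k ^ 2 + 886 * k + 780 := by ring
    rw [e]
    positivity
  nlinarith [s5, s6, s7, h3]

end NG3aux

open NG3aux in
theorem x_NG3 (hCF : S_CF) (hP : S_P4B) : S_NG3 := by
  intro n r u y hr hrn hS hN hy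
  have hn4 : 4 ≤ n := by
    by_contra hcon
    apply hS
    unfold Small
    omega
  obtain ⟨-, -, cf4, cf5, -⟩ := hCF n
  obtain ⟨-, cf3', cf4', -, -⟩ := hCF (n + 1)
  obtain ⟨-, hP1⟩ := hP n
  obtain ⟨-, hP2⟩ := hP (n + 1)
  have e1 : gg (n + 1) 4 = P4 (n + 1) := gg4 _ (by omega)
  have e2 : gg (n + 1) 3 = (n + 1 + 3) ^ 2 / 9 := gg3 _ (by omega)
  have e3 : gg n 5 = NN n 5 / (n + 2) := gg5 _ (by omega)
  have e4 : gg n 4 = P4 n := gg4 _ (by omega)
  rcases Nat.eq_or_lt_of_le hn4 with h4 | h5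
  · subst h4
    have hr3 : r ≤ 3 := by
      by_contra hcon
      apply hS
      unfold Small
      omega
    norm_num at cf4 cf5 cf3' cf4'
    have N44 : NN 4 4 = 70 := by omega
    have N45 : NN 4 5 = 126 := by omega
    have N53 : NN 5 3 = 56 := by omega
    have N54 : NN 5 4 = 126 := by omega
    rw [N45] at hN
    refine ⟨?_, ?_, ?_, ?_, ?_, ?_⟩
    · interval_cases r <;> omega
    · show u + (4 + 1) * y + (4 + 1) ≤ NN 4 4
      rw [N44]
      interval_cases r <;> omega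
    · intro p hp
      have hp' : (4 + r + 2) * p + u ≤ NN 5 4 + y + 2 * (4 + r + 2) := hp
      rw [N54] at hp'
      show p ≤ gg 5 4
      rw [gg4 5 (by omega), P45]
      interval_cases r <;> omega
    · intro t ht
      have ht' : (r + 1) * NN 5 4 ≤ (4 + r + 2) * t + (r + 1) * u + (4 + 1) * y := ht
      rw [N54] at ht'
      show NN 5 3 ≤ (4 + 1) * gg 5 3 + t
      rw [N53, gg3 5 (by omega)]
      norm_num
      interval_cases r <;> omega
    · show u ≤ gg 4 5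
      rw [gg5 4 (by omega), N45]
      norm_num
      interval_cases r <;> omega
    · show y ≤ gg 4 4
      rw [gg4 4 (by omega), P44]
      interval_cases r <;> omega
  · have h5n : 5 ≤ n := h5
    have hyc : y ≤ n + r := hy
    have hcu : (n + r + 1) * u ≤ NN n 5 := by rw [hN]; omega
    have hu2 : (n + 2) * u ≤ NN n 5 := (Nat.mul_le_mul_right u (by omega)).trans hcu
    refine ⟨?_, ?_, ?_, ?_, ?_, ?_⟩
    · have h := g1arith n (n + r + 1) u y (NN n 5) (by exact_mod_cast h5n) (by positivity)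
        (by push_cast; linarith [(by exact_mod_cast hrn : (r : ℤ) ≤ n)]) (by positivity)
        (by linarith [(by exact_mod_cast hyc : (y : ℤ) ≤ n + r)]) (by exact_mod_cast hN)
        (by exact_mod_cast cf5)
      exact_mod_cast h
    · have h := g2arith n u y (NN n 4) (NN n 5) (by exact_mod_cast h5n) (by exact_mod_cast hu2)
        (by linarith [(by exact_mod_cast hyc : (y : ℤ) ≤ n + r), (by exact_mod_cast hrn : (r : ℤ) ≤ n)])
        (by exact_mod_cast cf4) (by exact_mod_cast cf5)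
      exact_mod_cast h
    · intro p hp
      have hp' : (n + r + 2) * p + u ≤ NN (n + 1) 4 + y + 2 * (n + r + 2) := hp
      show p ≤ gg (n + 1) 4
      rw [e1]
      by_contra hcon
      have hpP : P4 (n + 1) + 1 ≤ p := Nat.lt_of_not_le hcon
      have h := g3arith n (n + r + 1) (NN (n + 1) 4) (NN n 5) (P4 (n + 1)) (by exact_mod_cast h5n)
        (by linarith [(by exact_mod_cast hr : (1 : ℤ) ≤ r)])
        (by
          have e : ((24 * NN (n + 1) 4 : ℕ) : ℤ) =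
              (((n + 1 + 1) * (n + 1 + 2) * (n + 1 + 3) * (n + 1 + 4) : ℕ) : ℤ) := by rw [cf4']
          push_cast at e
          linarith)
        (by exact_mod_cast cf5)
        (by
          have e : (((n + 1 + 3) * (n + 1 + 4) * (2 * (n + 1) + 7) : ℕ) : ℤ) ≤
              ((54 * P4 (n + 1) + 30 + 48 * (n + 1 + 1) : ℕ) : ℤ) := by exact_mod_cast hP2
          push_cast at e
          linarith)
      have hpz : ((P4 (n + 1) : ℤ)) + 1 ≤ p := by exact_mod_cast hpP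
      have hp2 : ((n : ℤ) + r + 2) * p + u ≤ NN (n + 1) 4 + y + 2 * (n + r + 2) := by
        exact_mod_cast hp'
      have hN' : (NN n 5 : ℤ) = (n + r + 1) * u + y := by exact_mod_cast hN
      have hyz : (y : ℤ) ≤ n + r := by exact_mod_cast hyc
      have hm : ((n : ℤ) + r + 2) * (P4 (n + 1) + 1) ≤ (n + r + 2) * p :=
        mul_le_mul_of_nonneg_left hpz (by positivity)
      have hk : ((n : ℤ) + r + 1) * ((n + r + 2) * (P4 (n + 1) + 1) + u) ≤
          (n + r + 1) * (NN (n + 1) 4 + y + 2 * (n + r + 2)) :=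
        mul_le_mul_of_nonneg_left (by linarith) (by positivity)
      have hyy : ((n : ℤ) + r + 2) * y ≤ (n + r + 2) * (n + r) :=
        mul_le_mul_of_nonneg_left hyz (by positivity)
      nlinarith [h, hk, hyy, hN']
    · intro t ht
      have ht' : (r + 1) * NN (n + 1) 4 ≤ (n + r + 2) * t + (r + 1) * u + (n + 1) * y := ht
      show NN (n + 1) 3 ≤ (n + 1) * gg (n + 1) 3 + t
      rw [e2]
      have hq : (n + 4) ^ 2 ≤ 9 * ((n + 1 + 3) ^ 2 / 9) + 8 := by
        have e : n + 1 + 3 = n + 4 := by omega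
        rw [e]
        omega
      have h := g4arith n r t u y (NN (n + 1) 4) (NN n 5) (NN (n + 1) 3)
        (((n + 1 + 3) ^ 2 / 9 : ℕ) : ℤ) (by exact_mod_cast h5n) (by exact_mod_cast hr)
        (by exact_mod_cast hu2) (by exact_mod_cast hyc)
        (by
          have e : ((24 * NN (n + 1) 4 : ℕ) : ℤ) =
              (((n + 1 + 1) * (n + 1 + 2) * (n + 1 + 3) * (n + 1 + 4) : ℕ) : ℤ) := by rw [cf4']
          push_cast at e
          linarith)
        (by exact_mod_cast cf5)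
        (by
          have e : ((6 * NN (n + 1) 3 : ℕ) : ℤ) =
              (((n + 1 + 1) * (n + 1 + 2) * (n + 1 + 3) : ℕ) : ℤ) := by rw [cf3']
          push_cast at e
          linarith)
        (by exact_mod_cast hq) (by exact_mod_cast ht')
      exact_mod_cast h
    · show u ≤ gg n 5
      rw [e3, Nat.le_div_iff_mul_le (by omega), mul_comm]
      exact hu2
    · show y ≤ gg n 4
      rw [e4]
      have h := g6arith n y (P4 n) (by exact_mod_cast h5n)
        (by linarith [(by exact_mod_cast hyc : (y : ℤ) ≤ n + r), (by exact_mod_cast hrn : (r : ℤ) ≤ n)])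
        (by exact_mod_cast hP1)
      exact_mod_cast h

end Pool.Agent.War5
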