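import Pool.Agent.War5.Stmts

/-!
# NG4: the numerical conditions in degree `6`

`x_NG4 : S_CF → S_P4B → S_NG4` (PAPER.md, section 4).
-/

set_option autoImplicit false

open Pool.Agent.War Pool.Agent.WarS

namespace Pool.Agent.War5

namespace NG4aux

theorem c1 (n : ℕ) (hn : 3 ≤ n) :
    720 * ((2 * n + 1) * (3 * n + 2) + 2 * n) <
      (n + 1) * (n + 2) * (n + 3) * (n + 4) * (n + 5) * (n + 6) := by
  obtain ⟨k, rfl⟩ := Nat.exists_eq_add_of_le hn
  nlinarith [Nat.zero_le k, Nat.zero_le (k ^ 2), Nat.zero_le (k ^ 3), Nat.zero_le (k ^ 4),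
    Nat.zero_le (k ^ 5), Nat.zero_le (k ^ 6)]

theorem c2 (n : ℕ) (hn : 3 ≤ n) :
    (n + 1) * (n + 2) * (n + 3) * (n + 4) * (n + 5) * (n + 6) +
      720 * ((n + 2) * (n + 1) * (2 * n + 1)) ≤
      6 * ((n + 2) * ((n + 1) * (n + 2) * (n + 3) * (n + 4) * (n + 5))) := by
  obtain ⟨k, rfl⟩ := Nat.exists_eq_add_of_le hn
  nlinarith [Nat.zero_le k, Nat.zero_le (k ^ 2), Nat.zero_le (k ^ 3), Nat.zero_le (k ^ 4),
    Nat.zero_le (k ^ 5), Nat.zero_le (k ^ 6)]

theorem c3 (n : ℕ) (hn : 3 ≤ n) :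
    120 * (21 * (n + 3)) ≤ (n + 2) * (n + 3) * (n + 4) * (n + 5) * (n + 6) := by
  obtain ⟨k, rfl⟩ := Nat.exists_eq_add_of_le hn
  nlinarith [Nat.zero_le k, Nat.zero_le (k ^ 2), Nat.zero_le (k ^ 3), Nat.zero_le (k ^ 4),
    Nat.zero_le (k ^ 5)]

theorem c4 (n : ℕ) (hn : 4 ≤ n) :
    720 * ((n + 2) * (3 * n + 6) + (n + 1)) <
      (n + 1) * (n + 2) * (n + 3) * (n + 4) * (n + 5) * (n + 6) := by
  obtain ⟨k, rfl⟩ := Nat.exists_eq_add_of_le hn
  nlinarith [Nat.zero_le k, Nat.zero_le (k ^ 2), Nat.zero_le (k ^ 3), Nat.zero_le (k ^ 4),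
    Nat.zero_le (k ^ 5), Nat.zero_le (k ^ 6)]

theorem c5 (n : ℕ) (hn : 3 ≤ n) :
    120 * ((n + 2) * (2 * n)) ≤ (n + 1) * (n + 2) * (n + 3) * (n + 4) * (n + 5) := by
  obtain ⟨k, rfl⟩ := Nat.exists_eq_add_of_le hn
  nlinarith [Nat.zero_le k, Nat.zero_le (k ^ 2), Nat.zero_le (k ^ 3), Nat.zero_le (k ^ 4),
    Nat.zero_le (k ^ 5)]

theorem c6 (n : ℕ) (hn : 3 ≤ n) :
    45 * ((n + 2) * (n + 3) * (n + 4) * (n + 5)) + 1080 * n +
      20 * ((n + 1) * (30 + 48 * (n + 2))) ≤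
      3 * ((n + 4) * (n + 5) * (n + 6) * (5 * n + 11)) +
        20 * ((n + 1) * ((n + 4) * (n + 5) * (2 * n + 9))) := by
  obtain ⟨k, rfl⟩ := Nat.exists_eq_add_of_le hn
  nlinarith [Nat.zero_le k, Nat.zero_le (k ^ 2), Nat.zero_le (k ^ 3), Nat.zero_le (k ^ 4)]

/-- comparison with the case `r = 1` -/
theorem red (n r M u t y : ℤ) (hn : 0 ≤ n) (hr : 1 ≤ r) (ht : 0 ≤ t) (hy : y ≤ n + r)
    (h : (r + 1) * M ≤ (n + r + 2) * t + (r + 1) * u + (n + 1) * y) :
    2 * (M - u) < (n + 3) * (t + n + 1) := by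
  have h1 : (n + 1) * y ≤ (n + 1) * (n + r) := mul_le_mul_of_nonneg_left hy (by linarith)
  have h2 : (r + 1) * (M - u - (t + n + 1)) < (n + 1) * (t + n + 1) := by nlinarith
  by_cases h3 : 0 ≤ M - u - (t + n + 1)
  · have h4 : 2 * (M - u - (t + n + 1)) ≤ (r + 1) * (M - u - (t + n + 1)) :=
      mul_le_mul_of_nonneg_right (by linarith) h3
    linarith
  · push Not at h3
    nlinarith

end NG4aux

theorem x_NG4 (hCF : S_CF) (hP : S_P4B) : S_NG4 := by
  intro n r u y hr1 hrn hS h6 hy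
  have hn : 3 ≤ n := by
    by_contra hcon
    apply hS
    unfold Small
    have : n = 1 ∨ n = 2 := by omega
    rcases this with h | h
    · left; omega
    · right; left; omega
  have f6 : 720 * NN n 6 = (n + 1) * (n + 2) * (n + 3) * (n + 4) * (n + 5) * (n + 6) :=
    (hCF n).2.2.2.2
  have f5 : 120 * NN n 5 = (n + 1) * (n + 2) * (n + 3) * (n + 4) * (n + 5) := (hCF n).2.2.2.1
  have fM : 120 * NN (n + 1) 5 = (n + 2) * (n + 3) * (n + 4) * (n + 5) * (n + 6) := by
    have := (hCF (n + 1)).2.2.2.1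
    rw [this]
  have fK : 24 * NN (n + 1) 4 = (n + 2) * (n + 3) * (n + 4) * (n + 5) := by
    have := (hCF (n + 1)).2.2.1
    rw [this]
  have hg5 : gg (n + 1) (4 + 1) = NN (n + 1) 5 / (n + 3) := by
    unfold gg
    rw [if_neg (by omega), if_neg (by omega), if_neg (by omega), if_neg (by omega)]
  have hg4 : gg (n + 1) 4 = P4 (n + 1) := by
    unfold gg
    rw [if_neg (by omega), if_neg (by omega), if_pos rfl]
  have hgn6 : gg n (4 + 2) = NN n 6 / (n + 2) := by
    unfold gg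
    rw [if_neg (by omega), if_neg (by omega), if_neg (by omega), if_neg (by omega)]
  have hgn5 : gg n (4 + 1) = NN n 5 / (n + 2) := by
    unfold gg
    rw [if_neg (by omega), if_neg (by omega), if_neg (by omega), if_neg (by omega)]
  have hMM : NN (n + 1) (4 + 1) = NN (n + 1) 5 := rfl
  have h66 : NN n (4 + 2) = NN n 6 := rfl
  have h55 : NN n (4 + 1) = NN n 5 := rfl
  -- the lower bound for `u`
  have g1 : 3 * (n + 1) ≤ u := by
    by_contra hcon
    have hu : u ≤ 3 * n + 2 := by omega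
    have e1 : (n + r + 1) * u ≤ (2 * n + 1) * (3 * n + 2) := Nat.mul_le_mul (by omega) hu
    have e2 := NG4aux.c1 n hn
    omega
  -- `(n + 2) u ≤ N_6`
  have hu6 : (n + 2) * u + y ≤ NN n 6 := by
    have e1 : (n + 2) * u ≤ (n + r + 1) * u := Nat.mul_le_mul_right u (by omega)
    omega
  refine ⟨g1, ?_, ?_, ?_, ?_, ?_⟩
  · -- g2
    rw [h55]
    have e1 : (n + 2) * ((n + 1) * y + (n + 1)) ≤ (n + 2) * (n + 1) * (2 * n + 1) := by
      have : (n + 2) * ((n + 1) * y + (n + 1)) = (n + 2) * (n + 1) * (y + 1) := by ring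
      rw [this]
      exact Nat.mul_le_mul_left _ (by omega)
    have e2 := NG4aux.c2 n hn
    rw [← f6, ← f5] at e2
    have e3 : 6 * ((n + 2) * (120 * NN n 5)) = 720 * ((n + 2) * NN n 5) := by ring
    rw [e3] at e2
    have e4 : (n + 2) * (u + (n + 1) * y + (n + 1)) ≤ (n + 2) * NN n 5 := by
      have : (n + 2) * (u + (n + 1) * y + (n + 1)) =
        (n + 2) * u + (n + 2) * ((n + 1) * y + (n + 1)) := by ring
      omega
    exact Nat.le_of_mul_le_mul_left e4 (by omega)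
  · -- g3
    intro p hp
    rw [hg5, Nat.le_div_iff_mul_le (by omega)]
    rw [hMM] at hp
    by_contra hcon
    have hM : NN (n + 1) 5 + 1 ≤ (n + 3) * p := by
      rw [mul_comm (n + 3) p]
      omega
    by_cases hr2 : r = 1
    · subst hr2
      have e0 : n + 1 + 2 = n + 3 := by omega
      rw [e0] at hp
      have e1 : u ≤ 3 * n + 6 := by omega
      by_cases hn4 : 4 ≤ n
      · have e2 := NG4aux.c4 n hn4
        have e3 : (n + 1 + 1) * u ≤ (n + 2) * (3 * n + 6) := Nat.mul_le_mul (by omega) e1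
        rw [← f6] at e2
        omega
      · have hn3 : n = 3 := by omega
        subst hn3
        have e4 : NN 3 6 = 84 := by omega
        rw [h66, e4] at h6
        omega
    · have hr3 : 2 ≤ r := by omega
      obtain ⟨j, rfl⟩ := Nat.exists_eq_add_of_le hr3
      have e0 := NG4aux.c3 n hn
      rw [← fM] at e0
      have e1 : (n + 3) * ((n + (2 + j) + 2) * p) = (n + (2 + j) + 2) * ((n + 3) * p) := by ring
      have e2 : (n + (2 + j) + 2) * (NN (n + 1) 5 + 1) ≤ (n + (2 + j) + 2) * ((n + 3) * p) :=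
        Nat.mul_le_mul_left _ hM
      have e3 : (n + 3) * ((n + (2 + j) + 2) * p + u) ≤
          (n + 3) * (NN (n + 1) 5 + y + 2 * (n + (2 + j) + 2)) := Nat.mul_le_mul_left _ hp
      have e4 : (n + 3) * (3 * (n + 1)) ≤ (n + 3) * u := Nat.mul_le_mul_left _ g1
      have e5 : (n + 3) * y ≤ (n + 3) * (n + (2 + j)) := Nat.mul_le_mul_left _ hy
      have e6 : 21 * (n + 3) ≤ NN (n + 1) 5 := by omega
      have e7 : (j + 1) * (21 * (n + 3)) ≤ (j + 1) * NN (n + 1) 5 := Nat.mul_le_mul_left _ e6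
      generalize NN (n + 1) 5 = M at *
      nlinarith
  · -- g4
    intro t ht
    rw [hg4]
    rw [hMM] at ht
    by_contra hcon
    have hcon' : (n + 1) * P4 (n + 1) + t + 1 ≤ NN (n + 1) 4 := by omega
    have e1 := NG4aux.red (n : ℤ) r (NN (n + 1) 5) u t y (by positivity) (by exact_mod_cast hr1)
      (by positivity) (by exact_mod_cast hy) (by exact_mod_cast ht)
    have e2 := (hP (n + 1)).2
    have e3 : ((n + 1) * ((n + 4) * (n + 5) * (2 * n + 9)) : ℕ) ≤
        (n + 1) * (54 * P4 (n + 1) + 30 + 48 * (n + 2)) := by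
      refine Nat.mul_le_mul_left _ ?_
      have : (n + 1 + 3) * (n + 1 + 4) * (2 * (n + 1) + 7) = (n + 4) * (n + 5) * (2 * n + 9) := by
        ring
      rw [← this]
      exact e2
    have e4 := NG4aux.c6 n hn
    have e5 : 2 * ((n + 2) * NN (n + 1) 5) < (n + 2) * (n + 3) * (t + n + 1) + 2 * NN n 6 := by
      zify
      have hu6' : ((n : ℤ) + 2) * u + y ≤ NN n 6 := by exact_mod_cast hu6
      have hy0 : (0 : ℤ) ≤ y := by positivity
      nlinarith
    -- multiply by `360`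
    have e6 : (n + 2) * (n + 3) * ((n + 4) * (n + 5) * (n + 6) * (5 * n + 11)) <
        (n + 2) * (n + 3) * (360 * (t + n + 1)) := by
      have a1 : 720 * ((n + 2) * NN (n + 1) 5) = 6 * ((n + 2) * (120 * NN (n + 1) 5)) := by ring
      rw [fM] at a1
      have a2 : 6 * ((n + 2) * ((n + 2) * (n + 3) * (n + 4) * (n + 5) * (n + 6))) =
          (n + 2) * (n + 3) * ((n + 4) * (n + 5) * (n + 6) * (5 * n + 11)) +
          (n + 1) * (n + 2) * (n + 3) * (n + 4) * (n + 5) * (n + 6) := by ring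
      rw [a2, ← f6] at a1
      have a3 : (n + 2) * (n + 3) * (360 * (t + n + 1)) = 360 * ((n + 2) * (n + 3) * (t + n + 1)) := by
        ring
      rw [a3]
      omega
    have e7 : (n + 4) * (n + 5) * (n + 6) * (5 * n + 11) < 360 * (t + n + 1) :=
      Nat.lt_of_mul_lt_mul_left e6
    rw [← fK] at e4
    linarith
  · -- g5
    rw [hgn6, Nat.le_div_iff_mul_le (by omega), mul_comm]
    omega
  · -- g6
    rw [hgn5, Nat.le_div_iff_mul_le (by omega), mul_comm]
    have e1 := NG4aux.c5 n hn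
    have e2 : (n + 2) * y ≤ (n + 2) * (2 * n) := Nat.mul_le_mul_left _ (by omega)
    omega

end Pool.Agent.War5
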