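import Pool.Agent.War5.Stmts

/-!
# NG5: the numerical conditions in degrees `≥ 7`, at least four variables

`x_NG5 : S_CF → S_NG5` (PAPER.md, section 4).
-/

set_option autoImplicit false

open Pool.Agent.War Pool.Agent.WarS

namespace Pool.Agent.War5

namespace NG5aux

theorem ratio (n d : ℕ) : NN n d * (n + d + 1) = NN n (d + 1) * (d + 1) := by
  have h := Nat.choose_mul_succ_eq (n + d) n
  have h1 : n + d + 1 - n = d + 1 := by omega
  rw [h1] at h
  exact h

/-- `T_7` -/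
theorem T7 (hCF : S_CF) (n : ℕ) :
    5040 * NN n 7 = (n + 1) * (n + 2) * (n + 3) * (n + 4) * (n + 5) * (n + 6) * (n + 7) := by
  have h := (hCF n).2.2.2.2
  have h2 := ratio n 6
  have h3 : NN n 6 * (n + 7) = NN n 7 * 7 := h2
  calc 5040 * NN n 7 = 720 * (NN n 7 * 7) := by ring
    _ = 720 * (NN n 6 * (n + 7)) := by rw [h3]
    _ = (720 * NN n 6) * (n + 7) := by ring
    _ = _ := by rw [h]

theorem b1 (n : ℕ) (hn : 3 ≤ n) :
    15120 * (2 * n + 1) ≤ (n + 2) * (n + 3) * (n + 4) * (n + 5) * (n + 6) * (n + 7) := by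
  obtain ⟨k, rfl⟩ := Nat.exists_eq_add_of_le hn
  nlinarith [Nat.zero_le (k ^ 2), Nat.zero_le (k ^ 3), Nat.zero_le (k ^ 4), Nat.zero_le (k ^ 5),
    Nat.zero_le (k ^ 6)]

theorem b2 (n : ℕ) (hn : 3 ≤ n) :
    5040 * (3 * n + 8) ≤ (n + 1) * (n + 3) * (n + 4) * (n + 5) * (n + 6) * (n + 7) := by
  obtain ⟨k, rfl⟩ := Nat.exists_eq_add_of_le hn
  nlinarith [Nat.zero_le (k ^ 2), Nat.zero_le (k ^ 3), Nat.zero_le (k ^ 4), Nat.zero_le (k ^ 5),
    Nat.zero_le (k ^ 6)]

theorem b3 (n : ℕ) (hn : 3 ≤ n) :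
    5040 * (2 * n + 1) ≤ (n + 3) * (n + 4) * (n + 5) * (n + 6) * (6 * n + 7) := by
  obtain ⟨k, rfl⟩ := Nat.exists_eq_add_of_le hn
  nlinarith [Nat.zero_le (k ^ 2), Nat.zero_le (k ^ 3), Nat.zero_le (k ^ 4), Nat.zero_le (k ^ 5)]

theorem b4 (n : ℕ) (hn : 3 ≤ n) :
    720 * (2 * n * (n + 2)) ≤ (n + 1) * (n + 2) * (n + 3) * (n + 4) * (n + 5) * (n + 6) := by
  obtain ⟨k, rfl⟩ := Nat.exists_eq_add_of_le hn
  nlinarith [Nat.zero_le (k ^ 2), Nat.zero_le (k ^ 3), Nat.zero_le (k ^ 4), Nat.zero_le (k ^ 5),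
    Nat.zero_le (k ^ 6)]

theorem b5 (n : ℕ) (hn : 3 ≤ n) :
    720 * (6 * (n + 3)) ≤ (n + 2) * (n + 3) * (n + 4) * (n + 5) * (n + 6) * (n + 7) := by
  obtain ⟨k, rfl⟩ := Nat.exists_eq_add_of_le hn
  nlinarith [Nat.zero_le (k ^ 2), Nat.zero_le (k ^ 3), Nat.zero_le (k ^ 4), Nat.zero_le (k ^ 5),
    Nat.zero_le (k ^ 6)]

theorem gg_eq {n k : ℕ} (h1 : 3 ≤ n) (h2 : 5 ≤ k) : gg n k = NN n k / (n + 2) := by
  unfold gg
  rw [if_neg (by omega), if_neg (by omega), if_neg (by omega), if_neg (by omega)]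

end NG5aux

open NG5aux in
theorem x_NG5 (hCF : S_CF) : S_NG5 := by
  intro n d r u y hn hd hr hrn hT hy
  have hT7 : NN n 7 ≤ NN n (d + 2) := NN_mono_right (by omega)
  have hT6 : NN n 6 ≤ NN n (d + 1) := NN_mono_right (by omega)
  have hM6 : NN (n + 1) 6 ≤ NN (n + 1) (d + 1) := NN_mono_right (by omega)
  have e7 := T7 hCF n
  have e6 : 720 * NN n 6 = (n + 1) * (n + 2) * (n + 3) * (n + 4) * (n + 5) * (n + 6) :=
    (hCF n).2.2.2.2
  have eM : 720 * NN (n + 1) 6 = (n + 2) * (n + 3) * (n + 4) * (n + 5) * (n + 6) * (n + 7) :=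
    (hCF (n + 1)).2.2.2.2
  -- `T_7 ≥ 3 m (2 m - 1)`
  have c1 : 3 * (n + 1) * (2 * n + 1) ≤ NN n 7 := by
    have := Nat.mul_le_mul_left (n + 1) (b1 n hn)
    have h2 : 5040 * (3 * (n + 1) * (2 * n + 1)) ≤ 5040 * NN n 7 := by
      rw [e7]
      calc 5040 * (3 * (n + 1) * (2 * n + 1)) = (n + 1) * (15120 * (2 * n + 1)) := by ring
        _ ≤ _ := this
        _ = _ := by ring
    exact Nat.le_of_mul_le_mul_left h2 (by norm_num)
  have c2 : (n + 2) * (3 * n + 8) ≤ NN n 7 := by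
    have := Nat.mul_le_mul_left (n + 2) (b2 n hn)
    have h2 : 5040 * ((n + 2) * (3 * n + 8)) ≤ 5040 * NN n 7 := by
      rw [e7]
      calc 5040 * ((n + 2) * (3 * n + 8)) = (n + 2) * (5040 * (3 * n + 8)) := by ring
        _ ≤ _ := this
        _ = _ := by ring
    exact Nat.le_of_mul_le_mul_left h2 (by norm_num)
  have c4 : 2 * n * (n + 2) ≤ NN n 6 := by
    have := b4 n hn
    rw [← e6] at this
    exact Nat.le_of_mul_le_mul_left this (by norm_num)
  have c5 : 6 * (n + 3) ≤ NN (n + 1) 6 := by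
    have := b5 n hn
    rw [← eM] at this
    exact Nat.le_of_mul_le_mul_left this (by norm_num)
  -- `u ≥ 3 m`
  have g1 : 3 * (n + 1) ≤ u := by
    by_contra hlt
    push Not at hlt
    have h1 : (n + r + 1) * u ≤ (2 * n + 1) * (3 * n + 2) :=
      Nat.mul_le_mul (by omega) (by omega)
    nlinarith
  -- `(m + 1) u ≤ T`
  have hu : (n + 2) * u ≤ NN n (d + 2) := by
    have : (n + 2) * u ≤ (n + r + 1) * u := Nat.mul_le_mul_right _ (by omega)
    omega
  -- `T_{d+1} - u ≥ m (2 m - 1)`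
  have key : u + (n + 1) * (2 * n + 1) ≤ NN n (d + 1) := by
    have hrat : NN n (d + 1) * (n + d + 2) = NN n (d + 2) * (d + 2) := ratio n (d + 1)
    have h1 : (n + 2) * ((n + 1) * (2 * n + 1)) * 7 ≤ NN n (d + 1) * (6 * n + 7) := by
      have h2 : 720 * ((n + 2) * ((n + 1) * (2 * n + 1)) * 7) ≤ 720 * (NN n 6 * (6 * n + 7)) := by
        calc 720 * ((n + 2) * ((n + 1) * (2 * n + 1)) * 7)
            = (n + 2) * (n + 1) * (5040 * (2 * n + 1)) := by ring
          _ ≤ (n + 2) * (n + 1) * ((n + 3) * (n + 4) * (n + 5) * (n + 6) * (6 * n + 7)) :=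
              Nat.mul_le_mul_left _ (b3 n hn)
          _ = (720 * NN n 6) * (6 * n + 7) := by rw [e6]; ring
          _ = _ := by ring
      have h3 := Nat.le_of_mul_le_mul_left h2 (by norm_num)
      exact h3.trans (Nat.mul_le_mul_right _ hT6)
    -- `(d+2) ((m+1) T_{d+1} - T_{d+2}) = T_{d+1} (m (d+1) + 1)`
    have h4 : (d + 2) * ((n + 2) * NN n (d + 1)) =
        (d + 2) * NN n (d + 2) + NN n (d + 1) * ((n + 1) * (d + 1) + 1) := by
      have : (d + 2) * NN n (d + 2) = NN n (d + 1) * (n + d + 2) := by rw [hrat]; ring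
      rw [this]
      ring
    have h5 : (6 * n + 7) * (d + 2) ≤ 7 * ((n + 1) * (d + 1) + 1) := by
      obtain ⟨e, rfl⟩ := Nat.exists_eq_add_of_le hd
      nlinarith [Nat.zero_le (n * e)]
    have h6 : (n + 2) * (u + (n + 1) * (2 * n + 1)) ≤ (n + 2) * NN n (d + 1) := by
      have h7 : (7 * (d + 2)) * ((n + 2) * (u + (n + 1) * (2 * n + 1))) ≤
          (7 * (d + 2)) * ((n + 2) * NN n (d + 1)) := by
        have h8 : NN n (d + 1) * ((6 * n + 7) * (d + 2)) ≤
            NN n (d + 1) * (7 * ((n + 1) * (d + 1) + 1)) := Nat.mul_le_mul_left _ h5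
        have h9 : (d + 2) * ((n + 2) * ((n + 1) * (2 * n + 1)) * 7) ≤
            (d + 2) * (NN n (d + 1) * (6 * n + 7)) := Nat.mul_le_mul_left _ h1
        have h10 : (7 * (d + 2)) * ((n + 2) * u) ≤ (7 * (d + 2)) * NN n (d + 2) :=
          Nat.mul_le_mul_left _ hu
        calc (7 * (d + 2)) * ((n + 2) * (u + (n + 1) * (2 * n + 1)))
            = (7 * (d + 2)) * ((n + 2) * u) + (d + 2) * ((n + 2) * ((n + 1) * (2 * n + 1)) * 7) := by
              ring
          _ ≤ (7 * (d + 2)) * NN n (d + 2) + (d + 2) * (NN n (d + 1) * (6 * n + 7)) :=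
              Nat.add_le_add h10 h9
          _ = (7 * (d + 2)) * NN n (d + 2) + NN n (d + 1) * ((6 * n + 7) * (d + 2)) := by ring
          _ ≤ (7 * (d + 2)) * NN n (d + 2) + NN n (d + 1) * (7 * ((n + 1) * (d + 1) + 1)) :=
              Nat.add_le_add_left h8 _
          _ = 7 * ((d + 2) * NN n (d + 2) + NN n (d + 1) * ((n + 1) * (d + 1) + 1)) := by ring
          _ = 7 * ((d + 2) * ((n + 2) * NN n (d + 1))) := by rw [h4]
          _ = _ := by ring
      exact Nat.le_of_mul_le_mul_left h7 (by positivity)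
    exact Nat.le_of_mul_le_mul_left h6 (by positivity)
  have hy2 : y ≤ 2 * n := by omega
  have hMs : NN (n + 1) (d + 1) = NN n (d + 1) + NN (n + 1) d := NN_succ n d
  refine ⟨g1, ?_, ?_, ?_, ?_, ?_⟩
  · -- g2
    have : (n + 1) * y ≤ (n + 1) * (2 * n) := Nat.mul_le_mul_left _ hy2
    nlinarith
  · -- g3
    intro p hp
    rw [gg_eq (by omega) (by omega)]
    rw [Nat.le_div_iff_mul_le (by omega)]
    by_contra hlt
    push Not at hlt
    have hp6 : 7 ≤ p := by
      by_contra h6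
      push Not at h6
      have : p * (n + 1 + 2) ≤ 6 * (n + 1 + 2) := Nat.mul_le_mul_right _ (by omega)
      have h2 := c5.trans hM6
      omega
    obtain ⟨s, rfl⟩ := Nat.exists_eq_add_of_le hr
    have hexp : (n + (1 + s) + 2) * p = p * (n + 1 + 2) + s * p := by ring
    rw [hexp] at hp
    rcases Nat.eq_zero_or_pos s with rfl | hs
    · -- r = 1
      have hu3 : 3 * n + 7 ≤ u := by
        by_contra h3
        push Not at h3
        have h4 : (n + (1 + 0) + 1) * u ≤ (n + 2) * (3 * n + 6) :=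
          Nat.mul_le_mul (by omega) (by omega)
        nlinarith
      omega
    · have h7 : s * 7 ≤ s * p := Nat.mul_le_mul_left _ hp6
      omega
  · -- g4
    intro t ht
    rw [gg_eq (by omega) hd]
    have hq : NN (n + 1) d ≤ (n + 3) * (NN (n + 1) d / (n + 1 + 2)) + (n + 2) := by
      have h1 := Nat.div_add_mod (NN (n + 1) d) (n + 1 + 2)
      have h2 := Nat.mod_lt (NN (n + 1) d) (show 0 < n + 1 + 2 by omega)
      have h3 : (n + 1 + 2) * (NN (n + 1) d / (n + 1 + 2)) =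
        (n + 3) * (NN (n + 1) d / (n + 1 + 2)) := by ring
      omega
    set q := NN (n + 1) d / (n + 1 + 2) with hqdef
    -- `(m+2) t + m (m+2) ≥ 2 (M - u)`
    have h1 : 2 * NN (n + 1) (d + 1) ≤ (n + 3) * t + (n + 1) * (n + 3) + 2 * u := by
      have hMu : u ≤ NN (n + 1) (d + 1) := by omega
      obtain ⟨w, hw⟩ := Nat.exists_eq_add_of_le hMu
      rw [hw] at ht ⊢
      have ht' : (r + 1) * w ≤ (n + r + 2) * t + (n + 1) * y := by nlinarith
      have hy3 : (n + 1) * y ≤ (n + 1) * (n + r) := Nat.mul_le_mul_left _ hy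
      have h2 : (n + r + 2) * (2 * w) ≤ (n + r + 2) * ((n + 3) * t + (n + 1) * (n + 3)) := by
        have h3 : (n + r + 2) * (2 * w) ≤ (n + 3) * ((r + 1) * w) := by
          have : (n + r + 2) * 2 ≤ (n + 3) * (r + 1) := by
            obtain ⟨s, rfl⟩ := Nat.exists_eq_add_of_le hr
            nlinarith [Nat.zero_le (n * s)]
          calc (n + r + 2) * (2 * w) = ((n + r + 2) * 2) * w := by ring
            _ ≤ ((n + 3) * (r + 1)) * w := Nat.mul_le_mul_right _ this
            _ = _ := by ring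
        calc (n + r + 2) * (2 * w) ≤ (n + 3) * ((r + 1) * w) := h3
          _ ≤ (n + 3) * ((n + r + 2) * t + (n + 1) * y) := Nat.mul_le_mul_left _ ht'
          _ ≤ (n + 3) * ((n + r + 2) * t + (n + 1) * (n + r)) := by
              exact Nat.mul_le_mul_left _ (Nat.add_le_add_left hy3 _)
          _ ≤ (n + 3) * ((n + r + 2) * t + (n + 1) * (n + r + 2)) := by
              refine Nat.mul_le_mul_left _ (Nat.add_le_add_left (Nat.mul_le_mul_left _ ?_) _)
              omega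
          _ = _ := by ring
      have h4 := Nat.le_of_mul_le_mul_left h2 (by omega)
      omega
    -- conclusion
    have h5 : (n + 3) * NN (n + 1) d ≤ (n + 3) * ((n + 1) * q + t) := by
      have h6 : (n + 1) * NN (n + 1) d ≤ (n + 1) * ((n + 3) * q + (n + 2)) :=
        Nat.mul_le_mul_left _ hq
      rw [hMs] at h1
      nlinarith
    exact Nat.le_of_mul_le_mul_left h5 (by omega)
  · -- g5
    rw [gg_eq hn (by omega), Nat.le_div_iff_mul_le (by omega)]
    rw [mul_comm]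
    exact hu
  · -- g6
    rw [gg_eq hn (by omega), Nat.le_div_iff_mul_le (by omega)]
    have : y * (n + 2) ≤ 2 * n * (n + 2) := Nat.mul_le_mul_right _ hy2
    omega

end Pool.Agent.War5
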