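import Pool.Agent.War5.Stmts

/-!
# NG6: the numerical conditions in degrees `≥ 7`, two or three variables

`x_NG6 : S_NG6` (PAPER.md, section 4).
-/

set_option autoImplicit false

open Pool.Agent.War Pool.Agent.WarS

namespace Pool.Agent.War5

namespace NG6aux

theorem pascal (n k : ℕ) : NN (n + 1) (k + 1) = NN (n + 1) k + NN n (k + 1) := by
  have h : ((n + k + 1) + 1).choose (n + 1) =
      (n + k + 1).choose n + (n + k + 1).choose (n + 1) := Nat.choose_succ_succ _ _
  have e1 : NN (n + 1) (k + 1) = ((n + k + 1) + 1).choose (n + 1) := by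
    show ((n + 1) + (k + 1)).choose (n + 1) = _
    congr 1
    omega
  have e2 : NN (n + 1) k = (n + k + 1).choose (n + 1) := by
    show ((n + 1) + k).choose (n + 1) = _
    congr 1
    omega
  have e3 : NN n (k + 1) = (n + k + 1).choose n := rfl
  rw [e1, e2, e3, h, Nat.add_comm]

theorem NN1 (k : ℕ) : NN 1 k = k + 1 := by
  show (1 + k).choose 1 = _
  rw [Nat.choose_one_right, Nat.add_comm]

theorem mono (n : ℕ) {k l : ℕ} (h : k ≤ l) : NN n k ≤ NN n l :=
  Nat.choose_le_choose _ (by omega)

end NG6aux

open NG6aux in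
theorem x_NG6 : S_NG6 := by
  intro n d r u y hn hn2 hd hr hrn hS hT hy
  have hn' : n = 1 ∨ n = 2 := by omega
  rcases hn' with rfl | rfl
  · have hr1 : r = 1 := by omega
    subst hr1
    have hd15 : 15 ≤ d := by
      by_contra hlt
      exact hS (Or.inl ⟨rfl, by omega⟩)
    rw [NN1] at hT
    have hM : NN 2 (d + 1) = NN 2 d + NN 1 (d + 1) := pascal 1 d
    rw [NN1] at hM
    have hN : 136 ≤ NN 2 d := by
      have h := mono 2 hd15
      have e : NN 2 15 = 136 := by decide
      omega
    have g1 : gg 2 (d + 1) = 2 * NN 2 (d + 1) / 7 := by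
      unfold gg
      rw [if_neg (by omega), if_neg (by omega), if_neg (by omega), if_pos rfl]
    have g2 : gg 2 d = 2 * NN 2 d / 7 := by
      unfold gg
      rw [if_neg (by omega), if_neg (by omega), if_neg (by omega), if_pos rfl]
    have g3 : gg 1 (d + 2) = (d + 2 + 1) / 2 := by
      unfold gg
      rw [if_pos rfl]
    have g4 : gg 1 (d + 1) = (d + 1 + 1) / 2 := by
      unfold gg
      rw [if_pos rfl]
    refine ⟨by omega, ?_, ?_, ?_, ?_, ?_⟩
    · rw [NN1]
      omega
    · intro p hp
      show p ≤ gg 2 (d + 1)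
      change (1 + 1 + 2) * p + u ≤ NN 2 (d + 1) + y + 2 * (1 + 1 + 2) at hp
      rw [g1, hM] at *
      omega
    · intro t ht
      show NN 2 d ≤ (1 + 1) * gg 2 d + t
      change (1 + 1) * NN 2 (d + 1) ≤ (1 + 1 + 2) * t + (1 + 1) * u + (1 + 1) * y at ht
      rw [g2]
      rw [hM] at ht
      omega
    · rw [g3]
      omega
    · rw [g4]
      omega
  · have hd6 : 6 ≤ d := by
      by_contra hlt
      exact hS (Or.inr (Or.inl ⟨rfl, by omega⟩))
    have hM : NN 3 (d + 1) = NN 3 d + NN 2 (d + 1) := pascal 2 d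
    have hT1 : NN 2 (d + 2) = NN 2 (d + 1) + NN 1 (d + 2) := pascal 1 (d + 1)
    rw [NN1] at hT1
    have hN : 84 ≤ NN 3 d := by
      have h := mono 3 hd6
      have e : NN 3 6 = 84 := by decide
      omega
    have h36 : 4 * (d + 3) ≤ NN 2 (d + 1) := by
      obtain ⟨e, rfl⟩ := Nat.exists_eq_add_of_le hd6
      clear hS hT hy hM hT1 hN hd6 hd
      induction e with
      | zero => decide
      | succ e ih =>
        have h1 : NN 2 (6 + e + 1 + 1) = NN 2 (6 + e + 1) + NN 1 (6 + e + 1 + 1) :=
          pascal 1 (6 + e + 1)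
        rw [NN1] at h1
        have h2 : 6 + (e + 1) + 1 = 6 + e + 1 + 1 := by omega
        rw [h2, h1]
        omega
    have hgM : gg 3 (d + 1) = NN 3 (d + 1) / 5 := by
      unfold gg
      rw [if_neg (by omega), if_neg (by omega), if_neg (by omega), if_neg (by omega)]
    have hgN : gg 3 d = NN 3 d / 5 := by
      unfold gg
      rw [if_neg (by omega), if_neg (by omega), if_neg (by omega), if_neg (by omega)]
    have hgT : gg 2 (d + 2) = 2 * NN 2 (d + 2) / 7 := by
      unfold gg
      rw [if_neg (by omega), if_neg (by omega), if_neg (by omega), if_pos rfl]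
    have hgT1 : gg 2 (d + 1) = 2 * NN 2 (d + 1) / 7 := by
      unfold gg
      rw [if_neg (by omega), if_neg (by omega), if_neg (by omega), if_pos rfl]
    have hr' : r = 1 ∨ r = 2 := by omega
    rcases hr' with rfl | rfl
    · have hu : y + 10 ≤ u := by
        have hc : d = 6 ∨ d = 7 ∨ 8 ≤ d := by omega
        rcases hc with rfl | rfl | h8
        · have e : NN 2 (6 + 2) = 45 := by decide
          omega
        · have e : NN 2 (7 + 2) = 55 := by decide
          omega
        · have h := mono 2 (show 10 ≤ d + 2 by omega)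
          have e : NN 2 10 = 66 := by decide
          omega
      refine ⟨by omega, by omega, ?_, ?_, ?_, ?_⟩
      · intro p hp
        show p ≤ gg 3 (d + 1)
        change (2 + 1 + 2) * p + u ≤ NN 3 (d + 1) + y + 2 * (2 + 1 + 2) at hp
        rw [hgM]
        omega
      · intro t ht
        show NN 3 d ≤ (2 + 1) * gg 3 d + t
        change (1 + 1) * NN 3 (d + 1) ≤ (2 + 1 + 2) * t + (1 + 1) * u + (2 + 1) * y at ht
        rw [hgN]
        rw [hM] at ht
        omega
      · rw [hgT]
        omega
      · rw [hgT1]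
        omega
    · refine ⟨by omega, by omega, ?_, ?_, ?_, ?_⟩
      · intro p hp
        show p ≤ gg 3 (d + 1)
        change (2 + 2 + 2) * p + u ≤ NN 3 (d + 1) + y + 2 * (2 + 2 + 2) at hp
        rw [hgM]
        omega
      · intro t ht
        show NN 3 d ≤ (2 + 1) * gg 3 d + t
        change (2 + 1) * NN 3 (d + 1) ≤ (2 + 2 + 2) * t + (2 + 1) * u + (2 + 1) * y at ht
        rw [hgN]
        rw [hM] at ht
        omega
      · rw [hgT]
        omega
      · rw [hgT1]
        omega

end Pool.Agent.War5
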