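import Pool.Agent.War5.Stmts

/-!
# Simultaneous Waring decompositions (MP_db021c_ag), few forms: NS, the small cases   (helper54)
-/

set_option autoImplicit false

open Pool.Agent.War

namespace Pool.Agent.War5

namespace NSaux

/-- the conditions with the witnesses `q` -/
def Chk (n d r h u y : ℕ) (p q : Fin (r + 1) → ℕ) : Prop :=
  NN n (d + 2) = (n + r + 1) * u + y ∧ u ≤ gg n (d + 2) ∧ y ≤ gg n (d + 1) ∧
  (r + 1) * u + y + ∑ j, p j = h ∧ (∀ j, p j ≤ gg (n + 1) (d + 1)) ∧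
  p 0 + y ≤ gg (n + 1) (d + 1) ∧
  (∀ j, q j ≤ p j ∧ q j ≤ gg (n + 1) d ∧ NN (n + 1) d ≤ (n + 1) * q j + ∑ i, p i) ∧
  (n + 1) * p 0 + ∑ i, p i + (n + 1) * y + u ≤ NN (n + 1) (d + 1) ∧
  ∀ j, (n + 1) * p j + ∑ i, p i ≤ NN (n + 1) (d + 1)

instance (n d r h u y : ℕ) (p q : Fin (r + 1) → ℕ) : Decidable (Chk n d r h u y p q) := by
  unfold Chk
  infer_instance

theorem Chk.numb {n d r h u y : ℕ} {p q : Fin (r + 1) → ℕ} (c : Chk n d r h u y p q) :
    Numb n d r h := by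
  obtain ⟨c1, c2, c3, c4, c5, c6, c7, c8, c9⟩ := c
  exact ⟨u, y, p, c1, c2, c3, c4, c5, c6, fun j => ⟨q j, c7 j⟩, c8, c9⟩

theorem c_1_3_1 (h : ℕ) (hc : Crit 1 3 1 h) : Numb 1 3 1 h := by
  obtain ⟨h1, h2⟩ := hc
  have e : NN (1 + 1) (3 + 2) = 21 := by decide +kernel
  rw [e] at h1 h2
  obtain rfl : h = 11 := by omega
  exact (by decide +kernel : Chk 1 3 1 11 2 0 ![3, 4]
    ![2, 2]).numb

theorem c_1_4_1 (h : ℕ) (hc : Crit 1 4 1 h) : Numb 1 4 1 h := by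
  obtain ⟨h1, h2⟩ := hc
  have e : NN (1 + 1) (4 + 2) = 28 := by decide +kernel
  rw [e] at h1 h2
  obtain rfl : h = 14 := by omega
  exact (by decide +kernel : Chk 1 4 1 14 2 1 ![4, 5]
    ![4, 4]).numb

theorem c_1_5_1 (h : ℕ) (hc : Crit 1 5 1 h) : Numb 1 5 1 h := by
  obtain ⟨h1, h2⟩ := hc
  have e : NN (1 + 1) (5 + 2) = 36 := by decide +kernel
  rw [e] at h1 h2
  obtain rfl : h = 18 := by omega
  exact (by decide +kernel : Chk 1 5 1 18 2 2 ![5, 7]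
    ![5, 6]).numb

theorem c_1_6_1 (h : ℕ) (hc : Crit 1 6 1 h) : Numb 1 6 1 h := by
  obtain ⟨h1, h2⟩ := hc
  have e : NN (1 + 1) (6 + 2) = 45 := by decide +kernel
  rw [e] at h1 h2
  obtain rfl : h = 23 := by omega
  exact (by decide +kernel : Chk 1 6 1 23 3 0 ![8, 9]
    ![8, 8]).numb

theorem c_1_7_1 (h : ℕ) (hc : Crit 1 7 1 h) : Numb 1 7 1 h := by
  obtain ⟨h1, h2⟩ := hc
  have e : NN (1 + 1) (7 + 2) = 55 := by decide +kernel
  rw [e] at h1 h2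
  obtain rfl : h = 28 := by omega
  exact (by decide +kernel : Chk 1 7 1 28 3 1 ![9, 12]
    ![9, 10]).numb

theorem c_1_8_1 (h : ℕ) (hc : Crit 1 8 1 h) : Numb 1 8 1 h := by
  obtain ⟨h1, h2⟩ := hc
  have e : NN (1 + 1) (8 + 2) = 66 := by decide +kernel
  rw [e] at h1 h2
  obtain rfl : h = 33 := by omega
  exact (by decide +kernel : Chk 1 8 1 33 3 2 ![11, 14]
    ![11, 12]).numb

theorem c_1_9_1 (h : ℕ) (hc : Crit 1 9 1 h) : Numb 1 9 1 h := by
  obtain ⟨h1, h2⟩ := hc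
  have e : NN (1 + 1) (9 + 2) = 78 := by decide +kernel
  rw [e] at h1 h2
  obtain rfl : h = 39 := by omega
  exact (by decide +kernel : Chk 1 9 1 39 4 0 ![15, 16]
    ![15, 15]).numb

theorem c_1_10_1 (h : ℕ) (hc : Crit 1 10 1 h) : Numb 1 10 1 h := by
  obtain ⟨h1, h2⟩ := hc
  have e : NN (1 + 1) (10 + 2) = 91 := by decide +kernel
  rw [e] at h1 h2
  obtain rfl : h = 46 := by omega
  exact (by decide +kernel : Chk 1 10 1 46 4 1 ![17, 20]
    ![17, 18]).numb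

theorem c_1_11_1 (h : ℕ) (hc : Crit 1 11 1 h) : Numb 1 11 1 h := by
  obtain ⟨h1, h2⟩ := hc
  have e : NN (1 + 1) (11 + 2) = 105 := by decide +kernel
  rw [e] at h1 h2
  obtain rfl : h = 53 := by omega
  exact (by decide +kernel : Chk 1 11 1 53 4 2 ![20, 23]
    ![20, 22]).numb

theorem c_1_12_1 (h : ℕ) (hc : Crit 1 12 1 h) : Numb 1 12 1 h := by
  obtain ⟨h1, h2⟩ := hc
  have e : NN (1 + 1) (12 + 2) = 120 := by decide +kernel
  rw [e] at h1 h2
  obtain rfl : h = 60 := by omega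
  exact (by decide +kernel : Chk 1 12 1 60 5 0 ![25, 25]
    ![25, 25]).numb

theorem c_1_13_1 (h : ℕ) (hc : Crit 1 13 1 h) : Numb 1 13 1 h := by
  obtain ⟨h1, h2⟩ := hc
  have e : NN (1 + 1) (13 + 2) = 136 := by decide +kernel
  rw [e] at h1 h2
  obtain rfl : h = 68 := by omega
  exact (by decide +kernel : Chk 1 13 1 68 5 1 ![28, 29]
    ![28, 29]).numb

theorem c_1_14_1 (h : ℕ) (hc : Crit 1 14 1 h) : Numb 1 14 1 h := by
  obtain ⟨h1, h2⟩ := hc
  have e : NN (1 + 1) (14 + 2) = 153 := by decide +kernel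
  rw [e] at h1 h2
  obtain rfl : h = 77 := by omega
  exact (by decide +kernel : Chk 1 14 1 77 5 2 ![31, 34]
    ![31, 34]).numb

theorem c_2_3_1 (h : ℕ) (hc : Crit 2 3 1 h) : Numb 2 3 1 h := by
  obtain ⟨h1, h2⟩ := hc
  have e : NN (2 + 1) (3 + 2) = 56 := by decide +kernel
  rw [e] at h1 h2
  obtain rfl : h = 23 := by omega
  exact (by decide +kernel : Chk 2 3 1 23 5 1 ![5, 7]
    ![4, 4]).numb

theorem c_2_3_2 (h : ℕ) (hc : Crit 2 3 2 h) : Numb 2 3 2 h := by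
  obtain ⟨h1, h2⟩ := hc
  have e : NN (2 + 1) (3 + 2) = 56 := by decide +kernel
  rw [e] at h1 h2
  obtain rfl : h = 28 := by omega
  exact (by decide +kernel : Chk 2 3 2 28 4 1 ![4, 6, 5]
    ![4, 4, 4]).numb

theorem c_2_4_1 (h : ℕ) (hc : Crit 2 4 1 h) : Numb 2 4 1 h := by
  obtain ⟨h1, h2⟩ := hc
  have e : NN (2 + 1) (4 + 2) = 84 := by decide +kernel
  rw [e] at h1 h2
  obtain rfl : h = 34 := by omega
  exact (by decide +kernel : Chk 2 4 1 34 7 0 ![9, 11]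
    ![8, 8]).numb

theorem c_2_4_2 (h : ℕ) (hc : Crit 2 4 2 h) : Numb 2 4 2 h := by
  obtain ⟨h1, h2⟩ := hc
  have e : NN (2 + 1) (4 + 2) = 84 := by decide +kernel
  rw [e] at h1 h2
  obtain rfl : h = 42 := by omega
  exact (by decide +kernel : Chk 2 4 2 42 5 3 ![6, 10, 8]
    ![6, 8, 8]).numb

theorem c_2_5_1 (h : ℕ) (hc : Crit 2 5 1 h) : Numb 2 5 1 h := by
  obtain ⟨h1, h2⟩ := hc
  have e : NN (2 + 1) (5 + 2) = 120 := by decide +kernel
  rw [e] at h1 h2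
  obtain rfl : h = 48 := by omega
  exact (by decide +kernel : Chk 2 5 1 48 9 0 ![15, 15]
    ![11, 11]).numb

theorem c_2_5_2 (h : ℕ) (hc : Crit 2 5 2 h) : Numb 2 5 2 h := by
  obtain ⟨h1, h2⟩ := hc
  have e : NN (2 + 1) (5 + 2) = 120 := by decide +kernel
  rw [e] at h1 h2
  obtain rfl : h = 60 := by omega
  exact (by decide +kernel : Chk 2 5 2 60 7 1 ![12, 15, 11]
    ![11, 11, 11]).numb

theorem c_3_3_1 (h : ℕ) (hc : Crit 3 3 1 h) : Numb 3 3 1 h := by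
  obtain ⟨h1, h2⟩ := hc
  have e : NN (3 + 1) (3 + 2) = 126 := by decide +kernel
  rw [e] at h1 h2
  obtain rfl : h = 42 := by omega
  exact (by decide +kernel : Chk 3 3 1 42 11 1 ![9, 10]
    ![5, 5]).numb

theorem c_3_3_2 (h : ℕ) (hc : Crit 3 3 2 h) : Numb 3 3 2 h := by
  obtain ⟨h1, h2⟩ := hc
  have e : NN (3 + 1) (3 + 2) = 126 := by decide +kernel
  rw [e] at h1 h2
  obtain rfl : h = 54 := by omega
  exact (by decide +kernel : Chk 3 3 2 54 9 2 ![7, 11, 7]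
    ![5, 5, 5]).numb

theorem c_3_3_3 (h : ℕ) (hc : Crit 3 3 3 h) : Numb 3 3 3 h := by
  obtain ⟨h1, h2⟩ := hc
  have e : NN (3 + 1) (3 + 2) = 126 := by decide +kernel
  rw [e] at h1 h2
  obtain rfl : h = 63 := by omega
  exact (by decide +kernel : Chk 3 3 3 63 8 0 ![7, 9, 9, 6]
    ![5, 5, 5, 5]).numb

theorem c_4_3_4 (h : ℕ) (hc : Crit 4 3 4 h) : Numb 4 3 4 h := by
  obtain ⟨h1, h2⟩ := hc
  have e : NN (4 + 1) (3 + 2) = 252 := by decide +kernel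
  rw [e] at h1 h2
  obtain rfl : h = 126 := by omega
  exact (by decide +kernel : Chk 4 3 4 126 14 0 ![11, 14, 14, 14, 3]
    ![7, 7, 7, 7, 3]).numb

end NSaux

open NSaux in
theorem x_NS : S_NS := by
  intro n d r h hn hr hrn hd hS hc
  rcases hS with ⟨rfl, h2⟩ | ⟨rfl, h2⟩ | ⟨rfl, rfl⟩ | ⟨rfl, rfl, rfl⟩
  · obtain rfl : r = 1 := by omega
    interval_cases d
    · exact c_1_3_1 h hc
    · exact c_1_4_1 h hc
    · exact c_1_5_1 h hc
    · exact c_1_6_1 h hc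
    · exact c_1_7_1 h hc
    · exact c_1_8_1 h hc
    · exact c_1_9_1 h hc
    · exact c_1_10_1 h hc
    · exact c_1_11_1 h hc
    · exact c_1_12_1 h hc
    · exact c_1_13_1 h hc
    · exact c_1_14_1 h hc
  · interval_cases r
    · interval_cases d
      · exact c_2_3_1 h hc
      · exact c_2_4_1 h hc
      · exact c_2_5_1 h hc
    · interval_cases d
      · exact c_2_3_2 h hc
      · exact c_2_4_2 h hc
      · exact c_2_5_2 h hc
  · interval_cases r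
    · exact c_3_3_1 h hc
    · exact c_3_3_2 h hc
    · exact c_3_3_3 h hc
  · exact c_4_3_4 h hc

end Pool.Agent.War5
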