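import Pool.Agent.War5.Stmts

set_option autoImplicit false

namespace Pool.Agent.War5

/-- the recursion of `P4` -/
theorem P4Baux.succ (n : ℕ) : P4 (n + 1) = P4 n + (n + 4) ^ 2 / 9 := by
  unfold P4
  rw [Finset.sum_range_succ]

theorem x_P4B : S_P4B := by
  intro n
  induction n with
  | zero => decide
  | succ n ih =>
    obtain ⟨h1, h2⟩ := ih
    have hs := P4Baux.succ n
    have h3 : 9 * ((n + 4) ^ 2 / 9) ≤ (n + 4) ^ 2 := Nat.mul_div_le _ _
    have h4 : (n + 4) ^ 2 < 9 * ((n + 4) ^ 2 / 9) + 9 := by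
      have := Nat.lt_mul_div_succ ((n + 4) ^ 2) (show 0 < 9 by norm_num)
      omega
    rw [hs]
    generalize hx : (n + 4) ^ 2 / 9 = x at *
    have e : (n + 1 + 3) * (n + 1 + 4) * (2 * (n + 1) + 7) =
        (n + 3) * (n + 4) * (2 * n + 7) + 6 * (n + 4) ^ 2 := by ring
    rw [e]
    constructor
    · omega
    · omega

end Pool.Agent.War5
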