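import Pool.Agent.War5.Stmts
import Pool.Agent.WarS.RES

/-!
# Simultaneous Waring decompositions (MP_db021c_ag), few forms, all degrees at least 5: residual lemma

As `WarS/RES.lean` (helper76), with the lemma HD5 and with subsets of the double points.
-/

set_option autoImplicit false

open Module MvPolynomial
open Pool.Agent.War Pool.Agent.WarS

namespace Pool.Agent.War5

open WarS.RESm in
/-- the residual lemma; the first points are partly specialised to the hyperplane -/
theorem x_RES5 (hSG : S_SG) (hHD5 : S_HD5) : S_RES5 := by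
  intro n d r u v y I _ π hn hGA hGB hG1 h0 hj hT
  classical
  let P : Fin (r + 1) → Finset I := fun j => Finset.univ.filter fun i => π i = j
  have hP : ∀ j, (P j).card = fib π j := fun j => rfl
  -- the points w and z0
  obtain ⟨u', hu', hGu, hAu⟩ := hGA
  have gA := hHD5 n d u' y I (P 0) hn hu' hGu hAu
  have gB := (Gen.forall fun j : Fin (r + 1) =>
    hSG (n + 1) (d + 1) I (P j) (by omega) (hG1 j)).comp
      (LinearMap.fst ℂ (I → Fin (n + 1) → ℂ) (Fin y → Fin n → ℂ)) Prod.fst_surjective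
  choose q hq hGq hBq using hGB
  have hQ : ∀ j, ∃ Q : Finset I, Q ⊆ P j ∧ Q.card = q j := fun j =>
    Finset.exists_subset_card_eq (hq j)
  choose Q hQP hQc using hQ
  have gC := (Gen.forall fun j : Fin (r + 1) =>
    hSG (n + 1) d I (Q j) (by omega) (by rw [hQc]; exact hGq j)).comp
      (LinearMap.fst ℂ (I → Fin (n + 1) → ℂ) (Fin y → Fin n → ℂ)) Prod.fst_surjective
  have gD := (gen_off (n := n) (I := I)).comp
      (LinearMap.fst ℂ (I → Fin (n + 1) → ℂ) (Fin y → Fin n → ℂ)) Prod.fst_surjective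
  obtain ⟨⟨w, z0⟩, ⟨⟨hA, hB1⟩, hC⟩, hD⟩ := (((gA.and gB).and gC).and gD).exists
  simp only [LinearMap.fst_apply] at hA hB1 hC hD
  have hC' : ∀ j, Dbl (n + 1) d (P j) w = ⊥ := by
    intro j
    have e0 : Dbl (n + 1) d (Q j) w = ⊥ :=
      Dbl_eq_botC1 (hC j) (by rw [hQc]; have := hBq j; omega)
    rw [eq_bot_iff, ← e0]
    intro f hf
    exact ⟨hf.1, fun i hi k => hf.2 i (hQP j hi) k⟩
  have hker : ∀ (j : Fin (r + 1)) (f : Pol (n + 1) (d + 1)), f ∈ Dbl (n + 1) (d + 1) (P j) w →
      (∀ p : Fin n → ℂ, eval p (res n (f : MvPolynomial (Fin (n + 1)) ℂ)) = 0) → f = 0 := by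
    intro j f hf hp
    have e2 : res n (f : MvPolynomial (Fin (n + 1)) ℂ) = 0 :=
      MvPolynomial.funext fun p => by rw [hp, map_zero]
    obtain ⟨g, hg⟩ := exists_mulXC1 e2
    have e3 : g ∈ Dbl (n + 1) d (P j) w := Dbl_of_mulXC1 hD (by rw [← hg]; exact hf)
    rw [hC', Submodule.mem_bot] at e3
    rw [hg, e3, map_zero]
  -- the points z1
  obtain ⟨z1, hz1⟩ := red (fun z : Fin n → ℂ => ev (n + 1) (d + 1) (hp z))
    (DblH n (d + 1) (P 0) w z0) ⊥ (by
      intro f hf hf0
      by_contra hcon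
      push Not at hcon
      apply hf0
      rw [Submodule.mem_bot]
      refine hker 0 f hf.1 fun p => ?_
      have := hcon p
      rwa [ev_apply, eval_hp] at this) u
  rw [finrank_bot] at hz1
  set V0 := DblH n (d + 1) (P 0) w z0 ⊓ ⨅ i, LinearMap.ker (ev (n + 1) (d + 1) (hp (z1 i)))
    with hV0
  let V : Fin (r + 1) → Submodule ℂ (Pol (n + 1) (d + 1)) :=
    Fin.cons V0 fun j => Dbl (n + 1) (d + 1) (P j.succ) w
  have hVD : ∀ j, V j ≤ Dbl (n + 1) (d + 1) (P j) w := by
    intro j
    refine Fin.cases ?_ (fun j => ?_) j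
    · exact inf_le_left.trans inf_le_left
    · exact le_rfl
  let W : Submodule ℂ (Fin (r + 1) → Pol (n + 1) (d + 1)) := Submodule.pi Set.univ V
  have hW : finrank ℂ W ≤ v := by
    refine (finrank_pi_leC1 V).trans ?_
    rw [Fin.sum_univ_succ]
    have e1 : finrank ℂ (V 0) ≤ NN (n + 1) (d + 1) -
        ((n + 1) * fib π 0 + Fintype.card I + (n + 1) * y) - u := by
      have : finrank ℂ (V 0) = finrank ℂ V0 := rfl
      rw [this]
      refine hz1.trans (max_le ?_ (Nat.zero_le _))
      exact Nat.sub_le_sub_right hA u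
    have e2 : ∑ j : Fin r, finrank ℂ (V j.succ) ≤
        ∑ j : Fin r, (NN (n + 1) (d + 1) - ((n + 1) * fib π j.succ + Fintype.card I)) :=
      Finset.sum_le_sum fun j _ => hB1 j.succ
    refine (Nat.add_le_add e1 e2).trans ?_
    refine count (F := ∑ j : Fin r, fib π j.succ) h0 ?_ ?_ hT
    · have e3 : ∀ j : Fin r, NN (n + 1) (d + 1) - ((n + 1) * fib π j.succ + Fintype.card I) +
          ((n + 1) * fib π j.succ + Fintype.card I) = NN (n + 1) (d + 1) := fun j =>
        Nat.sub_add_cancel (hj j.succ)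
      have e4 := Finset.sum_congr (rfl : (Finset.univ : Finset (Fin r)) = Finset.univ)
        fun j _ => e3 j
      rw [Finset.sum_add_distrib, Finset.sum_add_distrib, ← Finset.mul_sum, Finset.sum_const,
        Finset.sum_const, Finset.card_univ, Fintype.card_fin, smul_eq_mul, smul_eq_mul] at e4
      exact e4
    · rw [← sum_fib π, Fin.sum_univ_succ]
  -- the points (z2, a)
  obtain ⟨yy, hyy⟩ := red (OmC1 n (d + 1)) W ⊥ (by
    intro g hg hg0
    by_contra hcon
    push Not at hcon
    apply hg0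
    rw [Submodule.mem_bot]
    funext j
    refine hker j (g j) (hVD j (hg j trivial)) fun p => ?_
    have := hcon (p, Pi.single j 1)
    rw [OmC1_apply] at this
    simpa [Pi.single_apply, eval_hp] using this) v
  rw [finrank_bot] at hyy
  have hyy' : W ⊓ ⨅ i, LinearMap.ker (OmC1 n (d + 1) (yy i)) = ⊥ :=
    Submodule.finrank_eq_zero.1 (by omega)
  -- conclusion
  have hbot : ZZ d π ((w, z1, fun i => (yy i).1, fun i => (yy i).2, z0) :
      Pm n r u v y I) = ⊥ := by
    rw [eq_bot_iff, ← hyy']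
    intro g hg
    have hg' := mem_ZZ.1 hg
    obtain ⟨k1, k2, k3, k4, k5, k6⟩ := hg'
    have kD : ∀ j, g j ∈ Dbl (n + 1) (d + 1) (P j) w := by
      intro j
      refine mem_Dbl.2 ⟨fun i => k1 i j, fun i hi k => ?_⟩
      have hij : π i = j := (Finset.mem_filter.1 hi).2
      have := k2 i k
      rwa [hij] at this
    refine ⟨fun j _ => ?_, ?_⟩
    · refine Fin.cases ?_ (fun j => ?_) j
      · refine ⟨⟨kD 0, ?_⟩, ?_⟩
        · rw [SetLike.mem_coe, Submodule.mem_comap]
          refine mem_Dbl.2 ⟨fun i => ?_, fun i _ k => ?_⟩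
          · have := k5 i
            rwa [eval_hp] at this
          · have := k6 i k
            rwa [eval_hp_pderiv] at this
        · rw [SetLike.mem_coe, Submodule.mem_iInf]
          intro i
          rw [LinearMap.mem_ker, ev_apply]
          exact k3 i
      · exact kD j.succ
    · rw [SetLike.mem_coe, Submodule.mem_iInf]
      intro i
      rw [LinearMap.mem_ker, OmC1_apply]
      exact k4 i
  refine ((PK_ZZ d π).gen_bot hbot).mono fun x hx => ?_
  intro g hg hres j
  have h1 : (fun j => (⟨g j, mem_Pol.2 (hg j)⟩ : Pol (n + 1) (d + 1))) ∈ ZZ d π x :=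
    mem_ZZ.2 hres
  rw [hx, Submodule.mem_bot] at h1
  exact congrArg Subtype.val (congrFun h1 j)

end Pool.Agent.War5
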