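import Pool.Agent.War5.Stmts

/-!
# SN3: target degree 4 (W5_SN3)
-/

set_option autoImplicit false

open Module MvPolynomial
open Pool.Agent.War Pool.Agent.WarS

namespace Pool.Agent.War5

namespace SN3aux

theorem gg4 (n : ℕ) (hn : 1 ≤ n) : gg n 4 = P4 n := by
  rcases Nat.lt_or_ge 1 n with h | h
  · unfold gg
    rw [if_neg (by omega), if_neg (by norm_num), if_pos rfl]
  · have : n = 1 := by omega
    subst this
    decide

theorem gg3 (n : ℕ) (hn : 2 ≤ n) : gg n 3 = (n + 3) ^ 2 / 9 := by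
  unfold gg
  rw [if_neg (by omega), if_pos rfl]

theorem P4_succ (n : ℕ) : P4 (n + 1) = P4 n + (n + 4) ^ 2 / 9 := by
  unfold P4
  rw [Finset.sum_range_succ _ (n + 1)]

theorem big (n U Q N : ℕ) (hn : 6 ≤ n) (hU : 54 * U + 30 ≤ (n + 3) * (n + 4) * (2 * n + 7))
    (hQ : 9 * Q ≤ (n + 4) ^ 2) (hN : 6 * N = (n + 2) * (n + 3) * (n + 4)) :
    U + (n + 2) * Q ≤ N := by
  obtain ⟨k, rfl⟩ := Nat.exists_eq_add_of_le hn
  have h1 : 54 * ((6 + k + 2) * Q) ≤ 6 * (6 + k + 2) * (6 + k + 4) ^ 2 := by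
    have := Nat.mul_le_mul_left (6 * (6 + k + 2)) hQ
    calc 54 * ((6 + k + 2) * Q) = 6 * (6 + k + 2) * (9 * Q) := by ring
      _ ≤ _ := this
  have h2 : (6 + k + 3) * (6 + k + 4) * (2 * (6 + k) + 7) + 6 * (6 + k + 2) * (6 + k + 4) ^ 2 ≤
      9 * ((6 + k + 2) * (6 + k + 3) * (6 + k + 4)) + 30 := by
    nlinarith [Nat.zero_le k, Nat.zero_le (k ^ 2), Nat.zero_le (k ^ 3)]
  have h3 : 9 * (6 * N) = 9 * ((6 + k + 2) * (6 + k + 3) * (6 + k + 4)) := by rw [hN]
  omega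

end SN3aux

open SN3aux in
/-- SN3. -/
theorem x_SN3 (hCF : S_CF) (hP : S_P4B) : S_SN3 := by
  intro n hn
  have e1 : gg n (3 + 1) = P4 n := gg4 n hn
  have e2 : gg (n + 1) (3 + 1) = P4 n + (n + 4) ^ 2 / 9 := by
    rw [show 3 + 1 = 4 from rfl, gg4 (n + 1) (by omega), P4_succ]
  have e3 : gg (n + 1) 3 = (n + 4) ^ 2 / 9 := gg3 (n + 1) (by omega)
  unfold SN
  rw [e1, e2, e3]
  refine ⟨by omega, le_rfl, ?_⟩
  have e4 : P4 n + (n + 4) ^ 2 / 9 - P4 n = (n + 4) ^ 2 / 9 := by omega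
  rw [e4, show 3 - 1 = 2 from rfl]
  have hN := (hCF (n + 1)).2.1
  rw [show n + 1 + 1 = n + 2 from rfl, show n + 1 + 2 = n + 3 from rfl,
    show n + 1 + 3 = n + 4 from rfl] at hN
  rcases Nat.lt_or_ge n 2 with h | h
  · have : n = 1 := by omega
    subst this
    have h1 : P4 1 = 2 := by decide
    have h2 : kap (1 + 1) 2 ((1 + 4) ^ 2 / 9) = 1 := by
      unfold kap
      decide
    rw [h1, h2]
    omega
  · have hk : kap (n + 1) 2 ((n + 4) ^ 2 / 9) = 0 := by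
      unfold kap
      rw [if_pos rfl, if_pos]
      rw [Nat.le_div_iff_mul_le (by norm_num)]
      obtain ⟨k, rfl⟩ := Nat.exists_eq_add_of_le h
      nlinarith [Nat.zero_le k, Nat.zero_le (k ^ 2)]
    rw [hk, zero_add]
    rcases Nat.lt_or_ge n 6 with h6 | h6
    · interval_cases n
      · have h1 : P4 2 = 4 := by decide
        rw [h1]
        omega
      · have h1 : P4 3 = 8 := by decide
        rw [h1]
        omega
      · have h1 : P4 4 = 13 := by decide
        rw [h1]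
        omega
      · have h1 : P4 5 = 20 := by decide
        rw [h1]
        omega
    · exact big n _ _ _ h6 (hP n).1 (Nat.mul_div_le _ _) hN

end Pool.Agent.War5
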