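import Pool.Agent.War5.Stmts

set_option autoImplicit false

open Module MvPolynomial
open Pool.Agent.War Pool.Agent.WarS

namespace Pool.Agent.War5

namespace SN4aux

lemma small1 (hCF : S_CF) : SN 1 4 := by
  have h1 : NN 2 5 = 21 := by have := (hCF 2).2.2.2.1; omega
  have h2 : NN 2 3 = 10 := by have := (hCF 2).2.1; omega
  have h3 : NN 2 4 = 15 := by have := (hCF 2).2.2.1; omega
  have hU : gg 1 (4 + 1) = 3 := by simp [gg]
  have hG : gg (1 + 1) (4 + 1) = 6 := by simp [gg, h1]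
  have hP : gg (1 + 1) 4 = 4 := by simp [gg, P4, Finset.sum_range_succ]
  have hg3 : gg (1 + 1) 3 = 2 := by simp [gg]
  refine ⟨?_, ?_, ?_⟩
  · rw [hU, hG]; norm_num
  · rw [hU, hG, hP]; norm_num
  · rw [hU, hG]
    simp only [kap, hg3]
    norm_num [h2, h3]

lemma small2 (hCF : S_CF) : SN 2 4 := by
  have h1 : NN 2 5 = 21 := by have := (hCF 2).2.2.2.1; omega
  have h1' : NN 3 5 = 56 := by have := (hCF 3).2.2.2.1; omega
  have h2 : NN 3 3 = 20 := by have := (hCF 3).2.1; omega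
  have h3 : NN 3 4 = 35 := by have := (hCF 3).2.2.1; omega
  have hU : gg 2 (4 + 1) = 6 := by simp [gg, h1]
  have hG : gg (2 + 1) (4 + 1) = 11 := by simp [gg, h1']
  have hP : gg (2 + 1) 4 = 8 := by simp [gg, P4, Finset.sum_range_succ]
  have hg3 : gg (2 + 1) 3 = 4 := by simp [gg]
  refine ⟨?_, ?_, ?_⟩
  · rw [hU, hG]; norm_num
  · rw [hU, hG, hP]; norm_num
  · rw [hU, hG]
    simp only [kap, hg3]
    norm_num [h2, h3]

/-- the floor in degree 5 -/
lemma fl (hCF : S_CF) (n : ℕ) (hn : 3 ≤ n) :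
    120 * gg n 5 ≤ (n + 1) * (n + 3) * (n + 4) * (n + 5) ∧
      (n + 1) * (n + 3) * (n + 4) * (n + 5) < 120 * (gg n 5 + 1) := by
  have h := (hCF n).2.2.2.1
  have hg : gg n 5 = NN n 5 / (n + 2) := by
    simp only [gg]
    rw [if_neg (by omega), if_neg (by omega), if_neg (by omega), if_neg (by omega)]
  have hp : 0 < n + 2 := by omega
  have hd := Nat.div_mul_le_self (NN n 5) (n + 2)
  have hlt := Nat.lt_mul_div_succ (NN n 5) hp
  rw [← hg] at hd hlt
  constructor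
  · have : (n + 2) * (120 * gg n 5) ≤ (n + 2) * ((n + 1) * (n + 3) * (n + 4) * (n + 5)) := by
      nlinarith
    exact Nat.le_of_mul_le_mul_left this hp
  · have : (n + 2) * ((n + 1) * (n + 3) * (n + 4) * (n + 5)) < (n + 2) * (120 * (gg n 5 + 1)) := by
      nlinarith
    exact Nat.lt_of_mul_lt_mul_left this

end SN4aux

open SN4aux in
theorem x_SN4 (hCF : S_CF) (hP : S_P4B) : S_SN4 := by
  intro n hn
  obtain rfl | rfl | ⟨k, rfl⟩ : n = 1 ∨ n = 2 ∨ ∃ k, n = k + 3 := by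
    rcases n with _ | _ | _ | n
    · omega
    · exact Or.inl rfl
    · exact Or.inr (Or.inl rfl)
    · exact Or.inr (Or.inr ⟨n, rfl⟩)
  · exact small1 hCF
  · exact small2 hCF
  have hU := fl hCF (k + 3) (by omega)
  have hG := fl hCF (k + 3 + 1) (by omega)
  set U := gg (k + 3) 5 with hUd
  set G := gg (k + 3 + 1) 5 with hGd
  have hg4 : gg (k + 3 + 1) 4 = P4 (k + 3 + 1) := by
    simp only [gg]
    rw [if_neg (by omega), if_neg (by omega), if_pos trivial]
  have hg3 : gg (k + 3 + 1) 3 = (k + 3 + 1 + 3) ^ 2 / 9 := by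
    simp only [gg]
    rw [if_neg (by omega), if_pos trivial]
  have hP4 := (hP (k + 3 + 1)).2
  have hN3 := (hCF (k + 3 + 1)).2.1
  have hN4 := (hCF (k + 3 + 1)).2.2.1
  set g3 := (k + 3 + 1 + 3) ^ 2 / 9 with hg3d
  have hg3a : 9 * g3 ≤ (k + 7) ^ 2 := by
    have := Nat.div_mul_le_self ((k + 3 + 1 + 3) ^ 2) 9
    have e : k + 3 + 1 + 3 = k + 7 := by ring
    rw [e] at this
    rw [hg3d, e]; omega
  have hg3b : (k + 7) ^ 2 ≤ 9 * g3 + 8 := by
    have e : k + 3 + 1 + 3 = k + 7 := by ring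
    rw [hg3d, e]; omega
  obtain ⟨Q, hQ⟩ : ∃ Q, G = U + Q := by
    refine Nat.exists_eq_add_of_le ?_
    nlinarith [hU.1, hG.2]
  refine ⟨?_, ?_, ?_⟩
  · show U ≤ G
    omega
  · show G ≤ U + gg (k + 3 + 1) 4
    rw [hg4, hQ]
    have hQ' : Q ≤ P4 (k + 3 + 1) := by
      rcases Nat.eq_zero_or_pos k with rfl | hk
      · have e : P4 (0 + 3 + 1) = 13 := by simp [P4, Finset.sum_range_succ]
        rw [e]
        norm_num at hU hG
        omega
      · by_contra hc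
        push Not at hc
        have h1 : 120 * Q + ((k + 3 + 1) * (k + 3 + 3) * (k + 3 + 4) * (k + 3 + 5)) < (k + 3 + 1 + 1) * (k + 3 + 1 + 3) * (k + 3 + 1 + 4) * (k + 3 + 1 + 5) + 120 := by
          have := hU.2
          have := hG.1
          omega
        have h2 : P4 (k + 3 + 1) + 1 ≤ Q := hc
        obtain ⟨j, rfl⟩ : ∃ j, k = j + 1 := ⟨k - 1, by omega⟩
        generalize P4 (j + 1 + 3 + 1) = p at *
        nlinarith [sq_nonneg j]
    omega
  · show kap (k + 3 + 1) (4 - 1) (G - U) + U + (k + 3 + 2) * (G - U) ≤ NN (k + 3 + 1) 4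
    have hGU : G - U = Q := by omega
    rw [hGU]
    have h1 : 120 * Q + ((k + 3 + 1) * (k + 3 + 3) * (k + 3 + 4) * (k + 3 + 5)) < (k + 3 + 1 + 1) * (k + 3 + 1 + 3) * (k + 3 + 1 + 4) * (k + 3 + 1 + 5) + 120 := by
      have := hU.2
      have := hG.1
      omega
    have h2 : (k + 3 + 1 + 1) * (k + 3 + 1 + 3) * (k + 3 + 1 + 4) * (k + 3 + 1 + 5) < 120 * Q + ((k + 3 + 1) * (k + 3 + 3) * (k + 3 + 4) * (k + 3 + 5)) + 120 := by
      have := hU.1
      have := hG.2
      omega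
    have hQg : g3 ≤ Q := by
      by_contra hc
      push Not at hc
      have : Q + 1 ≤ g3 := hc
      nlinarith [sq_nonneg k]
    have hk : kap (k + 3 + 1) (4 - 1) Q = NN (k + 3 + 1) 3 - (k + 3 + 1 + 1) * g3 - 2 * (Q - g3) := by
      simp only [kap]
      rw [if_neg (by norm_num)]
      have : (4 - 1 : ℕ) = 3 := rfl
      rw [this, hg3, min_eq_right hQg]
      simp
    rw [hk]
    obtain ⟨R, rfl⟩ : ∃ R, Q = g3 + R := Nat.exists_eq_add_of_le hQg
    have e1 : g3 + R - g3 = R := by omega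
    rw [e1]
    have hmain1 : U + (k + 3 + 2) * (g3 + R) ≤ NN (k + 3 + 1) 4 := by
      nlinarith [hU.1, hG.1, sq_nonneg k]
    have hmain2 : NN (k + 3 + 1) 3 + U + (k + 3 + 2) * (g3 + R) ≤ NN (k + 3 + 1) 4 + (k + 3 + 1 + 1) * g3 + 2 * R := by
      nlinarith [hU.1, hG.1, sq_nonneg k]
    omega

end Pool.Agent.War5
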