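import Pool.Agent.War5.Stmts

/-!
# W5_SN5: the numerical condition of the Horace step, target degree 6
-/

set_option autoImplicit false

open Module MvPolynomial
open Pool.Agent.War Pool.Agent.WarS

namespace Pool.Agent.War5

namespace SN5aux

lemma div_bd (C N k A : ℕ) (hC : 0 < C) (hk : 0 < k) (h : C * N = k * A) :
    C * (N / k) ≤ A ∧ A < C * (N / k) + C := by
  have h1 : N / k * k ≤ N := Nat.div_mul_le_self N k
  have h2 : N < (N / k + 1) * k := by
    have h3 := Nat.div_add_mod N k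
    have h4 := Nat.mod_lt N hk
    nlinarith
  constructor
  · refine Nat.le_of_mul_le_mul_left ?_ hk
    calc k * (C * (N / k)) = C * (N / k * k) := by ring
      _ ≤ C * N := Nat.mul_le_mul_left _ h1
      _ = k * A := h
  · refine Nat.lt_of_mul_lt_mul_left (a := k) ?_
    calc k * A = C * N := h.symm
      _ < C * ((N / k + 1) * k) := Nat.mul_lt_mul_of_pos_left h2 hC
      _ = k * (C * (N / k) + C) := by ring

/-- the arithmetic core, `m = k + 5` -/
lemma core (k G U Q P N4 N5 F : ℤ)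
    (hG1 : 720 * G ≤ (k + 6) * (k + 8) * (k + 9) * (k + 10) * (k + 11))
    (hG2 : (k + 6) * (k + 8) * (k + 9) * (k + 10) * (k + 11) < 720 * G + 720)
    (hU1 : 720 * U ≤ (k + 5) * (k + 7) * (k + 8) * (k + 9) * (k + 10))
    (hU2 : (k + 5) * (k + 7) * (k + 8) * (k + 9) * (k + 10) < 720 * U + 720)
    (hF : (k + 6) * (k + 8) * (k + 9) * (k + 10) < 120 * F + 120)
    (hk : 0 ≤ k) (hQ : Q = G - U)
    (h4 : 24 * N4 = (k + 6) * (k + 7) * (k + 8) * (k + 9))
    (h5 : 120 * N5 = (k + 6) * (k + 7) * (k + 8) * (k + 9) * (k + 10))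
    (hP : (k + 8) * (k + 9) * (2 * k + 17) ≤ 54 * P + 30 + 48 * (k + 6)) :
    U ≤ G ∧ Q ≤ F ∧ N4 + U ≤ N5 ∧ U + (k + 6) * Q ≤ N5 ∧
      N4 - (k + 6) * P + U + (k + 6) * Q ≤ N5 := by
  have k2 : 0 ≤ k ^ 2 := by positivity
  have k3 : 0 ≤ k ^ 3 := by positivity
  have k4 : 0 ≤ k ^ 4 := by positivity
  have k5 : 0 ≤ k ^ 5 := by positivity
  refine ⟨by nlinarith, by nlinarith, by nlinarith, ?_, ?_⟩
  · have h1 : 720 * (U + (k + 6) * Q) = 720 * G + (k + 5) * (720 * G - 720 * U) := by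
      rw [hQ]; ring
    have h2 : (k + 5) * (720 * G - 720 * U) ≤ (k + 5) *
        ((k + 6) * (k + 8) * (k + 9) * (k + 10) * (k + 11) -
          (k + 5) * (k + 7) * (k + 8) * (k + 9) * (k + 10) + 720) :=
      mul_le_mul_of_nonneg_left (by linarith) (by linarith)
    nlinarith
  · have h1 : 720 * (U + (k + 6) * Q) = 720 * G + (k + 5) * (720 * G - 720 * U) := by
      rw [hQ]; ring
    have h2 : (k + 5) * (720 * G - 720 * U) ≤ (k + 5) *
        ((k + 6) * (k + 8) * (k + 9) * (k + 10) * (k + 11) -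
          (k + 5) * (k + 7) * (k + 8) * (k + 9) * (k + 10) + 720) :=
      mul_le_mul_of_nonneg_left (by linarith) (by linarith)
    have h3 : (k + 6) * ((k + 8) * (k + 9) * (2 * k + 17)) ≤
        (k + 6) * (54 * P + 30 + 48 * (k + 6)) := mul_le_mul_of_nonneg_left hP (by linarith)
    nlinarith

end SN5aux

open SN5aux in
theorem x_SN5 (hCF : S_CF) (hP : S_P4B) : S_SN5 := by
  intro n hn
  rcases Nat.lt_or_ge n 4 with h | h
  · interval_cases n
    · unfold SN; decide
    · unfold SN; decide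
    · unfold SN; decide
  obtain ⟨k, rfl⟩ := Nat.exists_eq_add_of_le' h
  obtain ⟨-, -, c4, c5, c6⟩ := hCF (k + 4 + 1)
  obtain ⟨-, -, -, -, d6⟩ := hCF (k + 4)
  have g1 : gg (k + 4) 6 = NN (k + 4) 6 / (k + 4 + 2) := by
    unfold gg
    rw [if_neg (by omega), if_neg (by omega), if_neg (by omega), if_neg (by omega)]
  have g2 : gg (k + 4 + 1) 6 = NN (k + 4 + 1) 6 / (k + 4 + 1 + 2) := by
    unfold gg
    rw [if_neg (by omega), if_neg (by omega), if_neg (by omega), if_neg (by omega)]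
  have g3 : gg (k + 4 + 1) 5 = NN (k + 4 + 1) 5 / (k + 4 + 1 + 2) := by
    unfold gg
    rw [if_neg (by omega), if_neg (by omega), if_neg (by omega), if_neg (by omega)]
  have g4 : gg (k + 4 + 1) 4 = P4 (k + 4 + 1) := by
    unfold gg
    rw [if_neg (by omega), if_neg (by omega), if_pos rfl]
  have b1 := div_bd 720 (NN (k + 4 + 1) 6) (k + 4 + 1 + 2)
    ((k + 6) * (k + 8) * (k + 9) * (k + 10) * (k + 11)) (by norm_num) (by omega) (by rw [c6]; ring)
  have b2 := div_bd 720 (NN (k + 4) 6) (k + 4 + 2)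
    ((k + 5) * (k + 7) * (k + 8) * (k + 9) * (k + 10)) (by norm_num) (by omega) (by rw [d6]; ring)
  have b3 := div_bd 120 (NN (k + 4 + 1) 5) (k + 4 + 1 + 2)
    ((k + 6) * (k + 8) * (k + 9) * (k + 10)) (by norm_num) (by omega) (by rw [c5]; ring)
  rw [← g1] at b2
  rw [← g2] at b1
  rw [← g3] at b3
  have p1 := (hP (k + 4 + 1)).2
  unfold SN
  have e5 : (5 : ℕ) + 1 = 6 := rfl
  have e4 : (5 : ℕ) - 1 = 4 := rfl
  rw [e5, e4]
  generalize gg (k + 4 + 1) 6 = G at *
  generalize gg (k + 4) 6 = U at *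
  generalize gg (k + 4 + 1) 5 = F at *
  have hkap : ∀ q : ℕ, kap (k + 4 + 1) 4 q =
      NN (k + 4 + 1) 4 - (k + 4 + 1 + 1) * min q (P4 (k + 4 + 1)) := by
    intro q
    unfold kap
    rw [if_neg (by omega), if_neg (by omega), g4, Nat.sub_zero]
  rw [hkap]
  generalize P4 (k + 4 + 1) = P at *
  generalize NN (k + 4 + 1) 4 = N4 at *
  generalize NN (k + 4 + 1) 5 = N5 at *
  have hGU : U ≤ G := by
    have h0 := (core k G U (G - U) P N4 N5 F (by exact_mod_cast b1.1) (by exact_mod_cast b1.2)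
      (by exact_mod_cast b2.1) (by exact_mod_cast b2.2) (by exact_mod_cast b3.2) (by positivity)
      rfl (by zify at c4; linarith) (by zify at c5; linarith) (by zify at p1; linarith)).1
    exact_mod_cast h0
  obtain ⟨Q, hQ⟩ := Nat.exists_eq_add_of_le hGU
  have hQ' : G - U = Q := by omega
  rw [hQ']
  obtain ⟨-, h2, h3, h4, h5⟩ := core k G U Q P N4 N5 F (by exact_mod_cast b1.1)
      (by exact_mod_cast b1.2)
      (by exact_mod_cast b2.1) (by exact_mod_cast b2.2) (by exact_mod_cast b3.2) (by positivity)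
      (by rw [hQ]; push_cast; ring) (by zify at c4; linarith) (by zify at c5; linarith)
      (by zify at p1; linarith)
  refine ⟨hGU, by zify; linarith, ?_⟩
  have e6 : k + 4 + 1 + 1 = k + 6 := by omega
  have e7 : k + 4 + 2 = k + 6 := by omega
  rw [e6, e7]
  rcases le_total ((k + 6) * min Q P) N4 with hc | hc
  · rcases le_total Q P with hq | hq
    · rw [min_eq_left hq] at hc ⊢
      zify
      rw [Nat.cast_sub hc]
      push_cast
      linarith
    · rw [min_eq_right hq] at hc ⊢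
      zify
      rw [Nat.cast_sub hc]
      push_cast
      linarith
  · rw [Nat.sub_eq_zero_of_le hc, zero_add]
    zify
    linarith

end Pool.Agent.War5
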