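import Pool.Agent.War5.Stmts

/-!
# Module SN6: the numerical condition of the Horace step, degree at least seven
-/

set_option autoImplicit false

open Module MvPolynomial
open Pool.Agent.War Pool.Agent.WarS

namespace Pool.Agent.War5

namespace SN6aux

theorem gg_eq {n d : ℕ} (hn : 3 ≤ n) (hd : 5 ≤ d) : gg n d = NN n d / (n + 2) := by
  unfold gg
  rw [if_neg (by omega), if_neg (by omega), if_neg (by omega), if_neg (by omega)]

theorem kap_eq {m d q : ℕ} (hd : 5 ≤ d) :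
    kap m d q = NN m d - (m + 1) * min q (gg m d) := by
  unfold kap
  rw [if_neg (by omega), if_neg (by omega), Nat.sub_zero]

theorem ratio (n d : ℕ) : NN n d * (n + d + 1) = NN n (d + 1) * (d + 1) := by
  have h := Nat.choose_mul_succ_eq (n + d) n
  have h1 : n + d + 1 - n = d + 1 := by omega
  rw [h1] at h
  exact h

theorem lt_div (a c : ℕ) (hc : 0 < c) : a < c * (a / c) + c := by
  have h1 := Nat.div_add_mod a c
  have h2 := Nat.mod_lt a hc
  omega

/-- the arithmetic: `T = T_(d+1)`, `T' = T_d`, `C = N(m,d-1)`, `m = k + 4`, `d = e + 6` -/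
theorem arith (k e T T' C S : ℕ) (hT : T' * (k + e + 10) = T * (e + 7)) (hS : S ≤ T')
    (hS6 : 720 * S = (k + 4) * (k + 5) * (k + 6) * (k + 7) * (k + 8) * (k + 9)) :
    T / (k + 5) ≤ (T + (T' + C)) / (k + 6) ∧
    (T + (T' + C)) / (k + 6) ≤ T / (k + 5) + (T' + C) / (k + 6) ∧
    (C - (k + 5) * min ((T + (T' + C)) / (k + 6) - T / (k + 5)) (C / (k + 6))) + T / (k + 5) +
      (k + 5) * ((T + (T' + C)) / (k + 6) - T / (k + 5)) ≤ T' + C := by
  -- `T ≤ (m+1) T'`, `T' ≤ T`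
  have hT1 : T ≤ T' * (k + 5) := by
    have h1 : T * (e + 7) ≤ T' * (k + 5) * (e + 7) := by
      rw [← hT, mul_assoc]
      refine Nat.mul_le_mul_left _ ?_
      have e1 : (k + 5) * (e + 7) = k * e + 7 * k + 5 * e + 35 := by ring
      rw [e1]
      have := Nat.zero_le (k * e)
      omega
    exact Nat.le_of_mul_le_mul_right h1 (by omega)
  have hT2 : T' ≤ T := by
    have h1 : T' * (e + 7) ≤ T * (e + 7) := by
      rw [← hT]
      exact Nat.mul_le_mul_left _ (by omega)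
    exact Nat.le_of_mul_le_mul_right h1 (by omega)
  have hUT' : T / (k + 5) ≤ T' := by
    rw [Nat.div_le_iff_le_mul_add_pred (by omega)]
    have e1 : (k + 5) * T' = T' * (k + 5) := mul_comm _ _
    omega
  have hUm : k + 4 ≤ T / (k + 5) := by
    rw [Nat.le_div_iff_mul_le (by omega)]
    have h1 : 720 * ((k + 4) * (k + 5)) ≤ 720 * S := by
      rw [hS6]
      have e1 : (k + 4) * (k + 5) * (k + 6) * (k + 7) * (k + 8) * (k + 9) =
          720 * ((k + 4) * (k + 5)) + (46080 + 53736 * k + 23854 * k ^ 2 + 5265 * k ^ 3 +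
            625 * k ^ 4 + 39 * k ^ 5 + k ^ 6) := by ring
      rw [e1]
      exact Nat.le_add_right _ _
    omega
  -- the main inequality `T + (m+1)^3 + m^2 (m+2) ≤ (m+1) T'`
  have hmain : T + ((k + 5) ^ 3 + (k + 4) ^ 2 * (k + 6)) ≤ (k + 5) * T' := by
    have h1 : 5040 * ((k + 5) ^ 3 + (k + 4) ^ 2 * (k + 6)) ≤ 720 * (T' * (6 * k + 25)) := by
      have h2 : 720 * (S * (6 * k + 25)) ≤ 720 * (T' * (6 * k + 25)) :=
        Nat.mul_le_mul_left _ (Nat.mul_le_mul_right _ hS)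
      refine le_trans ?_ h2
      have e0 : 720 * (S * (6 * k + 25)) = 720 * S * (6 * k + 25) := by ring
      rw [e0, hS6]
      have e1 : (k + 4) * (k + 5) * (k + 6) * (k + 7) * (k + 8) * (k + 9) * (6 * k + 25) =
          5040 * ((k + 5) ^ 3 + (k + 4) ^ 2 * (k + 6)) + (398160 + 1167720 * k + 829486 * k ^ 2 +
            268989 * k ^ 3 + 47215 * k ^ 4 + 4725 * k ^ 5 + 259 * k ^ 6 + 6 * k ^ 7) := by ring
      rw [e1]
      exact Nat.le_add_right _ _
    have h3 : 7 * ((k + 5) ^ 3 + (k + 4) ^ 2 * (k + 6)) ≤ T' * (6 * k + 25) := by omega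
    -- `(d+1) ((m+1) T' - T) = T' (m d + 1)`, `7 (m d + 1) ≥ (6 m + 1) (d + 1)`
    have h4 : T' * (6 * k + 25) * (e + 7) ≤ 7 * (T' * ((k + 4) * (e + 6) + 1)) := by
      have e1 : 7 * (T' * ((k + 4) * (e + 6) + 1)) = T' * (7 * ((k + 4) * (e + 6) + 1)) := by ring
      rw [e1, mul_assoc]
      refine Nat.mul_le_mul_left _ ?_
      have e2 : 7 * ((k + 4) * (e + 6) + 1) = (6 * k + 25) * (e + 7) + (k * e + 3 * e) := by ring
      rw [e2]
      exact Nat.le_add_right _ _
    have h5 : (k + 5) * T' * (e + 7) = T * (e + 7) + T' * ((k + 4) * (e + 6) + 1) := by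
      rw [← hT]
      ring
    have h6 : (7 * ((k + 5) ^ 3 + (k + 4) ^ 2 * (k + 6))) * (e + 7) ≤
        T' * (6 * k + 25) * (e + 7) := Nat.mul_le_mul_right _ h3
    have h7 : (T + ((k + 5) ^ 3 + (k + 4) ^ 2 * (k + 6))) * (e + 7) ≤
        (k + 5) * T' * (e + 7) := by
      have e3 : (7 * ((k + 5) ^ 3 + (k + 4) ^ 2 * (k + 6))) * (e + 7) =
        7 * (((k + 5) ^ 3 + (k + 4) ^ 2 * (k + 6)) * (e + 7)) := by ring
      rw [e3] at h6
      rw [add_mul, h5]
      omega
    exact Nat.le_of_mul_le_mul_right h7 (by omega)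
  -- division facts
  have dU1 : (k + 5) * (T / (k + 5)) ≤ T := Nat.mul_div_le _ _
  have dU2 : T < (k + 5) * (T / (k + 5)) + (k + 5) := lt_div T (k + 5) (by omega)
  have dG1 : (k + 6) * ((T + (T' + C)) / (k + 6)) ≤ T + (T' + C) := Nat.mul_div_le _ _
  have dB2 : T' + C < (k + 6) * ((T' + C) / (k + 6)) + (k + 6) := lt_div _ (k + 6) (by omega)
  have dg1 : (k + 6) * (C / (k + 6)) ≤ C := Nat.mul_div_le _ _
  have dg2 : C < (k + 6) * (C / (k + 6)) + (k + 6) := lt_div _ (k + 6) (by omega)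
  have hUG : T / (k + 5) ≤ (T + (T' + C)) / (k + 6) := by
    rw [Nat.le_div_iff_mul_le (by omega)]
    have e1 : T / (k + 5) * (k + 6) = (k + 5) * (T / (k + 5)) + T / (k + 5) := by ring
    omega
  generalize T / (k + 5) = U at *
  generalize (T + (T' + C)) / (k + 6) = G at *
  generalize (T' + C) / (k + 6) = gd at *
  generalize C / (k + 6) = g at *
  refine ⟨hUG, ?_, ?_⟩
  · by_contra hcon
    have h1 : U + gd + 1 ≤ G := by omega
    have h2 : (k + 6) * (U + gd + 1) ≤ (k + 6) * G := Nat.mul_le_mul_left _ h1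
    have e1 : (k + 6) * (U + gd + 1) = (k + 5) * U + U + (k + 6) * gd + (k + 6) := by ring
    rw [e1] at h2
    omega
  · obtain ⟨Q, rfl⟩ : ∃ Q, G = U + Q := ⟨G - U, by omega⟩
    rw [Nat.add_sub_cancel_left]
    rcases Nat.le_total Q g with hQ | hQ
    · rw [min_eq_left hQ]
      have h1 : (k + 5) * Q ≤ (k + 5) * g := Nat.mul_le_mul_left _ hQ
      have h2 : (k + 6) * g = (k + 5) * g + g := by ring
      omega
    · rw [min_eq_right hQ]
      have h2 : (k + 6) * g = (k + 5) * g + g := by ring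
      have key : U + (k + 5) * Q ≤ T' + (k + 5) * g := by
        have h3 : ((k + 5) * (k + 6)) * (U + (k + 5) * Q) ≤
            ((k + 5) * (k + 6)) * (T' + (k + 5) * g) := by
          have a1 : (k + 5) ^ 2 * ((k + 6) * (U + Q)) ≤ (k + 5) ^ 2 * (T + (T' + C)) :=
            Nat.mul_le_mul_left _ dG1
          have a2 : (k + 5) ^ 2 * C ≤ (k + 5) ^ 2 * ((k + 6) * g + (k + 5)) :=
            Nat.mul_le_mul_left _ (by omega)
          have a3 : (k + 4) * (k + 6) * T ≤ (k + 4) * (k + 6) * ((k + 5) * U + (k + 4)) :=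
            Nat.mul_le_mul_left _ (by omega)
          zify at a1 a2 a3 hmain ⊢
          linarith
        exact Nat.le_of_mul_le_mul_left h3 (by positivity)
      omega

end SN6aux

open SN6aux

theorem x_SN6 (hCF : S_CF) : S_SN6 := by
  intro n d hn hd
  obtain ⟨k, rfl⟩ : ∃ k, n = k + 3 := ⟨n - 3, by omega⟩
  obtain ⟨e, rfl⟩ : ∃ e, d = e + 6 := ⟨d - 6, by omega⟩
  have hA : NN (k + 3 + 1) (e + 6 + 1) = NN (k + 3) (e + 6 + 1) + NN (k + 3 + 1) (e + 6) :=
    NN_succ (k + 3) (e + 6)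
  have hB : NN (k + 3 + 1) (e + 6) = NN (k + 3) (e + 6) + NN (k + 3 + 1) (e + 5) :=
    NN_succ (k + 3) (e + 5)
  have hT := ratio (k + 3) (e + 6)
  have hS : NN (k + 3) 6 ≤ NN (k + 3) (e + 6) := NN_mono_right (by omega)
  have hS6 := (hCF (k + 3)).2.2.2.2
  have key := arith k e (NN (k + 3) (e + 6 + 1)) (NN (k + 3) (e + 6)) (NN (k + 3 + 1) (e + 5))
    (NN (k + 3) 6) (by
      have e1 : k + 3 + (e + 6) + 1 = k + e + 10 := by ring
      rw [e1] at hT
      exact hT) hS (by rw [hS6])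
  unfold SN
  have e5 : e + 6 - 1 = e + 5 := by omega
  rw [gg_eq (n := k + 3) (by omega) (by omega), gg_eq (n := k + 3 + 1) (by omega) (by omega),
    gg_eq (n := k + 3 + 1) (by omega) (by omega), e5, kap_eq (by omega),
    gg_eq (n := k + 3 + 1) (by omega) (by omega), hA, hB]
  exact key

end Pool.Agent.War5
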