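import Pool.Agent.War5.Stmts

set_option autoImplicit false

open Module MvPolynomial
open Pool.Agent.War Pool.Agent.WarS

namespace Pool.Agent.War5

namespace SN7aux

theorem NN2 (k : ℕ) : 2 * NN 2 k = (k + 1) * (k + 2) := by
  induction k with
  | zero => simp
  | succ k ih =>
    rw [NN_succ, NN_one, mul_add, ih]
    ring

theorem NN3_ge (k : ℕ) (hk : 5 ≤ k) : k + 3 ≤ NN 3 k := by
  induction k, hk using Nat.le_induction with
  | base => decide
  | succ k hk ih =>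
    have h1 := NN_succ 2 k
    have h2 : 0 < NN 2 (k + 1) := NN_pos _ _
    have h3 : NN 3 (k + 1) = NN 2 (k + 1) + NN 3 k := h1
    omega

theorem gg1 (k : ℕ) : gg 1 k = (k + 1) / 2 := by simp [gg]

theorem gg2 (k : ℕ) (hk : 5 ≤ k) : gg 2 k = 2 * NN 2 k / 7 := by
  unfold gg
  rw [if_neg (by omega), if_neg (by omega), if_neg (by omega), if_pos rfl]

theorem gg3 (k : ℕ) (hk : 5 ≤ k) : gg 3 k = NN 3 k / 5 := by
  unfold gg
  rw [if_neg (by omega), if_neg (by omega), if_neg (by omega), if_neg (by omega)]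

theorem kap_eq (m e q : ℕ) (he : 5 ≤ e) : kap m e q = NN m e - (m + 1) * min q (gg m e) := by
  unfold kap
  rw [if_neg (by omega), if_neg (by omega), Nat.sub_zero]

theorem case1 (e : ℕ) (he : 5 ≤ e) : SN 1 (e + 1) := by
  have a0 := NN2 e
  have a1 : NN 2 (e + 1) = e + 2 + NN 2 e := by
    have h := NN_succ 1 e
    rw [NN_one] at h
    have h3 : NN 2 (e + 1) = e + 1 + 1 + NN 2 e := h
    omega
  have a2 : NN 2 (e + 1 + 1) = e + 3 + NN 2 (e + 1) := by
    have h := NN_succ 1 (e + 1)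
    rw [NN_one] at h
    have h3 : NN 2 (e + 1 + 1) = e + 1 + 1 + 1 + NN 2 (e + 1) := h
    omega
  have g1 := gg1 (e + 1 + 1)
  have g2 := gg2 (e + 1 + 1) (by omega)
  have g3 := gg2 (e + 1) (by omega)
  have g4 := gg2 e he
  have hk := kap_eq 2 e (gg 2 (e + 1 + 1) - gg 1 (e + 1 + 1)) he
  unfold SN
  show gg 1 (e + 1 + 1) ≤ gg 2 (e + 1 + 1) ∧ gg 2 (e + 1 + 1) ≤ gg 1 (e + 1 + 1) + gg 2 (e + 1) ∧
    kap 2 e (gg 2 (e + 1 + 1) - gg 1 (e + 1 + 1)) + gg 1 (e + 1 + 1) +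
      3 * (gg 2 (e + 1 + 1) - gg 1 (e + 1 + 1)) ≤ NN 2 (e + 1)
  rw [hk, g1, g2, g3, g4, a2, a1]
  generalize hN : NN 2 e = N at *
  have hb : 7 * e + 7 ≤ 2 * N := by
    rw [a0]
    nlinarith
  by_cases h10 : 10 ≤ e
  · refine ⟨by omega, by omega, ?_⟩
    rw [Nat.min_def]
    split_ifs <;> omega
  · have h5 : e = 5 ∨ e = 6 ∨ e = 7 ∨ e = 8 ∨ e = 9 := by omega
    rcases h5 with rfl | rfl | rfl | rfl | rfl
    · have : N = 21 := by omega
      subst this
      decide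
    · have : N = 28 := by omega
      subst this
      decide
    · have : N = 36 := by omega
      subst this
      decide
    · have : N = 45 := by omega
      subst this
      decide
    · have : N = 55 := by omega
      subst this
      decide

theorem case2 (e : ℕ) (he : 5 ≤ e) : SN 2 (e + 1) := by
  have a0 := NN2 e
  have a1 : NN 2 (e + 1) = e + 2 + NN 2 e := by
    have h := NN_succ 1 e
    rw [NN_one] at h
    have h3 : NN 2 (e + 1) = e + 1 + 1 + NN 2 e := h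
    omega
  have a2 : NN 2 (e + 1 + 1) = e + 3 + NN 2 (e + 1) := by
    have h := NN_succ 1 (e + 1)
    rw [NN_one] at h
    have h3 : NN 2 (e + 1 + 1) = e + 1 + 1 + 1 + NN 2 (e + 1) := h
    omega
  have b1 : NN 3 (e + 1) = NN 2 (e + 1) + NN 3 e := NN_succ 2 e
  have b2 : NN 3 (e + 1 + 1) = NN 2 (e + 1 + 1) + NN 3 (e + 1) := NN_succ 2 (e + 1)
  have b3 := NN3_ge e he
  have g1 := gg2 (e + 1 + 1) (by omega)
  have g2 := gg3 (e + 1 + 1) (by omega)
  have g3 := gg3 (e + 1) (by omega)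
  have g4 := gg3 e he
  have hk := kap_eq 3 e (gg 3 (e + 1 + 1) - gg 2 (e + 1 + 1)) he
  unfold SN
  show gg 2 (e + 1 + 1) ≤ gg 3 (e + 1 + 1) ∧ gg 3 (e + 1 + 1) ≤ gg 2 (e + 1 + 1) + gg 3 (e + 1) ∧
    kap 3 e (gg 3 (e + 1 + 1) - gg 2 (e + 1 + 1)) + gg 2 (e + 1 + 1) +
      4 * (gg 3 (e + 1 + 1) - gg 2 (e + 1 + 1)) ≤ NN 3 (e + 1)
  rw [hk, g1, g2, g3, g4, b2, b1, a2, a1]
  generalize NN 2 e = N at *
  generalize NN 3 e = M at *
  have hb : 7 * e + 7 ≤ 2 * N := by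
    rw [a0]
    nlinarith
  clear a0
  refine ⟨by omega, by omega, ?_⟩
  rw [Nat.min_def]
  split_ifs <;> omega

end SN7aux

open SN7aux in
/-- SN7. -/
theorem x_SN7 : S_SN7 := by
  intro n d h1 h2 h3
  obtain ⟨e, rfl⟩ : ∃ e, d = e + 1 := ⟨d - 1, by omega⟩
  have hn : n = 1 ∨ n = 2 := by omega
  rcases hn with rfl | rfl
  · exact case1 e (by omega)
  · exact case2 e (by omega)

end Pool.Agent.War5
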