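import Pool.Agent.War5.FEW5
import Pool.Agent.War5.AG
import Pool.Agent.War5.AK
import Pool.Agent.War5.CF
import Pool.Agent.War5.Cub5
import Pool.Agent.War5.DR
import Pool.Agent.War5.G1
import Pool.Agent.War5.HD5
import Pool.Agent.War5.KAP
import Pool.Agent.War5.MO
import Pool.Agent.War5.NC
import Pool.Agent.War5.NG3
import Pool.Agent.War5.NG4
import Pool.Agent.War5.NG5
import Pool.Agent.War5.NG6
import Pool.Agent.War5.NS
import Pool.Agent.War5.P4B
import Pool.Agent.War5.QD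
import Pool.Agent.War5.RES5
import Pool.Agent.War5.SN3
import Pool.Agent.War5.SN4
import Pool.Agent.War5.SN5
import Pool.Agent.War5.SN6
import Pool.Agent.War5.SN7
import Pool.Agent.WarS.Main

/-!
# Simultaneous Waring decompositions (MP_db021c_ag): few forms, all degrees ≥ 5   (helper54)
-/

set_option autoImplicit false

open Module MvPolynomial
open Pool.Agent.War Pool.Agent.WarS

namespace Pool.Agent.War5

/-- many independent double points -/
theorem dbl : S_AG := x_AG x_G1 CUB x_MO x_AK (x_KAP x_MO x_QD x_DR) (x_SN3 x_CF x_P4B)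
  (x_SN4 x_CF x_P4B) (x_SN5 x_CF x_P4B) (x_SN6 x_CF) x_SN7

theorem few5 : S_FEW5 := x_FEW5 dbl (x_RES5 WarS.SG x_HD5) (TRA WarS.SG) DH x_NC x_NS
  (x_NG3 x_CF x_P4B) (x_NG4 x_CF x_P4B) (x_NG5 x_CF) x_NG6

/-- at most n forms, degree at least 5 -/
theorem W_few (n d s h : ℕ) (hn : 2 ≤ n) (hs : 2 ≤ s) (hsn : s ≤ n) (hd : 5 ≤ d) :
    Waring.W d h n s ↔ min s ((n + d).choose n) ≤ h ∧ s * (n + d).choose n ≤ h * (n + s) := by
  refine ⟨fun H => ⟨H.bound2, H.bound1 (by omega)⟩, fun H => ?_⟩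
  obtain ⟨m, rfl⟩ : ∃ m, n = m + 1 := ⟨n - 1, by omega⟩
  obtain ⟨r, rfl⟩ : ∃ r, s = r + 1 := ⟨s - 1, by omega⟩
  obtain ⟨e, rfl⟩ : ∃ e, d = e + 2 := ⟨d - 2, by omega⟩
  have h2 : (r + 1) * War.NN (m + 1) (e + 2) ≤ (m + r + 2) * h := by
    have := H.2
    unfold War.NN
    calc _ ≤ _ := this
      _ = _ := by ring
  obtain ⟨z, a, y, hK⟩ := few5 m e r h (by omega) (by omega) (by omega) (by omega) h2
  exact Waring.W_of_dual z a fun g hg h1 h2 => hK g hg h1 h2 fun i => i.elim0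

end Pool.Agent.War5
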