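import Pool.Agent.War5.Stmts

/-!
# Quadrics with `q` double points (MP_db021c_ag)   (helper78)
-/

set_option autoImplicit false

open Module MvPolynomial
open Pool.Agent.War Pool.Agent.WarS

namespace Pool.Agent.War5

namespace QDaux

theorem pderiv_of_deg_one {n : ℕ} (k : Fin n) {g : MvPolynomial (Fin n) ℂ}
    (hg : g.totalDegree ≤ 1) : pderiv k g = C (g.coeff (Finsupp.single k 1)) := by
  ext m
  rw [coeff_pderiv, coeff_C]
  by_cases hm : m = 0
  · subst hm
    simp
  · rw [if_neg (fun h => hm h.symm), coeff_eq_zero_of_totalDegree_lt, zero_mul]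
    obtain ⟨i, hi⟩ : ∃ i, m i ≠ 0 := by
      by_contra hcon
      push Not at hcon
      exact hm (Finsupp.ext hcon)
    refine lt_of_le_of_lt hg ?_
    have h1 : (m + Finsupp.single k 1).sum (fun _ e => e) = (m.sum fun _ e => e) + 1 := by
      rw [Finsupp.sum_add_index' (fun _ => rfl) (fun _ _ _ => rfl), Finsupp.sum_single_index rfl]
    have h2 : 1 ≤ m.sum fun _ e => e := by
      have : m i ≤ m.sum fun _ e => e :=
        Finset.single_le_sum (f := fun i => m i) (fun _ _ => Nat.zero_le _)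
          (Finsupp.mem_support_iff.2 hi)
      omega
    change 1 < (m + Finsupp.single k 1).sum (fun _ e => e)
    omega

/-- degree one: a double point kills everything -/
theorem lin_zero {n : ℕ} {g : MvPolynomial (Fin n) ℂ} (hg : g.totalDegree ≤ 1)
    (h0 : eval 0 g = 0) {z : Fin n → ℂ} (h1 : ∀ k, eval z (pderiv k g) = 0) : g = 0 := by
  have h2 : ∀ k, pderiv k g = 0 := by
    intro k
    have h := h1 k
    rw [pderiv_of_deg_one k hg, eval_C] at h
    rw [pderiv_of_deg_one k hg, h, C_0]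
  ext m
  rw [coeff_zero]
  by_cases hm : m = 0
  · subst hm
    have h3 : constantCoeff g = 0 := by
      rw [← h0]
      simp
    exact h3
  · obtain ⟨i, hi⟩ : ∃ i, m i ≠ 0 := by
      by_contra hcon
      push Not at hcon
      exact hm (Finsupp.ext hcon)
    have h3 : m - Finsupp.single i 1 + Finsupp.single i 1 = m := by
      ext j
      by_cases hj : j = i
      · subst hj
        simp
        omega
      · simp [Ne.symm hj]
    have h4 := coeff_pderiv (i := i) g (m - Finsupp.single i 1)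
    rw [h2 i, coeff_zero, h3] at h4
    rcases mul_eq_zero.1 h4.symm with h5 | h5
    · exact h5
    · exfalso
      exact Nat.cast_add_one_ne_zero _ h5

theorem map_le {n q : ℕ} {z : Fin (q + 1) → Fin n → ℂ} {z' : Fin (q + 2) → Fin (n + 1) → ℂ}
    (h : ∀ j : Fin (q + 1), z' j.castSucc = hp (z j)) :
    (Dbl (n + 1) 2 Finset.univ z').map (resL n 2) ≤ Dbl n 2 Finset.univ z := by
  rintro _ ⟨f, hf, rfl⟩
  refine ⟨fun j => ?_, fun j _ k => ?_⟩
  · rw [resL_coe, ← eval_hp, ← h j]
    exact hf.1 _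
  · rw [resL_coe, ← eval_hp_pderiv, ← h j]
    exact hf.2 _ (Finset.mem_univ _) _

theorem ker_le {n q : ℕ} {z' : Fin (q + 2) → Fin (n + 1) → ℂ}
    (h0 : z' 0 = 0) (h1 : z' (Fin.last _) 0 ≠ 0) :
    finrank ℂ ↥(Dbl (n + 1) 2 Finset.univ z' ⊓ LinearMap.ker (resL n 2)) ≤ 0 := by
  refine (finrank_inf_ker_le (d := 1) _ (⊥ : Submodule ℂ (Pol (n + 1) 1)) fun g hg => ?_).trans
    (by simp)
  have h2 := off_hyp h1 (hg.1 _) (hg.2 _ (Finset.mem_univ _))
  have h3 := hg.2 0 (Finset.mem_univ _) 0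
  rw [eval_pderiv_mulX_zero, h0] at h3
  have h4 : eval (0 : Fin (n + 1) → ℂ) (g : MvPolynomial (Fin (n + 1)) ℂ) = 0 := by
    simpa using h3
  rw [Submodule.mem_bot]
  exact Subtype.ext (lin_zero (mem_Pol.1 g.2) h4 h2.2)

/-- the double point `0` -/
theorem one_point : ∀ n : ℕ,
    finrank ℂ (Dbl n 2 Finset.univ (fun _ : Fin 1 => (0 : Fin n → ℂ))) ≤ (n + 1) * n / 2
  | 0 => by
    rw [mul_zero, Nat.zero_div, Nat.le_zero, Submodule.finrank_eq_zero, eq_bot_iff]
    intro f hf
    rw [Submodule.mem_bot]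
    apply Subtype.ext
    obtain ⟨c, hc⟩ := C_surjective (R := ℂ) (Fin 0) (f : MvPolynomial (Fin 0) ℂ)
    have h := hf.1 0
    rw [← hc, eval_C] at h
    rw [← hc, h, C_0]
    rfl
  | n + 1 => by
    have ih := one_point n
    have h := finrank_le_map_add_ker (resL n 2) (Dbl (n + 1) 2 Finset.univ
      (fun _ : Fin 1 => (0 : Fin (n + 1) → ℂ)))
    have hp0 : (0 : Fin (n + 1) → ℂ) = hp (0 : Fin n → ℂ) := by
      ext i
      refine Fin.cases ?_ (fun j => ?_) i <;> simp
    have h1 : (Dbl (n + 1) 2 Finset.univ (fun _ : Fin 1 => (0 : Fin (n + 1) → ℂ))).map (resL n 2) ≤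
        Dbl n 2 Finset.univ (fun _ : Fin 1 => (0 : Fin n → ℂ)) := by
      rintro _ ⟨f, hf, rfl⟩
      refine ⟨fun j => ?_, fun j _ k => ?_⟩
      · rw [resL_coe, ← eval_hp, ← hp0]
        exact hf.1 j
      · rw [resL_coe, ← eval_hp_pderiv, ← hp0]
        exact hf.2 j (Finset.mem_univ _) _
    have h2 := Submodule.finrank_mono h1
    have h3 : finrank ℂ ↥(Dbl (n + 1) 2 Finset.univ (fun _ : Fin 1 => (0 : Fin (n + 1) → ℂ)) ⊓
        LinearMap.ker (resL n 2)) ≤ n + 1 := by
      refine (finrank_inf_ker_le (d := 1) _ (LinearMap.ker (ev (n + 1) 1 0)) fun g hg => ?_).trans ?_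
      · have h3 := hg.2 0 (Finset.mem_univ _) 0
        rw [eval_pderiv_mulX_zero] at h3
        rw [LinearMap.mem_ker, ev_apply]
        simpa using h3
      · have h4 : LinearMap.ker (ev (n + 1) 1 0) < ⊤ := by
          rw [lt_top_iff_ne_top]
          intro h5
          have h6 : (⟨1, mem_Pol.2 (by simp)⟩ : Pol (n + 1) 1) ∈ LinearMap.ker (ev (n + 1) 1 0) := by
            rw [h5]; trivial
          rw [LinearMap.mem_ker, ev_apply] at h6
          simp at h6
        have h5 := Submodule.finrank_lt_finrank_of_lt h4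
        rw [finrank_top] at h5
        have h6 := finrank_Pol_le (n + 1) 1
        rw [NN_right_one] at h6
        omega
    have h4 : (n + 1) * n / 2 + (n + 1) = (n + 1 + 1) * (n + 1) / 2 := by
      rw [show (n + 1 + 1) * (n + 1) = (n + 1) * n + (n + 1) * 2 by ring,
        Nat.add_mul_div_right _ _ (by norm_num)]
    omega

theorem main : ∀ n q : ℕ, ∃ z : Fin (q + 1) → Fin n → ℂ, z 0 = 0 ∧
    finrank ℂ (Dbl n 2 Finset.univ z) ≤ (n + 1 - q) * (n - q) / 2
  | 0, q => by
    refine ⟨fun _ => 0, rfl, ?_⟩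
    rw [Nat.zero_sub, mul_zero, Nat.zero_div]
    have h := one_point 0
    simp only [mul_zero, Nat.zero_div] at h
    exact (Submodule.finrank_mono (Dbl_le_comp (fun _ : Fin 1 => (0 : Fin (q + 1))) _)).trans h
  | n + 1, 0 => ⟨fun _ => 0, rfl, one_point (n + 1)⟩
  | n + 1, q + 1 => by
    obtain ⟨z, hz0, hz⟩ := main n q
    let z' : Fin (q + 2) → Fin (n + 1) → ℂ :=
      Fin.lastCases (Fin.cons 1 0) (fun j => hp (z j))
    have h1 : ∀ j : Fin (q + 1), z' j.castSucc = hp (z j) := fun j => by simp [z']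
    have h2 : z' (Fin.last _) 0 ≠ 0 := by simp [z']
    have h0 : z' 0 = 0 := by
      have := h1 0
      rw [Fin.castSucc_zero, hz0] at this
      rw [this]
      ext i
      refine Fin.cases ?_ (fun j => ?_) i <;> simp
    refine ⟨z', h0, ?_⟩
    have h := finrank_le_map_add_ker (resL n 2) (Dbl (n + 1) 2 Finset.univ z')
    have h3 := Submodule.finrank_mono (map_le h1)
    have h4 := ker_le h0 h2
    rw [show n + 1 + 1 - (q + 1) = n + 1 - q by omega, show n + 1 - (q + 1) = n - q by omega]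
    omega

end QDaux

theorem x_QD : S_QD := by
  intro n q hq
  obtain ⟨q, rfl⟩ : ∃ q', q = q' + 1 := ⟨q - 1, by omega⟩
  obtain ⟨z, -, hz⟩ := QDaux.main n q
  refine ⟨z, hz.trans (le_of_eq ?_)⟩
  split_ifs with h
  · rw [show n - q = 0 by omega, mul_zero, Nat.zero_div]
  · rw [show n + 2 - (q + 1) = n + 1 - q by omega, show n + 1 - (q + 1) = n - q by omega]

end Pool.Agent.War5
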