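import Pool.Agent.WarS.SW

/-!
# Simultaneous Waring decompositions (MP_db021c_ag), few forms, all degrees ≥ 5   (helper54)

Range 2 ≤ s ≤ n, d ≥ 5. See PAPER.md in this directory. As in WarS/Stmts.lean the number of affine
variables is `n + 1` (hyperplane `x₀ = 0` with `n` variables), the number of forms is `r + 1`, the
degree is `d + 2`. `S_X` is proved by a theorem `X : S_X`, or `X (h : S_Y) .. : S_X` when it uses
other modules. In the comments `m = n + 1`, `s = r + 1`, `N(m,d) = NN m d`.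
-/

set_option autoImplicit false

open Module MvPolynomial
open Pool.Agent.War Pool.Agent.WarS

namespace Pool.Agent.War5

/-! ## 1. Double points -/

/-- the kernel of `p` general double points has dimension at most `k` -/
def KD (n d p k : ℕ) : Prop :=
  ∃ z : Fin p → Fin n → ℂ, finrank ℂ (Dbl n d Finset.univ z) ≤ k

/-- number of double points for quartics -/
def P4 (n : ℕ) : ℕ := ∑ k ∈ Finset.range (n + 1), (k + 3) ^ 2 / 9

/-- guaranteed number of independent double points in `n` variables and degree `d ≥ 3` -/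
def gg (n d : ℕ) : ℕ :=
  if n = 1 then (d + 1) / 2 else if d = 3 then (n + 3) ^ 2 / 9 else if d = 4 then P4 n
  else if n = 2 then 2 * NN 2 d / 7 else NN n d / (n + 2)

/-- bound for the dimension of the kernel of `q` general double points -/
def kap (m d q : ℕ) : ℕ :=
  if d = 2 then (if m + 1 ≤ q then 0 else (m + 2 - q) * (m + 1 - q) / 2)
  else NN m d - (m + 1) * min q (gg m d) - (if d = 3 then 2 * (q - min q (gg m d)) else 0)

/-- MO: monotonicity.

Proof. `GG.gen` (Hor.lean) gives a generic configuration; leaving out a double point raises the dimension of the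
kernel by at most `n + 1` (one value and `n` derivatives), leaving out a simple point of the hyperplane by at
most one. So `finrank (Dbl of the first p' points) ≤ finrank (Dbl of all p points) + (n + 1) (p - p')`. -/
def S_MO : Prop := (∀ n d p p' : ℕ, GG n d p → p' ≤ p → GG n d p') ∧
  ∀ n d p l p' l' : ℕ, SWaux.A n d p l → p' ≤ p → l' ≤ l → SWaux.A n d p' l'

/-- G1: one variable. Proof: `2 p ≤ d + 1`, distinct points `z_i`: a polynomial of degree `≤ d` which vanishes doubly at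
all the points is divisible by `∏ (X - z_i)²`, of degree `2 p`; the kernel has dimension `d + 1 - 2 p`. (Or: GG_one in
War/WAH.lean, which has `2 p ≤ d`, for `d` odd, `2 p = d + 1`: then the kernel for `p` points is `0`.) -/
def S_G1 : Prop := ∀ d p : ℕ, 2 * p ≤ d + 1 → GG 1 d p

/-- C9: cubics (helper68, `War5/Cub5.lean`). -/
def S_C9 : Prop := ∀ n p : ℕ, 9 * p ≤ (n + 3) ^ 2 → GG n 3 p

/-- QD: quadrics. Proof: the points `0, e_1, .., e_{q-1}` (`e_0 .. ` = unit vectors). A polynomial of degree `≤ 2` which is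
double at `0` is a quadratic form `Q`; it is double at `e_i` iff `∂_k Q (e_i) = 0` for all `k`, i.e. `Q` does not
contain `x_i`. So the kernel is the space of the quadratic forms in the other `n - q + 1` variables, of dimension
`(n - q + 2)(n - q + 1)/2` (`0` for `q = n + 1`; for `q > n + 1` add arbitrary points). -/
def S_QD : Prop := ∀ n q : ℕ, 1 ≤ q → KD n 2 q (if n + 1 ≤ q then 0 else (n + 2 - q) * (n + 1 - q) / 2)

/-- DR: one more general double point lowers the dimension of the kernel by at least two.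

Proof. Let `W` be the kernel for `p` points, `dim W ≤ k`. If `dim W ≤ 1` take a point where a generator does not vanish.
Let `dim W ≥ 2` and suppose that for every `z` the double vanishing at `z` has codimension `≤ 1` in `W`. Take independent
`f, g ∈ W`. For every `z` with `g z ≠ 0`, `h = f - (f z / g z) g` vanishes at `z`; as vanishing at `z` has codimension 1 (because
of `g`) it implies double vanishing, so `∂_k h (z) = 0`: `g ∂_k f - f ∂_k g` vanishes at all `z` with `g z ≠ 0`, so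
`g ∂_k f = f ∂_k g` as polynomials, for all `k`. This implies that `f` and `g` are proportional: choose `z₀` with `g z₀ ≠ 0`; replace
`f` by `f - (f z₀ / g z₀) g`: then `f z₀ = 0`; on a line through `z₀` put `F, G` (one variable `t`, `G 0 ≠ 0`, `F 0 = 0`): `F' G = F G'`. If
`F ≠ 0` vanishes of order `e ≥ 1` at `0` the left side vanishes of order `e - 1`, the right side of order `≥ e`: contradiction
(characteristic 0). So `F = 0` on every line through `z₀`, `f = 0`: contradiction. -/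
def S_DR : Prop := ∀ n d p k : ℕ, 1 ≤ n → KD n d p k → KD n d (p + 1) (k - 2)

/-- AK: simple points on the hyperplane. Proof: `SWaux.add_simple` (WarS/SW.lean): generic double points off the
hyperplane; the elements of the kernel which vanish on the hyperplane are `x₀ g`, `g` in the kernel in degree `d`
(as in `horace`, War/Hor.lean; `finrank_inf_ker_le`, `off_hyp`). -/
def S_AK : Prop := ∀ n d q l k : ℕ, GG (n + 1) (d + 1) q → KD (n + 1) d q k →
  k + l + (n + 2) * q ≤ NN (n + 1) (d + 1) → SWaux.A n (d + 1) q l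

/-- KAP: the bound `kap` (uses MO, QD, DR). Proof: `d = 2`: QD. `d ≥ 3`: `GG m d (min q (gg m d))` (hypothesis) gives
`KD m d (min q (gg m d)) (NN m d - (m+1) * min ..)`; more points only lower the kernel; for `d = 3` apply DR
`q - min ..` times. -/
def S_KAP : Prop := ∀ m d q : ℕ, 2 ≤ m → 1 ≤ q → 2 ≤ d → (3 ≤ d → GG m d (gg m d)) → KD m d q (kap m d q)

/-- CF: closed forms. -/
def S_CF : Prop := ∀ n : ℕ, 2 * NN n 2 = (n + 1) * (n + 2) ∧
  6 * NN n 3 = (n + 1) * (n + 2) * (n + 3) ∧ 24 * NN n 4 = (n + 1) * (n + 2) * (n + 3) * (n + 4) ∧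
  120 * NN n 5 = (n + 1) * (n + 2) * (n + 3) * (n + 4) * (n + 5) ∧
  720 * NN n 6 = (n + 1) * (n + 2) * (n + 3) * (n + 4) * (n + 5) * (n + 6)

/-- P4B: bounds for `P4` (induction; `x - 8 ≤ 9 * (x / 9) ≤ x`). -/
def S_P4B : Prop := ∀ n : ℕ, 54 * P4 n + 30 ≤ (n + 3) * (n + 4) * (2 * n + 7) ∧
  (n + 3) * (n + 4) * (2 * n + 7) ≤ 54 * P4 n + 30 + 48 * (n + 1)

/-- the numerical condition of the Horace step, target degree `d + 1` in `n + 1` variables -/
def SN (n d : ℕ) : Prop := gg n (d + 1) ≤ gg (n + 1) (d + 1) ∧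
  gg (n + 1) (d + 1) ≤ gg n (d + 1) + gg (n + 1) d ∧
  kap (n + 1) (d - 1) (gg (n + 1) (d + 1) - gg n (d + 1)) + gg n (d + 1) +
    (n + 2) * (gg (n + 1) (d + 1) - gg n (d + 1)) ≤ NN (n + 1) d

/-! The numerical modules. Notation: `m = n + 1`, `G = gg m (d+1)`, `U = gg n (d+1)`, `Q = G - U`, `T_k = N(n,k)`. See PAPER.md. -/

def S_SN3 : Prop := ∀ n : ℕ, 1 ≤ n → SN n 3
def S_SN4 : Prop := ∀ n : ℕ, 1 ≤ n → SN n 4
def S_SN5 : Prop := ∀ n : ℕ, 1 ≤ n → SN n 5
def S_SN6 : Prop := ∀ n d : ℕ, 3 ≤ n → 6 ≤ d → SN n d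
def S_SN7 : Prop := ∀ n d : ℕ, 1 ≤ n → n ≤ 2 → 6 ≤ d → SN n d

/-- AG: the conclusion (uses G1, C9, AK, KAP and all SN).

Proof. `GG n d (gg n d)` by induction on `n`, then on `d`: `n = 1`: G1. `n ≥ 2`, `d = 3`: C9. `n = n' + 1`, degree `d + 1 ≥ 4`: `U = gg n' (d+1)`,
`Q = gg n (d+1) - U`, `GG n' (d+1) U`, `GG n d Q` (MO), KAP in degree `d - 1` (its hypothesis by induction if `d - 1 ≥ 3`), so by AK
`A n' d Q U`, and `SWaux.A_step` with `l = 0` gives `A n' (d+1) (U+Q) 0`, i.e. `GG n (d+1) (gg n (d+1))`. (If `Q = 0` then `A n' d 0 U` by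
`SWaux.A_zero`: `U ≤ NN n' d`; but `Q ≥ 1` always, which may be easier: it is not needed if you treat `Q = 0` this way:
`(n'+1) U ≤ NN n' (d+1)` and `NN n' (d+1) ≤ (n'+1) NN n' d`.) -/
def S_AG : Prop := (∀ n d p : ℕ, 1 ≤ n → 3 ≤ d → p ≤ gg n d → GG n d p) ∧
  ∀ n d : ℕ, 1 ≤ n → 3 ≤ d → ∀ q l : ℕ, q ≤ gg (n + 1) (d + 1) - gg n (d + 1) → l ≤ gg n (d + 1) →
    SWaux.A n d q l

/-! ## 2. Residual conditions -/

/-- HD5: points which are double along the hyperplane; `u` of the double points are specialised to the hyperplane.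

Proof. `q = |P| - u`. By `SWaux.A.gen` and `GG.gen` choose generic `w : Fin q → ..` off the hyperplane and `z : Fin (u + y) → ..`
such that `DS n d w (z restricted to the first u)` has dimension `≤ NN (n+1) d - ((n+2) q + u)` and `Dbl n (d+1) univ z` has
dimension `≤ NN n (d+1) - (n+1)(u+y)`. Identify `P` with `Fin u ⊕ Fin q`; the double points are `hp (z_i)`, `i < u`, and `w_j`; the points
double along `H` are the other `z`. For `f` in `DblH`: `res f ∈ Dbl n (d+1) univ z`, and if `res f = 0`, `f = x₀ g`, `g ∈ DS n d w z`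
(`eval_pderiv_mulX_zero` at the points on `H`, `off_hyp` off `H`). So the dimension is
`≤ NN (n+1) (d+1) - (n+2) |P| - (n+1) y`. Then the simple points `I \ P` lower it by one each (`red`), as in WarS/HD.lean, which
is the template. -/
def S_HD5 : Prop := ∀ (n d u y : ℕ) (I : Type) [Fintype I] (P : Finset I), 1 ≤ n → u ≤ P.card →
  GG n (d + 1) (u + y) → SWaux.A n d (P.card - u) u →
  Gen ℂ fun x : (I → Fin (n + 1) → ℂ) × (Fin y → Fin n → ℂ) =>
    finrank ℂ (DblH n (d + 1) P x.1 x.2) ≤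
      NN (n + 1) (d + 1) - ((n + 1) * P.card + Fintype.card I + (n + 1) * y)

/-- RES5: residual lemma (uses `WarS.S_SG`, HD5). Proof: as WarS/RES.lean; `hA` by HD5; `hC'` (nothing in degree `d`): for a
subset `Q` of the points of type `j` with `q` elements `S_SG` gives `Dbl n d Q w = ⊥`, and `Dbl` is smaller for more double
points. -/
def S_RES5 : Prop := ∀ (n d r u v y : ℕ) (I : Type) [Fintype I] (π : I → Fin (r + 1)), 1 ≤ n →
  (∃ u' ≤ fib π 0, GG n (d + 1) (u' + y) ∧ SWaux.A n d (fib π 0 - u') u') →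
  (∀ j, ∃ q ≤ fib π j, GG (n + 1) d q ∧ NN (n + 1) d ≤ (n + 1) * q + Fintype.card I) →
  (∀ j, GG (n + 1) (d + 1) (fib π j)) →
  (n + 1) * fib π 0 + Fintype.card I + (n + 1) * y + u ≤ NN (n + 1) (d + 1) →
  (∀ j, (n + 1) * fib π j + Fintype.card I ≤ NN (n + 1) (d + 1)) →
  (r + 1) * NN (n + 1) (d + 1) ≤ (n + r + 2) * Fintype.card I + (n + 1) * y + u + v →
  Gen ℂ fun x : (I → Fin (n + 1) → ℂ) × (Fin u → Fin n → ℂ) × (Fin v → Fin n → ℂ) ×
      (Fin v → Fin (r + 1) → ℂ) × (Fin y → Fin n → ℂ) =>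
    ResZ d π x.1 x.2.1 x.2.2.1 x.2.2.2.1 x.2.2.2.2

/-! ## 3. Numbers -/

/-- the numbers which are needed -/
def Numb (n d r h : ℕ) : Prop := ∃ (u y : ℕ) (p : Fin (r + 1) → ℕ),
  NN n (d + 2) = (n + r + 1) * u + y ∧ u ≤ gg n (d + 2) ∧ y ≤ gg n (d + 1) ∧
  (r + 1) * u + y + ∑ j, p j = h ∧ (∀ j, p j ≤ gg (n + 1) (d + 1)) ∧
  p 0 + y ≤ gg (n + 1) (d + 1) ∧
  (∀ j, ∃ q, q ≤ p j ∧ q ≤ gg (n + 1) d ∧ NN (n + 1) d ≤ (n + 1) * q + ∑ i, p i) ∧
  (n + 1) * p 0 + ∑ i, p i + (n + 1) * y + u ≤ NN (n + 1) (d + 1) ∧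
  ∀ j, (n + 1) * p j + ∑ i, p i ≤ NN (n + 1) (d + 1)

/-- `h` is the critical number -/
def Crit (n d r h : ℕ) : Prop := (r + 1) * NN (n + 1) (d + 2) ≤ (n + r + 2) * h ∧
  (n + r + 2) * h < (r + 1) * NN (n + 1) (d + 2) + (n + r + 2)

/-- the general conditions, `u`, `y` = quotient and remainder of `NN n (d+2)` by `n + r + 1` -/
structure GC (n d r u y : ℕ) : Prop where
  g1 : 3 * (n + 1) ≤ u
  g2 : u + (n + 1) * y + (n + 1) ≤ NN n (d + 1)
  g3 : ∀ p : ℕ, (n + r + 2) * p + u ≤ NN (n + 1) (d + 1) + y + 2 * (n + r + 2) →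
    p ≤ gg (n + 1) (d + 1)
  g4 : ∀ t : ℕ, (r + 1) * NN (n + 1) (d + 1) ≤ (n + r + 2) * t + (r + 1) * u + (n + 1) * y →
    NN (n + 1) d ≤ (n + 1) * gg (n + 1) d + t
  g5 : u ≤ gg n (d + 2)
  g6 : y ≤ gg n (d + 1)

/-- the small cases -/
def Small (n d r : ℕ) : Prop := (n = 1 ∧ d ≤ 14) ∨ (n = 2 ∧ d ≤ 5) ∨ (n = 3 ∧ d = 3) ∨
  (n = 4 ∧ d = 3 ∧ r = 4)

/-- NC: the general case. Proof in PAPER.md; the template is `core` in WarS/NUM.lean. -/
def S_NC : Prop := ∀ n d r h u y : ℕ, 1 ≤ n → 1 ≤ r → r ≤ n → 3 ≤ d → Crit n d r h →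
  NN n (d + 2) = (n + r + 1) * u + y → y ≤ n + r → GC n d r u y → Numb n d r h

/-- NS: the 22 small cases (explicit numbers, script). -/
def S_NS : Prop := ∀ n d r h : ℕ, 1 ≤ n → 1 ≤ r → r ≤ n → 3 ≤ d → Small n d r → Crit n d r h →
  Numb n d r h

/-- NG3: degree 5 (`d = 3`). -/
def S_NG3 : Prop := ∀ n r u y : ℕ, 1 ≤ r → r ≤ n → ¬ Small n 3 r →
  NN n 5 = (n + r + 1) * u + y → y ≤ n + r → GC n 3 r u y

/-- NG4: degree 6 (`d = 4`). -/
def S_NG4 : Prop := ∀ n r u y : ℕ, 1 ≤ r → r ≤ n → ¬ Small n 4 r →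
  NN n 6 = (n + r + 1) * u + y → y ≤ n + r → GC n 4 r u y

/-- NG5: degrees `≥ 7`, at least four variables (`n ≥ 3`). -/
def S_NG5 : Prop := ∀ n d r u y : ℕ, 3 ≤ n → 5 ≤ d → 1 ≤ r → r ≤ n →
  NN n (d + 2) = (n + r + 1) * u + y → y ≤ n + r → GC n d r u y

/-- NG6: degrees `≥ 7`, two or three variables. -/
def S_NG6 : Prop := ∀ n d r u y : ℕ, 1 ≤ n → n ≤ 2 → 5 ≤ d → 1 ≤ r → r ≤ n → ¬ Small n d r →
  NN n (d + 2) = (n + r + 1) * u + y → y ≤ n + r → GC n d r u y

/-! ## 4. The result -/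

/-- FEW5 (uses AG, RES5, `WarS.S_TRA`, `WarS.S_DH`, NC, NS, NG3, NG4, NG5, NG6): the template is WarS/FEW.lean. -/
def S_FEW5 : Prop := ∀ n d r h : ℕ, 1 ≤ n → 1 ≤ r → r ≤ n → 3 ≤ d →
  (r + 1) * NN (n + 1) (d + 2) ≤ (n + r + 2) * h →
  ∃ (z : Fin h → Fin (n + 1) → ℂ) (a : Fin h → Fin (r + 1) → ℂ) (y : Fin 0 → Fin (n + 1) → ℂ),
    Kill (n + 1) (d + 2) z a y

end Pool.Agent.War5
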